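import Pool.Agent.H13.LIL.Defs

/-!
# Small balls: a sum of signs takes each value with a small probability
-/

namespace Pool.Agent.H13.LIL

open Finset Pool.Agent.H11.STA

variable {f : ℕ → ℤ → ℤ → ℝ} {w : ℕ → ℝ}

lemma cos_sign (τ x : ℝ) (hx : x = 1 ∨ x = -1 ∨ x = 0) :
    Real.cos (τ * x) = 1 - (1 - Real.cos τ) * x ^ 2 := by
  rcases hx with rfl | rfl | rfl <;> simp

lemma sin_sign (τ x : ℝ) (hx : x = 1 ∨ x = -1 ∨ x = 0) :
    Real.sin (τ * x) = Real.sin τ * x := by
  rcases hx with rfl | rfl | rfl <;> simp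

lemma trig_moments (hf : SignFam f w) (τ : ℝ) (I : Finset ℕ) (hI : ∀ k ∈ I, 2 ≤ k) :
    HasMean (fun a b => Real.cos (τ * SS f I a b)) (setMod I)
      (∏ k ∈ I, (1 - w k * (1 - Real.cos τ))) ∧
    HasMean (fun a b => Real.sin (τ * SS f I a b)) (setMod I) 0 := by
  induction I using Finset.induction_on with
  | empty =>
    refine ⟨?_, ?_⟩
    · exact (HasMean.const 1 (setMod_ne_zero ∅)).congr (fun a b => by simp [SS])
    · exact (HasMean.const 0 (setMod_ne_zero ∅)).congr (fun a b => by simp [SS])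
  | insert k I hk ih =>
    obtain ⟨h0, h1⟩ := ih (fun j hj => hI j (Finset.mem_insert_of_mem hj))
    have hk2 := hI k (Finset.mem_insert_self _ _)
    have hpne : Nat.nth Nat.Prime k ≠ 0 := NeZero.ne _
    have hc : (Nat.nth Nat.Prime k).Coprime (setMod I) := by
      refine Nat.Coprime.prod_right (fun j hj => nth_coprime ?_)
      rintro rfl
      exact hk hj
    have hmod : setMod (insert k I) = Nat.nth Nat.Prime k * setMod I := by
      unfold setMod; rw [Finset.prod_insert hk]
    have hSS : ∀ a b, SS f (insert k I) a b = f k a b + SS f I a b := by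
      intro a b; unfold SS; rw [Finset.sum_insert hk]
    have e0 : HasMean (fun a b => Real.cos (τ * f k a b)) (Nat.nth Nat.Prime k)
        (1 - w k * (1 - Real.cos τ)) := by
      have := (HasMean.const 1 hpne).add ((hf.m2 k hk2).smul (-(1 - Real.cos τ)))
      rw [show (1 : ℝ) + -(1 - Real.cos τ) * w k = 1 - w k * (1 - Real.cos τ) by ring] at this
      exact this.congr (fun a b => by rw [cos_sign τ _ (hf.val k hk2 a b)]; ring)
    have e1 : HasMean (fun a b => Real.sin (τ * f k a b)) (Nat.nth Nat.Prime k) 0 := by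
      have := (hf.m1 k hk2).smul (Real.sin τ)
      rw [mul_zero] at this
      exact this.congr (fun a b => sin_sign τ _ (hf.val k hk2 a b))
    rw [hmod, Finset.prod_insert hk]
    refine ⟨?_, ?_⟩
    · have := (e0.mul h0 hc).add ((e1.mul h1 hc).smul (-1))
      rw [zero_mul, mul_zero, add_zero] at this
      refine this.congr (fun a b => ?_)
      rw [hSS, mul_add, Real.cos_add]; ring
    · have := (e1.mul h0 hc).add (e0.mul h1 hc)
      rw [zero_mul, mul_zero, add_zero] at this
      refine this.congr (fun a b => ?_)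
      rw [hSS, mul_add, Real.sin_add]

/-- The finite Fourier inequality. -/
lemma fourier_ineq (R : ℕ) (hR : 1 ≤ R) (n : ℤ) :
    (if n = 0 then (1 : ℝ) else 0) ≤
      (∑ r ∈ range R, Real.cos (2 * Real.pi * r / R * n)) / R := by
  have hRR : (0 : ℝ) < R := by exact_mod_cast hR
  by_cases hn : (R : ℤ) ∣ n
  · obtain ⟨c, rfl⟩ := hn
    have h1 : ∀ r ∈ range R, Real.cos (2 * Real.pi * r / R * ((R * c : ℤ) : ℝ)) = 1 := by
      intro r _
      have : 2 * Real.pi * r / R * ((R * c : ℤ) : ℝ) = ((r * c : ℤ) : ℝ) * (2 * Real.pi) := by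
        push_cast; field_simp
      rw [this, Real.cos_int_mul_two_pi]
    rw [Finset.sum_congr rfl h1]
    simp only [Finset.sum_const, Finset.card_range, nsmul_eq_mul, mul_one]
    rw [div_self hRR.ne']
    split_ifs <;> norm_num
  · have hn0 : n ≠ 0 := by rintro rfl; exact hn (dvd_zero _)
    rw [if_neg hn0]
    set z : ℂ := Complex.exp (2 * Real.pi * Complex.I * (n / R)) with hz
    have hRC : (R : ℂ) ≠ 0 := by exact_mod_cast (by omega : R ≠ 0)
    have hz1 : z ≠ 1 := by
      intro h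
      rw [hz, Complex.exp_eq_one_iff] at h
      obtain ⟨c, hc⟩ := h
      apply hn
      refine ⟨c, ?_⟩
      have hpi : (2 * (Real.pi : ℂ) * Complex.I) ≠ 0 := by
        simp [Real.pi_ne_zero]
      have h2 : (n : ℂ) / R = c := by
        apply mul_left_cancel₀ hpi
        rw [hc]; ring
      rw [div_eq_iff hRC] at h2
      have h3 : (n : ℂ) = ((R * c : ℤ) : ℂ) := by rw [h2]; push_cast; ring
      exact_mod_cast h3
    have hzR : z ^ R = 1 := by
      rw [hz, ← Complex.exp_nat_mul, Complex.exp_eq_one_iff]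
      refine ⟨n, ?_⟩
      field_simp
    have hgeom : ∑ r ∈ range R, z ^ r = 0 := by
      have h1 := geom_sum_mul z R
      rw [hzR, sub_self] at h1
      exact (mul_eq_zero.mp h1).resolve_right (sub_ne_zero.mpr hz1)
    have hre : ∀ r ∈ range R, Real.cos (2 * Real.pi * r / R * n) = (z ^ r).re := by
      intro r _
      rw [hz, ← Complex.exp_nat_mul]
      have h2 : (r : ℂ) * (2 * Real.pi * Complex.I * (n / R)) =
          ((2 * Real.pi * r / R * n : ℝ) : ℂ) * Complex.I := by
        push_cast; ring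
      rw [h2, Complex.exp_ofReal_mul_I_re]
    rw [Finset.sum_congr rfl hre, ← Complex.re_sum, hgeom]
    simp

/-- The Gaussian sum. -/
lemma gauss_sum (α : ℝ) (hα : 0 < α) (Q : ℕ) :
    ∑ m ∈ range (Q + 1), Real.exp (-(α * (m : ℝ) ^ 2)) ≤ 3 / √α + 1 := by
  have hsα : 0 < √α := Real.sqrt_pos.mpr hα
  set M : ℕ := ⌈1 / √α⌉₊ with hM
  have hM0 : 1 / √α ≤ (M : ℝ) := Nat.le_ceil _
  have hM1 : (M : ℝ) ≤ 1 / √α + 1 := (Nat.ceil_lt_add_one (by positivity)).le
  have hMpos : 0 < M := Nat.ceil_pos.mpr (by positivity)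
  have hMR : (0 : ℝ) < M := by exact_mod_cast hMpos
  have h1 : ∀ m ∈ range (Q + 1), Real.exp (-(α * (m : ℝ) ^ 2)) ≤
      (if m < M then 1 else 0) + (if M ≤ m then 1 / α * ((m : ℝ) ^ 2)⁻¹ else 0) := by
    intro m _
    by_cases hm : m < M
    · rw [if_pos hm, if_neg (by omega), add_zero]
      rw [Real.exp_le_one_iff]
      have : 0 ≤ α * (m : ℝ) ^ 2 := by positivity
      linarith
    · rw [if_neg hm, if_pos (by omega), zero_add]
      have hm0 : (0 : ℝ) < m := by exact_mod_cast (by omega : 0 < m)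
      rw [Real.exp_neg]
      have h2 : α * (m : ℝ) ^ 2 ≤ Real.exp (α * (m : ℝ) ^ 2) := by
        have := Real.add_one_le_exp (α * (m : ℝ) ^ 2); linarith
      calc (Real.exp (α * (m : ℝ) ^ 2))⁻¹ ≤ (α * (m : ℝ) ^ 2)⁻¹ := inv_anti₀ (by positivity) h2
        _ = 1 / α * ((m : ℝ) ^ 2)⁻¹ := by rw [mul_inv]; ring
  refine (Finset.sum_le_sum h1).trans ?_
  rw [Finset.sum_add_distrib]
  have h2 : ∑ m ∈ range (Q + 1), (if m < M then (1 : ℝ) else 0) ≤ M := by
    rw [← Finset.sum_filter]
    calc ∑ m ∈ (range (Q + 1)).filter (fun m => m < M), (1 : ℝ) ≤ ∑ m ∈ range M, (1 : ℝ) := by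
          apply Finset.sum_le_sum_of_subset_of_nonneg
          · intro m hm
            rw [Finset.mem_filter] at hm
            exact Finset.mem_range.mpr hm.2
          · intros; norm_num
      _ = M := by simp
  have h3 : ∑ m ∈ range (Q + 1), (if M ≤ m then 1 / α * ((m : ℝ) ^ 2)⁻¹ else 0) ≤ 2 / √α := by
    rw [← Finset.sum_filter, ← Finset.mul_sum]
    have h4 : ∑ m ∈ (range (Q + 1)).filter (fun m => M ≤ m), ((m : ℝ) ^ 2)⁻¹ ≤ 2 / M := by
      have h5 : (range (Q + 1)).filter (fun m => M ≤ m) ⊆ Ioo (M - 1) (Q + 1) := by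
        intro m hm
        rw [Finset.mem_filter, Finset.mem_range] at hm
        rw [Finset.mem_Ioo]
        omega
      have h6 := Finset.sum_le_sum_of_subset_of_nonneg (f := fun j : ℕ => ((j : ℝ) ^ 2)⁻¹) h5
          (fun _ _ _ => by positivity)
      have h7 := sum_Ioo_inv_sq_le (α := ℝ) (M - 1) (Q + 1)
      have h8 : ((M - 1 : ℕ) : ℝ) + 1 = M := by
        rw [Nat.cast_sub (by omega)]; push_cast; ring
      rw [h8] at h7
      exact h6.trans h7
    have h9 : 2 / (M : ℝ) ≤ 2 * √α := by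
      rw [div_le_iff₀ hMR]
      rw [div_le_iff₀ hsα] at hM0
      linarith
    calc 1 / α * ∑ m ∈ (range (Q + 1)).filter (fun m => M ≤ m), ((m : ℝ) ^ 2)⁻¹
        ≤ 1 / α * (2 * √α) := mul_le_mul_of_nonneg_left (h4.trans h9) (by positivity)
      _ = 2 / √α := by
          have : α = √α * √α := (Real.mul_self_sqrt hα.le).symm
          field_simp
          nlinarith
  have h10 : 3 / √α + 1 = (1 / √α + 1) + 2 / √α := by ring
  linarith

lemma one_sub_abs_cos (Q r : ℕ) (hQ : 1 ≤ Q) (m : ℕ) (hm : 2 * m ≤ Q)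
    (h : r = m ∨ r + m = Q ∨ r = Q + m ∨ r + m = 2 * Q) :
    2 * (m : ℝ) ^ 2 / Q ^ 2 ≤ 1 - |Real.cos (2 * Real.pi * r / (2 * Q : ℕ))| := by
  have hQR : (0 : ℝ) < Q := by exact_mod_cast hQ
  have h1 : |Real.cos (2 * Real.pi * r / (2 * Q : ℕ))| = |Real.cos (Real.pi * m / Q)| := by
    rcases h with rfl | h | rfl | h
    · congr 2; push_cast; field_simp
    · have hr : (r : ℝ) = Q - m := by
        have : (r : ℝ) + m = Q := by exact_mod_cast h
        linarith
      have : 2 * Real.pi * r / (2 * Q : ℕ) = Real.pi - Real.pi * m / Q := by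
        push_cast; rw [hr]; field_simp
      rw [this, Real.cos_pi_sub, abs_neg]
    · have : 2 * Real.pi * ((Q + m : ℕ) : ℝ) / (2 * Q : ℕ) = Real.pi * m / Q + Real.pi := by
        push_cast; field_simp; ring
      rw [this, Real.cos_add_pi, abs_neg]
    · have hr : (r : ℝ) = 2 * Q - m := by
        have : (r : ℝ) + m = 2 * Q := by exact_mod_cast h
        linarith
      have : 2 * Real.pi * r / (2 * Q : ℕ) = 2 * Real.pi - Real.pi * m / Q := by
        push_cast; rw [hr]; field_simp
      rw [this, Real.cos_two_pi_sub]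
  rw [h1]
  have hmR : 2 * (m : ℝ) ≤ Q := by exact_mod_cast hm
  have hpi := Real.pi_pos
  have h2 : Real.pi * m / Q ≤ Real.pi / 2 := by
    rw [div_le_iff₀ hQR]; nlinarith
  have h3 : 0 ≤ Real.pi * m / Q := by positivity
  have h4 : 0 ≤ Real.cos (Real.pi * m / Q) :=
    Real.cos_nonneg_of_neg_pi_div_two_le_of_le (by linarith) h2
  rw [abs_of_nonneg h4]
  have h5 := Real.cos_le_one_sub_mul_cos_sq (x := Real.pi * m / Q) (by
    rw [abs_of_nonneg h3]; linarith)
  have h6 : 2 / Real.pi ^ 2 * (Real.pi * m / Q) ^ 2 = 2 * (m : ℝ) ^ 2 / Q ^ 2 := by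
    field_simp
  linarith

/-- the distance to the nearest of `0`, `Q`, `2Q` -/
def mr (Q r : ℕ) : ℕ :=
  if 2 * r ≤ Q then r else if r ≤ Q then Q - r else if 2 * r ≤ 3 * Q then r - Q else 2 * Q - r

lemma mr_spec (Q r : ℕ) (hr : r < 2 * Q) : 2 * mr Q r ≤ Q ∧
    (r = mr Q r ∨ r + mr Q r = Q ∨ r = Q + mr Q r ∨ r + mr Q r = 2 * Q) := by
  unfold mr
  split_ifs <;> omega

lemma sum_mr (Q : ℕ) (g : ℕ → ℝ) (hg : ∀ m, 0 ≤ g m) :
    ∑ r ∈ range (2 * Q), g (mr Q r) ≤ 4 * ∑ m ∈ range (Q + 1), g m := by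
  classical
  have hmaps : ∀ r ∈ range (2 * Q), mr Q r ∈ range (Q + 1) := by
    intro r hr
    have := (mr_spec Q r (Finset.mem_range.mp hr)).1
    rw [Finset.mem_range]; omega
  rw [← Finset.sum_fiberwise_of_maps_to hmaps, Finset.mul_sum]
  refine Finset.sum_le_sum (fun m _ => ?_)
  have h1 : ∀ r ∈ (range (2 * Q)).filter (fun r => mr Q r = m), g (mr Q r) = g m := by
    intro r hr
    rw [(Finset.mem_filter.mp hr).2]
  rw [Finset.sum_congr rfl h1, Finset.sum_const, nsmul_eq_mul]
  refine mul_le_mul_of_nonneg_right ?_ (hg m)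
  have h2 : (range (2 * Q)).filter (fun r => mr Q r = m) ⊆ {m, Q - m, Q + m, 2 * Q - m} := by
    intro r hr
    rw [Finset.mem_filter, Finset.mem_range] at hr
    obtain ⟨h3, h4⟩ := mr_spec Q r hr.1
    rw [hr.2] at h3 h4
    simp only [Finset.mem_insert, Finset.mem_singleton]
    omega
  have h3 := (Finset.card_le_card h2).trans Finset.card_le_four
  exact_mod_cast h3

open Classical in
/-- A sum of signs takes each value with probability at most `5/√W`. -/
theorem point_mass (hf : SignFam f w) (I : Finset ℕ) (hI : ∀ k ∈ I, 2 ≤ k) (W : ℝ)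
    (hW : W ≤ ∑ k ∈ I, w k) (hW0 : 0 < W) (v : ℤ) :
    ∃ P : ℝ, HasMean (fun a b => if SS f I a b = v then (1 : ℝ) else 0) (setMod I) P ∧
      P ≤ 5 / √W := by
  have hsW : 0 < √W := Real.sqrt_pos.mpr hW0
  obtain ⟨P, hP⟩ : ∃ P : ℝ, HasMean (fun a b => if SS f I a b = v then (1 : ℝ) else 0)
      (setMod I) P := by
    have hS : ∃ T : ℝ, HasMean (SS f I) (setMod I) T := by
      refine ⟨0, ?_⟩
      clear hW
      induction I using Finset.induction_on with
      | empty => exact (HasMean.const 0 (setMod_ne_zero ∅)).congr (fun a b => by simp [SS])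
      | insert k I hk ih =>
        have hi := ih (fun j hj => hI j (Finset.mem_insert_of_mem hj))
        have hk2 := hI k (Finset.mem_insert_self _ _)
        have hc : (Nat.nth Nat.Prime k).Coprime (setMod I) := by
          refine Nat.Coprime.prod_right (fun j hj => nth_coprime ?_)
          rintro rfl
          exact hk hj
        have := ((hf.m1 k hk2).lift (setMod_ne_zero I) hc).add (hi.lift' (NeZero.ne _) hc)
        rw [add_zero] at this
        have hmod : setMod (insert k I) = Nat.nth Nat.Prime k * setMod I := by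
          unfold setMod; rw [Finset.prod_insert hk]
        rw [hmod]
        exact this.congr (fun a b => by unfold SS; rw [Finset.sum_insert hk])
    obtain ⟨T, hT⟩ := hS
    exact hT.comp (fun x => if x = v then (1 : ℝ) else 0)
  refine ⟨P, hP, ?_⟩
  -- the sum is an integer
  have hint : ∀ a b, ∃ n : ℤ, SS f I a b = n := by
    intro a b
    have h1 : ∀ k ∈ I, ∃ n : ℤ, f k a b = n := by
      intro k hk
      rcases hf.val k (hI k hk) a b with e | e | e
      · exact ⟨1, by rw [e]; norm_num⟩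
      · exact ⟨-1, by rw [e]; norm_num⟩
      · exact ⟨0, by rw [e]; norm_num⟩
    choose! n hn using h1
    refine ⟨∑ k ∈ I, n k, ?_⟩
    unfold SS
    push_cast
    exact Finset.sum_congr rfl hn
  set Q : ℕ := ⌈4 * √W⌉₊ with hQ
  have hQ1 : 1 ≤ Q := Nat.ceil_pos.mpr (by positivity)
  have hQ4 : 4 * √W ≤ Q := Nat.le_ceil _
  have hQR : (0 : ℝ) < Q := by exact_mod_cast hQ1
  set R : ℕ := 2 * Q with hR
  have hRR : (R : ℝ) = 2 * Q := by rw [hR]; push_cast; ring
  set c : ℕ → ℝ := fun r => ∏ k ∈ I, (1 - w k * (1 - Real.cos (2 * Real.pi * r / R))) with hc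
  have hmean : ∀ r : ℕ, HasMean (fun a b => Real.cos (2 * Real.pi * r / R * (SS f I a b - v)))
      (setMod I) (Real.cos (2 * Real.pi * r / R * v) * c r) := by
    intro r
    obtain ⟨h0, h1⟩ := trig_moments hf (2 * Real.pi * r / R) I hI
    have := (h0.smul (Real.cos (2 * Real.pi * r / R * v))).add
      (h1.smul (Real.sin (2 * Real.pi * r / R * v)))
    rw [mul_zero, add_zero] at this
    refine this.congr (fun a b => ?_)
    rw [mul_sub, Real.cos_sub]; ring
  have hsum : ∀ n : ℕ, HasMean (fun a b => ∑ r ∈ range n,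
      Real.cos (2 * Real.pi * r / R * (SS f I a b - v))) (setMod I)
      (∑ r ∈ range n, Real.cos (2 * Real.pi * r / R * v) * c r) := by
    intro n
    induction n with
    | zero => simpa using HasMean.const 0 (setMod_ne_zero I)
    | succ n ih =>
      rw [Finset.sum_range_succ]
      exact (ih.add (hmean n)).congr (fun a b => by rw [Finset.sum_range_succ])
  have hle := hP.mono ((hsum R).smul (1 / (R : ℝ))) (fun a b => by
    obtain ⟨n, hn⟩ := hint a b
    have h1 := fourier_ineq R (by omega) (n - v)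
    rw [hn]
    have h2 : ((n : ℝ) = v) ↔ (n - v = 0) := by
      rw [sub_eq_zero]; exact_mod_cast Iff.rfl
    simp only [h2]
    push_cast at h1
    rw [one_div, inv_mul_eq_div]
    exact h1)
  refine hle.trans ?_
  -- the bound for the characteristic function
  have hcb : ∀ r : ℕ, r < R → |c r| ≤ Real.exp (-(2 * W / Q ^ 2 * (mr Q r : ℝ) ^ 2)) := by
    intro r hr
    set y := Real.cos (2 * Real.pi * r / R) with hy
    have hy1 : |y| ≤ 1 := Real.abs_cos_le_one _
    have h1 : |c r| ≤ ∏ k ∈ I, Real.exp (-(w k * (1 - |y|))) := by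
      rw [hc]
      simp only
      rw [Finset.abs_prod]
      refine Finset.prod_le_prod (fun k _ => abs_nonneg _) (fun k hk => ?_)
      have hw := hf.w_nonneg (hI k hk)
      have hw1 := hf.w_le_one (hI k hk)
      have h2 : |1 - w k * (1 - y)| ≤ 1 - w k * (1 - |y|) := by
        have h3 : 1 - w k * (1 - y) = (1 - w k) + w k * y := by ring
        rw [h3]
        calc |(1 - w k) + w k * y| ≤ |1 - w k| + |w k * y| := abs_add_le _ _
          _ = (1 - w k) + w k * |y| := by
              rw [abs_of_nonneg (by linarith), abs_mul, abs_of_nonneg hw]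
          _ = _ := by ring
      refine h2.trans ?_
      have := Real.add_one_le_exp (-(w k * (1 - |y|)))
      linarith
    refine h1.trans ?_
    rw [← Real.exp_sum]
    apply Real.exp_le_exp.mpr
    rw [Finset.sum_neg_distrib, ← Finset.sum_mul]
    obtain ⟨h3, h4⟩ := mr_spec Q r hr
    have h5 := one_sub_abs_cos Q r hQ1 (mr Q r) h3 h4
    have h6 : (1 - |y|) = 1 - |Real.cos (2 * Real.pi * r / (2 * Q : ℕ))| := rfl
    rw [h6]
    have h7 : 2 * W / Q ^ 2 * (mr Q r : ℝ) ^ 2 = W * (2 * (mr Q r : ℝ) ^ 2 / Q ^ 2) := by ring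
    rw [h7]
    have h8 : 0 ≤ 2 * (mr Q r : ℝ) ^ 2 / (Q : ℝ) ^ 2 := by positivity
    have h9 : W * (2 * (mr Q r : ℝ) ^ 2 / Q ^ 2) ≤
        (∑ k ∈ I, w k) * (1 - |Real.cos (2 * Real.pi * r / (2 * Q : ℕ))|) :=
      mul_le_mul hW h5 h8 (hW0.le.trans hW)
    linarith
  have hα : 0 < 2 * W / (Q : ℝ) ^ 2 := by positivity
  have h10 : ∑ r ∈ range R, Real.cos (2 * Real.pi * r / R * v) * c r ≤
      4 * (3 / √(2 * W / (Q : ℝ) ^ 2) + 1) := by
    calc ∑ r ∈ range R, Real.cos (2 * Real.pi * r / R * v) * c r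
        ≤ ∑ r ∈ range R, Real.exp (-(2 * W / Q ^ 2 * (mr Q r : ℝ) ^ 2)) := by
          refine Finset.sum_le_sum (fun r hr => ?_)
          refine le_trans (le_abs_self _) ?_
          rw [abs_mul]
          refine le_trans ?_ (hcb r (Finset.mem_range.mp hr))
          have := mul_le_mul_of_nonneg_right (Real.abs_cos_le_one (2 * Real.pi * r / R * v))
            (abs_nonneg (c r))
          linarith
      _ ≤ 4 * ∑ m ∈ range (Q + 1), Real.exp (-(2 * W / Q ^ 2 * (m : ℝ) ^ 2)) :=
          sum_mr Q (fun m => Real.exp (-(2 * W / Q ^ 2 * (m : ℝ) ^ 2)))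
            (fun m => (Real.exp_pos _).le)
      _ ≤ _ := by
          have := gauss_sum (2 * W / (Q : ℝ) ^ 2) hα Q
          linarith
  have h11 : √(2 * W / (Q : ℝ) ^ 2) = √2 * √W / Q := by
    rw [Real.sqrt_div (by positivity), Real.sqrt_sq hQR.le, Real.sqrt_mul (by norm_num)]
  rw [h11] at h10
  have h12 : 1.41 < √2 := by
    rw [Real.lt_sqrt (by norm_num)]; norm_num
  calc 1 / (R : ℝ) * ∑ r ∈ range R, Real.cos (2 * Real.pi * r / R * v) * c r
      ≤ 1 / (R : ℝ) * (4 * (3 / (√2 * √W / Q) + 1)) :=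
        mul_le_mul_of_nonneg_left h10 (by positivity)
    _ = 6 / (√2 * √W) + 2 / Q := by rw [hRR]; field_simp; ring
    _ ≤ 6 / (1.41 * √W) + 2 / (4 * √W) := by
        apply add_le_add
        · apply div_le_div_of_nonneg_left (by norm_num) (by positivity)
          exact mul_le_mul_of_nonneg_right h12.le hsW.le
        · exact div_le_div_of_nonneg_left (by norm_num) (by positivity) hQ4
    _ ≤ 5 / √W := by
        have : 6 / (1.41 * √W) + 2 / (4 * √W) = (6 / 1.41 + 1 / 2) / √W := by
          field_simp; norm_num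
        rw [this]
        apply div_le_div_of_nonneg_right (by norm_num) hsW.le

end Pool.Agent.H13.LIL
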