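import Pool.Agent.H13.LIL.Rich
import Pool.Agent.DEU.Final

/-!
# The family of all curves
-/

namespace Pool.Agent.H13.LIL

open Finset Pool.Agent.H11.STA Filter Topology

/-- The mean square of the sign of the trace over all curves. -/
noncomputable def wbox (k : ℕ) : ℝ :=
  (∑ u : ZMod (Nat.nth Nat.Prime k), ∑ v : ZMod (Nat.nth Nat.Prime k),
    sg (redAngle (Nat.nth Nat.Prime k) u v) ^ 2) / (Nat.nth Nat.Prime k : ℝ) ^ 2

lemma sgn_val (k : ℕ) (a b : ℤ) : sgn k a b = 1 ∨ sgn k a b = -1 ∨ sgn k a b = 0 := sg_cases _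

lemma box_fam : SignFam sgn wbox where
  val k _ a b := sgn_val k a b
  m1 k hk := sgn_mean k hk
  m2 k hk := by
    refine ⟨nzPrime k, fun u v => sg (redAngle (Nat.nth Nat.Prime k) u v) ^ 2,
      fun _ _ => rfl, ?_⟩
    have hp0 : (Nat.nth Nat.Prime k : ℝ) ^ 2 ≠ 0 := by
      have : (0 : ℝ) < Nat.nth Nat.Prime k := by exact_mod_cast NeZero.pos _
      positivity
    unfold wbox
    rw [mul_div_cancel₀ _ hp0]

/-- The angle is `1/2` with a small probability. -/
lemma one_sub_wbox (k : ℕ) : 1 - wbox k ≤ localErr k := by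
  classical
  have hp0 : (0 : ℝ) < (Nat.nth Nat.Prime k : ℝ) ^ 2 := by
    have : (0 : ℝ) < Nat.nth Nat.Prime k := by exact_mod_cast NeZero.pos _
    positivity
  have key : ∀ δ : ℝ, 0 < δ → δ ≤ 1 / 2 → 1 - wbox k ≤ localErr k + 2 * δ := by
    intro δ hδ hδ1
    have h1 := le_localErr k (a := 1 / 2) (b := 1 / 2 + δ) (by norm_num) (by linarith)
      (by linarith)
    have h2 := (abs_le.mp h1).2
    have h3 : satoTate.real (Set.Ico (1 / 2) (1 / 2 + δ)) ≤ 2 * δ := by
      rw [MeasureTheory.measureReal_def, satoTate_Ico (1 / 2) (1 / 2 + δ) (by norm_num)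
        (by linarith) (by linarith), ENNReal.toReal_ofReal
        (intervalIntegral.integral_nonneg (by linarith) (fun u _ => by positivity))]
      have h4 : ∫ u in (1 / 2 : ℝ)..(1 / 2 + δ), (2 : ℝ) = 2 * δ := by
        rw [intervalIntegral.integral_const]; simp only [smul_eq_mul]; ring
      rw [← h4]
      refine intervalIntegral.integral_mono_on (by linarith)
        (cont_density.intervalIntegrable _ _) (by simp) (fun u _ => ?_)
      have := Real.sin_sq_le_one (Real.pi * u)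
      linarith
    have h5 : 1 - wbox k ≤ angleLaw k (Set.Ico (1 / 2) (1 / 2 + δ)) := by
      unfold wbox angleLaw
      rw [one_sub_div hp0.ne', div_le_div_iff_of_pos_right hp0]
      have h6 : (Nat.nth Nat.Prime k : ℝ) ^ 2 =
          ∑ u : ZMod (Nat.nth Nat.Prime k), ∑ v : ZMod (Nat.nth Nat.Prime k), (1 : ℝ) := by
        simp only [Finset.sum_const, Finset.card_univ, ZMod.card, nsmul_eq_mul, mul_one]
        ring
      rw [h6, Finset.card_filter]
      push_cast
      rw [Fintype.sum_prod_type, ← Finset.sum_sub_distrib]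
      refine Finset.sum_le_sum (fun u _ => ?_)
      rw [← Finset.sum_sub_distrib]
      refine Finset.sum_le_sum (fun v _ => ?_)
      by_cases hx : redAngle (Nat.nth Nat.Prime k) u v = 1 / 2
      · rw [if_pos (by rw [hx, Set.mem_Ico]; constructor <;> linarith)]
        have := sq_nonneg (sg (redAngle (Nat.nth Nat.Prime k) u v))
        linarith
      · rw [sg_sq_of_ne hx]
        split_ifs <;> norm_num
    linarith
  refine le_of_forall_pos_le_add (fun ε hε => ?_)
  have h := key (min (ε / 2) (1 / 2)) (lt_min (by linarith) (by norm_num)) (min_le_right _ _)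
  have := min_le_left (ε / 2) (1 / 2 : ℝ)
  linarith

/-- The mean squares of the deviations (DEU). -/
lemma local_sq : ∀ ε : ℝ, 0 < ε → ∃ C : ℝ, ∀ K : ℕ, 1 ≤ K →
    ∑ k ∈ range K, localErr k ^ 2 ≤ C * (K : ℝ) ^ (1 / 2 + ε) := by
  have h17 : ∀ k, 17 ≤ k → 17 ≤ Nat.nth Nat.Prime k := fun k hk =>
    (hk.trans (lt_nth_prime k).le)
  exact (Pool.Agent.H11.DEU.bridge (h := Pool.Agent.DEU.hh) (k0 := 17) h17
    (fun k hk => Pool.Agent.DEU.deuring_count (le_trans (by norm_num) (h17 k hk)))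
    Pool.Agent.DEU.c1_holds Pool.Agent.DEU.c2_holds Pool.Agent.DEU.c3_holds).2

lemma box_rich : Rich wbox 1 := by
  apply rich_of_density
  intro ρ₁ hρ₁
  obtain ⟨C, hC⟩ := local_sq (1 / 4) (by norm_num)
  set δ := 1 - ρ₁ with hδ
  have hδ0 : 0 < δ := by linarith
  -- eventually the deviations are small
  have hev : ∀ᶠ n : ℝ in atTop, |C| * n ^ (1 / 2 + 1 / 4 : ℝ) ≤ (δ / 2) ^ 2 * n ∧
      4 / δ ≤ n := by
    have h1 : Tendsto (fun n : ℝ => n ^ (1 / 4 : ℝ)) atTop atTop :=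
      tendsto_rpow_atTop (by norm_num)
    filter_upwards [h1.eventually_ge_atTop (|C| / (δ / 2) ^ 2), eventually_ge_atTop (4 / δ),
      eventually_gt_atTop 0] with n hn hn1 hn0
    refine ⟨?_, hn1⟩
    rw [div_le_iff₀ (by positivity)] at hn
    have h2 : n = n ^ (1 / 2 + 1 / 4 : ℝ) * n ^ (1 / 4 : ℝ) := by
      rw [← Real.rpow_add hn0]; norm_num
    calc |C| * n ^ (1 / 2 + 1 / 4 : ℝ) ≤ (n ^ (1 / 4 : ℝ) * (δ / 2) ^ 2) *
          n ^ (1 / 2 + 1 / 4 : ℝ) :=
          mul_le_mul_of_nonneg_right hn (by positivity)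
      _ = (δ / 2) ^ 2 * (n ^ (1 / 2 + 1 / 4 : ℝ) * n ^ (1 / 4 : ℝ)) := by ring
      _ = (δ / 2) ^ 2 * n := by rw [← h2]
  obtain ⟨N, hN⟩ := eventually_atTop.mp hev
  refine ⟨max ⌈N⌉₊ 2, fun n hn => ?_⟩
  have hnN : N ≤ (n : ℝ) := (Nat.le_ceil N).trans (by exact_mod_cast (le_max_left _ _).trans hn)
  have hn2 : 2 ≤ n := (le_max_right _ _).trans hn
  obtain ⟨h1, h2⟩ := hN n hnN
  have hnR : (0 : ℝ) < n := by exact_mod_cast (by omega : 0 < n)
  -- Cauchy-Schwarz
  have hcs : ∑ k ∈ range n, localErr k ≤ δ / 2 * n := by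
    have h3 := Finset.sum_mul_sq_le_sq_mul_sq (range n) (fun _ => (1 : ℝ)) (fun k => localErr k)
    simp only [one_mul, one_pow, Finset.sum_const, Finset.card_range, nsmul_eq_mul,
      mul_one] at h3
    have h4 := hC n (by omega)
    have h5 : C * (n : ℝ) ^ (1 / 2 + 1 / 4 : ℝ) ≤ |C| * (n : ℝ) ^ (1 / 2 + 1 / 4 : ℝ) :=
      mul_le_mul_of_nonneg_right (le_abs_self C) (by positivity)
    have h6 : (∑ k ∈ range n, localErr k) ^ 2 ≤ (δ / 2 * n) ^ 2 := by
      calc (∑ k ∈ range n, localErr k) ^ 2 ≤ n * ∑ k ∈ range n, localErr k ^ 2 := h3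
        _ ≤ n * ((δ / 2) ^ 2 * n) := mul_le_mul_of_nonneg_left (by linarith) hnR.le
        _ = (δ / 2 * n) ^ 2 := by ring
    exact le_of_sq_le_sq h6 (by positivity)
  have h7 : (n : ℝ) - 2 - ∑ k ∈ range n, localErr k ≤ ∑ k ∈ Ico 2 n, wbox k := by
    have h8 : ∑ k ∈ Ico 2 n, (1 - localErr k) ≤ ∑ k ∈ Ico 2 n, wbox k :=
      Finset.sum_le_sum (fun k _ => by linarith [one_sub_wbox k])
    rw [Finset.sum_sub_distrib] at h8
    have h9 : ∑ k ∈ Ico 2 n, (1 : ℝ) = n - 2 := by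
      rw [Finset.sum_const, Nat.card_Ico, nsmul_eq_mul, mul_one, Nat.cast_sub hn2]
      norm_num
    have h10 : ∑ k ∈ Ico 2 n, localErr k ≤ ∑ k ∈ range n, localErr k := by
      apply Finset.sum_le_sum_of_subset_of_nonneg
      · intro k hk
        rw [Finset.mem_Ico] at hk
        exact Finset.mem_range.mpr hk.2
      · intro k _ _
        exact localErr_nonneg k
    linarith
  rw [div_le_iff₀ hδ0] at h2
  have h11 : ρ₁ * n = n - δ * n := by rw [hδ]; ring
  linarith

end Pool.Agent.H13.LIL
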