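import Pool.Agent.H13.LIL.Box

/-!
# The law of the iterated logarithm, lower half, for almost all curves
-/

namespace Pool.Agent.H13.LIL

open Finset Pool.Agent.H11.STA Filter Topology

lemma low_of_sum (E : WeierstrassCurve ℚ) (s K : ℕ) (hs : 1 ≤ s) (hK : 1 ≤ K) (L κ δ F : ℝ)
    (hL : 0 ≤ L) (hF : κ * √(K * L) ≤ -F)
    (hc : |∑ k ∈ range K, sg (angle E k) - F| ≤ δ * √(K * L)) :
    (κ - δ) / 2 * √L ≤ √(K : ℝ) * starDisc E s K := by
  have h1 := star_low E s K hs hK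
  have h2 := (abs_le.mp hc).2
  have hKR : (0 : ℝ) < K := by exact_mod_cast hK
  have h3 : (κ - δ) * √(K * L) ≤ 2 * K * starDisc E s K := by nlinarith
  have h4 : √((K : ℝ) * L) = √(K : ℝ) * √L := Real.sqrt_mul hKR.le _
  have h5 : √(K : ℝ) * √(K : ℝ) = K := Real.mul_self_sqrt hKR.le
  have h6 : 0 < √(K : ℝ) := Real.sqrt_pos.mpr hKR
  rw [h4] at h3
  have h7 : √(K : ℝ) * ((κ - δ) / 2 * √L) ≤ √(K : ℝ) * (√(K : ℝ) * starDisc E s K) := by
    calc √(K : ℝ) * ((κ - δ) / 2 * √L) = (κ - δ) * (√(K : ℝ) * √L) / 2 := by ring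
      _ ≤ (2 * K * starDisc E s K) / 2 := by linarith
      _ = (√(K : ℝ) * √(K : ℝ)) * starDisc E s K := by rw [h5]; ring
      _ = _ := by ring
  exact le_of_mul_le_mul_left h7 h6

/-- The signs of the angles and of the reductions. -/
lemma sum_near (E : WeierstrassCurve ℚ) (a b : ℤ) (hE : E = shortCurve (a : ℚ) (b : ℚ))
    (K k0 : ℕ)
    (h : ∀ k, k0 ≤ k → k < K → ¬ (((a : ℤ) : ZMod (Nat.nth Nat.Prime k)) = 0 ∧
      ((b : ℤ) : ZMod (Nat.nth Nat.Prime k)) = 0)) :
    |∑ k ∈ range K, sg (angle E k) - ∑ k ∈ Ico 2 K, sgn k a b| ≤ 2 * (k0 + 2) := by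
  classical
  have h0 : ∑ k ∈ Ico 2 K, sgn k a b = ∑ k ∈ range K, if 2 ≤ k then sgn k a b else 0 := by
    rw [← Finset.sum_filter]
    apply Finset.sum_congr _ (fun _ _ => rfl)
    ext k
    simp only [Finset.mem_Ico, Finset.mem_filter, Finset.mem_range]
    exact and_comm
  rw [h0, ← Finset.sum_sub_distrib]
  calc |∑ k ∈ range K, (sg (angle E k) - if 2 ≤ k then sgn k a b else 0)|
      ≤ ∑ k ∈ range K, |sg (angle E k) - if 2 ≤ k then sgn k a b else 0| :=
        Finset.abs_sum_le_sum_abs _ _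
    _ ≤ ∑ k ∈ range K, if k < k0 + 2 then (2 : ℝ) else 0 := by
        refine Finset.sum_le_sum (fun k hk => ?_)
        by_cases hk0 : k < k0 + 2
        · rw [if_pos hk0]
          have h1 := sg_abs (angle E k)
          have h2 : |(if 2 ≤ k then sgn k a b else 0 : ℝ)| ≤ 1 := by
            split_ifs
            · exact sg_abs _
            · simp
          calc |sg (angle E k) - if 2 ≤ k then sgn k a b else 0|
              ≤ |sg (angle E k)| + |(if 2 ≤ k then sgn k a b else 0 : ℝ)| := abs_sub _ _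
            _ ≤ 2 := by linarith
        · rw [if_neg hk0, if_pos (by omega), hE, angle_eq a b k (by omega)
            (h k (by omega) (Finset.mem_range.mp hk))]
          unfold sgn
          simp
    _ = ∑ k ∈ (range K).filter (fun k => k < k0 + 2), (2 : ℝ) := by rw [Finset.sum_filter]
    _ ≤ ∑ k ∈ range (k0 + 2), (2 : ℝ) := by
        apply Finset.sum_le_sum_of_subset_of_nonneg
        · intro k hk
          rw [Finset.mem_filter] at hk
          exact Finset.mem_range.mpr hk.2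
        · intros; norm_num
    _ = 2 * (k0 + 2) := by
        simp only [Finset.sum_const, Finset.card_range, nsmul_eq_mul]
        push_cast; ring

/-- Large `K` for which a constant is negligible. -/
lemma exists_large (c δ : ℝ) (hδ : 0 < δ) : ∃ N : ℕ, ∀ K : ℕ, N ≤ K →
    0 ≤ Real.log (Real.log K) ∧ c ≤ δ * √(K * Real.log (Real.log K)) := by
  have h1 : Tendsto (fun y : ℝ => Real.log (Real.log y)) atTop atTop :=
    Real.tendsto_log_atTop.comp Real.tendsto_log_atTop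
  have h2 : ∀ᶠ y : ℝ in atTop, 0 ≤ Real.log (Real.log y) ∧
      c ≤ δ * √(y * Real.log (Real.log y)) := by
    filter_upwards [h1.eventually_ge_atTop 1, eventually_ge_atTop ((|c| / δ) ^ 2),
      eventually_ge_atTop 0] with y hy1 hy2 hy0
    refine ⟨by linarith, ?_⟩
    have h3 : |c| / δ ≤ √(y * Real.log (Real.log y)) := by
      apply Real.le_sqrt_of_sq_le
      nlinarith
    rw [div_le_iff₀ hδ] at h3
    linarith [le_abs_self c]
  obtain ⟨y0, hy0⟩ := eventually_atTop.mp h2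
  refine ⟨⌈y0⌉₊, fun K hK => hy0 K ((Nat.le_ceil y0).trans (by exact_mod_cast hK))⟩

theorem box_lil (s : ℕ) (hs : 1 ≤ s) (ε : ℝ) (hε : 0 < ε) (K0 : ℕ) (η : ℝ) (hη : 0 < η) :
    ∃ K1 : ℕ, Dens (fun a b => ¬ ∃ K : ℕ, K0 ≤ K ∧ K ≤ K1 ∧
      (1 / √2 - ε) * √(Real.log (Real.log K)) ≤
        √(K : ℝ) * starDisc (shortCurve (a : ℚ) (b : ℚ)) s K) η := by
  classical
  set k0 : ℕ := ⌈16 / η⌉₊ + 1 with hk0
  have hk0η : 8 / (k0 : ℝ) ≤ η / 2 := by
    have h1 : 16 / η ≤ k0 := by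
      rw [hk0]; push_cast
      linarith [Nat.le_ceil (16 / η)]
    have hk0R : (0 : ℝ) < k0 := by rw [hk0]; positivity
    rw [div_le_iff₀ hη] at h1
    rw [div_le_iff₀ hk0R]
    linarith
  obtain ⟨N, hN⟩ := exists_large (2 * (k0 + 2)) ε hε
  have hs2 : √2 - ε < √(2 * 1) := by rw [mul_one]; linarith
  obtain ⟨K1, hK1⟩ := lil box_fam.neg 1 one_pos le_rfl box_rich (√2 - ε) hs2
    (max (max N K0) 1) (η / 2) (by positivity)
  refine ⟨K1, (hK1.or (dens_common k0 K1 (by omega))).mono ?_ (by linarith)⟩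
  intro a b hnot
  by_contra hcon
  push Not at hcon
  obtain ⟨⟨K, hKlow, hKK1, hS⟩, hgcd⟩ := hcon
  apply hnot
  have hKN : N ≤ K := ((le_max_left _ _).trans (le_max_left _ _)).trans hKlow
  have hKK0 : K0 ≤ K := ((le_max_right _ _).trans (le_max_left _ _)).trans hKlow
  have hK : 1 ≤ K := (le_max_right _ _).trans hKlow
  refine ⟨K, hKK0, hKK1, ?_⟩
  obtain ⟨hL, hc⟩ := hN K hKN
  have hnear := sum_near (shortCurve (a : ℚ) (b : ℚ)) a b rfl K k0 (fun k hk hk1 h =>
    hgcd k hk (by omega) h.1 h.2)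
  have h1 := low_of_sum (shortCurve (a : ℚ) (b : ℚ)) s K hs hK (Real.log (Real.log K))
    (√2 - ε) ε (∑ k ∈ Ico 2 K, sgn k a b) hL (by
      rw [SS_neg] at hS
      exact hS) (hnear.trans hc)
  refine le_trans ?_ h1
  refine mul_le_mul_of_nonneg_right ?_ (Real.sqrt_nonneg _)
  have h2 : 1 / √2 = √2 / 2 := by
    rw [div_eq_div_iff (by positivity) (by norm_num)]
    rw [one_mul, Real.mul_self_sqrt (by norm_num)]
  rw [h2]
  linarith

end Pool.Agent.H13.LIL
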