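import Pool.Agent.H13.LIL.Ball
import Pool.Agent.H13.LIL.BoxLil

/-!
# The typical size of the discrepancy is at least `K^(-1/2)`, for every `K`
-/

namespace Pool.Agent.H13.LIL

open Finset Pool.Agent.H11.STA Filter Topology

lemma dens_one (P : ℤ → ℤ → Prop) : Dens P 1 := by
  refine (dens_of_mean (HasMean.const 1 one_ne_zero) (fun _ _ => zero_le_one)
    (fun _ _ => le_rfl) (P := fun _ _ => True) (fun _ _ _ => le_rfl)).mono
    (fun _ _ _ => trivial) le_rfl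

lemma wbox_ge {k : ℕ} (hk : 2 ≤ k) : 1 / 4 ≤ wbox k := by
  have hp0 : (0 : ℝ) < (Nat.nth Nat.Prime k : ℝ) ^ 2 := by
    have : (0 : ℝ) < Nat.nth Nat.Prime k := by exact_mod_cast NeZero.pos _
    positivity
  unfold wbox
  rw [le_div_iff₀ hp0]
  have := sum_sg_sq (p := Nat.nth Nat.Prime k) (five_le k hk)
  linarith

/-- A sum of signs is small with a small probability. -/
theorem small_sum {f : ℕ → ℤ → ℤ → ℝ} {w : ℕ → ℝ} (hf : SignFam f w) (I : Finset ℕ)
    (hI : ∀ k ∈ I, 2 ≤ k) (W : ℝ) (hW : W ≤ ∑ k ∈ I, w k) (hW0 : 0 < W) (x : ℝ) (hx : 0 ≤ x) :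
    Dens (fun a b => |SS f I a b| ≤ x) ((2 * x + 1) * (5 / √W)) := by
  classical
  have hpt : ∀ v : ℤ, Dens (fun a b => SS f I a b = v) (5 / √W) := by
    intro v
    obtain ⟨P, hP, hle⟩ := point_mass hf I hI W hW hW0 v
    exact (dens_of_mean hP (fun a b => by split_ifs <;> norm_num)
      (fun a b => by split_ifs <;> norm_num) (P := fun a b => SS f I a b = v)
      (fun a b h => by rw [if_pos h])).mono (fun a b h => h) hle
  have hint : ∀ a b, ∃ n : ℤ, SS f I a b = n := by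
    intro a b
    have h1 : ∀ k ∈ I, ∃ n : ℤ, f k a b = n := by
      intro k hk
      rcases hf.val k (hI k hk) a b with e | e | e
      · exact ⟨1, by rw [e]; norm_num⟩
      · exact ⟨-1, by rw [e]; norm_num⟩
      · exact ⟨0, by rw [e]; norm_num⟩
    choose! n hn using h1
    refine ⟨∑ k ∈ I, n k, ?_⟩
    unfold SS
    push_cast
    exact Finset.sum_congr rfl hn
  have h2 := Dens.exists_mem (Finset.Icc (-⌊x⌋) ⌊x⌋) (P := fun v a b => SS f I a b = (v : ℤ))
    (fun v _ => hpt v)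
  refine h2.mono ?_ ?_
  · intro a b h
    obtain ⟨n, hn⟩ := hint a b
    refine ⟨n, ?_, hn⟩
    rw [hn, ← Int.cast_abs] at h
    have h3 : |n| ≤ ⌊x⌋ := Int.le_floor.mpr h
    rw [Finset.mem_Icc]
    exact abs_le.mp h3
  · rw [Finset.sum_const, nsmul_eq_mul]
    refine mul_le_mul_of_nonneg_right ?_ (by positivity)
    rw [Int.card_Icc]
    have h4 : 0 ≤ ⌊x⌋ := Int.floor_nonneg.mpr hx
    have h5 : ((⌊x⌋ + 1 - -⌊x⌋).toNat : ℤ) = 2 * ⌊x⌋ + 1 := by
      rw [Int.toNat_of_nonneg (by omega)]; ring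
    have h6 : ((⌊x⌋ + 1 - -⌊x⌋).toNat : ℝ) = 2 * (⌊x⌋ : ℝ) + 1 := by exact_mod_cast h5
    rw [h6]
    have := Int.floor_le x
    linarith

theorem box_ball (s : ℕ) (hs : 1 ≤ s) (K : ℕ) (hK : 1 ≤ K) (δ : ℝ) (hδ : 0 ≤ δ) :
    Dens (fun a b => √(K : ℝ) * starDisc (shortCurve (a : ℚ) (b : ℚ)) s K < δ)
      (250 * (δ + (K : ℝ) ^ (-(1 / 4) : ℝ))) := by
  classical
  have hKR : (0 : ℝ) < K := by exact_mod_cast hK
  set z : ℝ := (K : ℝ) ^ (-(1 / 4) : ℝ) with hz
  have hz0 : 0 < z := Real.rpow_pos_of_pos hKR _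
  by_cases hbig : 1 ≤ 250 * (δ + z)
  · exact (dens_one _).mono (fun a b _ => trivial) hbig
  push Not at hbig
  have hz1 : z < 1 / 250 := by linarith
  -- `K = z^(-4)`
  set y : ℝ := (K : ℝ) ^ (1 / 4 : ℝ) with hy
  have hy0 : 0 < y := Real.rpow_pos_of_pos hKR _
  have hyz : y * z = 1 := by
    rw [hy, hz, ← Real.rpow_add hKR]; norm_num
  have hy250 : 250 < y := by
    have : y = 1 / z := by field_simp; linarith
    rw [this, lt_div_iff₀ hz0]
    linarith
  have hy4 : y ^ 4 = K := by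
    rw [hy, ← Real.rpow_natCast, ← Real.rpow_mul hKR.le]; norm_num
  have hsqK : √(K : ℝ) = y ^ 2 := by
    rw [← hy4, show y ^ 4 = (y ^ 2) ^ 2 by ring, Real.sqrt_sq (by positivity)]
  have hK16 : (16 : ℝ) ≤ K := by
    rw [← hy4]
    have h1 : (250 : ℝ) ^ 4 ≤ y ^ 4 := pow_le_pow_left₀ (by norm_num) hy250.le 4
    linarith
  set k0 : ℕ := ⌈y⌉₊ with hk0
  have hk0y : y ≤ k0 := Nat.le_ceil _
  have hk0y1 : (k0 : ℝ) ≤ y + 1 := (Nat.ceil_lt_add_one hy0.le).le
  have hk01 : 1 ≤ k0 := Nat.ceil_pos.mpr hy0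
  set x : ℝ := 4 * δ * √(K : ℝ) + 2 * (k0 + 2) with hx
  have hx0 : 0 ≤ x := by positivity
  have hWle : (K : ℝ) / 8 ≤ ∑ k ∈ Ico 2 K, wbox k := by
    have h1 : ∑ k ∈ Ico 2 K, (1 / 4 : ℝ) ≤ ∑ k ∈ Ico 2 K, wbox k :=
      Finset.sum_le_sum (fun k hk => wbox_ge (Finset.mem_Ico.mp hk).1)
    have h2 : ∑ k ∈ Ico 2 K, (1 / 4 : ℝ) = (K - 2) / 4 := by
      rw [Finset.sum_const, Nat.card_Ico, nsmul_eq_mul, Nat.cast_sub (by
        have : (16 : ℕ) ≤ K := by exact_mod_cast hK16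
        omega)]
      push_cast; ring
    linarith
  have h1 := small_sum box_fam (Ico 2 K) (fun k hk => (Finset.mem_Ico.mp hk).1) (K / 8) hWle
    (by positivity) x hx0
  refine (h1.or (dens_common k0 K hk01)).mono ?_ ?_
  · intro a b hlt
    by_contra hcon
    push Not at hcon
    obtain ⟨hS, hgcd⟩ := hcon
    have h2 := sign_sum_le (shortCurve (a : ℚ) (b : ℚ)) s K hs hK
    have h3 := sum_near (shortCurve (a : ℚ) (b : ℚ)) a b rfl K k0
      (fun k hk hk1 h => hgcd k hk hk1 h.1 h.2)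
    have h4 : |SS sgn (Ico 2 K) a b| ≤ 4 * K * starDisc (shortCurve (a : ℚ) (b : ℚ)) s K +
        2 * (k0 + 2) := by
      have h5 : SS sgn (Ico 2 K) a b = ∑ k ∈ range K, sg (angle (shortCurve (a : ℚ) (b : ℚ)) k) -
        (∑ k ∈ range K, sg (angle (shortCurve (a : ℚ) (b : ℚ)) k) - ∑ k ∈ Ico 2 K, sgn k a b) := by
        unfold SS; ring
      rw [h5]
      refine (abs_sub _ _).trans ?_
      linarith
    have h6 : 4 * K * starDisc (shortCurve (a : ℚ) (b : ℚ)) s K ≤ 4 * δ * √(K : ℝ) := by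
      have h7 : √(K : ℝ) * √(K : ℝ) = K := Real.mul_self_sqrt hKR.le
      have h8 : 0 < √(K : ℝ) := Real.sqrt_pos.mpr hKR
      calc 4 * K * starDisc (shortCurve (a : ℚ) (b : ℚ)) s K
          = 4 * (√(K : ℝ) * √(K : ℝ)) * starDisc (shortCurve (a : ℚ) (b : ℚ)) s K := by rw [h7]
        _ = 4 * √(K : ℝ) * (√(K : ℝ) * starDisc (shortCurve (a : ℚ) (b : ℚ)) s K) := by ring
        _ ≤ 4 * √(K : ℝ) * δ := mul_le_mul_of_nonneg_left hlt.le (by positivity)
        _ = 4 * δ * √(K : ℝ) := by ring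
    linarith
  · -- the numbers
    have h2 : √((K : ℝ) / 8) = y ^ 2 / √8 := by rw [Real.sqrt_div hKR.le, hsqK]
    have h3 : √(8 : ℝ) ≤ 2.84 := by
      rw [Real.sqrt_le_left (by norm_num)]; norm_num
    have h4 : 5 / √((K : ℝ) / 8) ≤ 14.2 / y ^ 2 := by
      rw [h2, div_div_eq_mul_div]
      apply div_le_div_of_nonneg_right _ (by positivity)
      linarith
    have h5 : 2 * x + 1 ≤ 8 * δ * y ^ 2 + 17 * y := by
      rw [hx, hsqK]; nlinarith
    have h6 : (2 * x + 1) * (5 / √((K : ℝ) / 8)) ≤ (8 * δ * y ^ 2 + 17 * y) * (14.2 / y ^ 2) :=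
      mul_le_mul h5 h4 (by positivity) (by positivity)
    have h7 : (8 * δ * y ^ 2 + 17 * y) * (14.2 / y ^ 2) = 113.6 * δ + 241.4 * z := by
      have : z = 1 / y := by field_simp; linarith
      rw [this]; field_simp; ring
    have h8 : 8 / (k0 : ℝ) ≤ 8 * z := by
      have : z = 1 / y := by field_simp; linarith
      rw [this, mul_one_div]
      exact div_le_div_of_nonneg_left (by norm_num) hy0 hk0y
    rw [h7] at h6
    linarith

/-- Comparison of filtered sets, for any decidability instances. -/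
lemma card_filter_any {α : Type*} {S : Finset α} {p q : α → Prop} {hp : DecidablePred p}
    {hq : DecidablePred q} (h : ∀ x ∈ S, p x → q x) :
    (@Finset.filter α p hp S).card ≤ (@Finset.filter α q hq S).card := by
  apply Finset.card_le_card
  intro x hx
  rw [Finset.mem_filter] at hx ⊢
  exact ⟨hx.1, h x hx.1 hx.2⟩

end Pool.Agent.H13.LIL
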