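import Mathlib

/-!
# A lower bound for the `n`-th prime
-/

namespace Pool.Agent.H13.LIL

open Nat

lemma nth_prime_ge (m : ℕ) :
    ((m : ℝ) + 1) * Real.log ((m : ℝ) + 1) / 4 ≤ (Nat.nth Nat.Prime m : ℝ) := by
  set p := Nat.nth Nat.Prime m with hp
  have hpp : p.Prime := Nat.prime_nth_prime m
  have hcount : Nat.primeCounting p = m + 1 := by
    rw [Nat.primeCounting, Nat.primeCounting', hp, Nat.count_nth_succ_of_infinite
      Nat.infinite_setOfPred_prime]
  have hp2 : (2 : ℝ) ≤ p := by exact_mod_cast hpp.two_le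
  have hmp : (m : ℝ) + 1 ≤ p := by
    have h1 : m < p := by
      have := Nat.add_two_le_nth_prime m
      omega
    exact_mod_cast h1
  have h := Chebyshev.pi_le_log4_mul_div (x := (p : ℝ)) (by linarith)
  rw [Nat.floor_natCast, hcount] at h
  have hlogp : 0 < Real.log p := Real.log_pos (by linarith)
  have hlogs : Real.log √(p : ℝ) = Real.log p / 2 := Real.log_sqrt (by linarith)
  rw [hlogs] at h
  have hs : √(p : ℝ) * Real.log p ≤ p := by
    set r := √(p : ℝ) with hr
    have hr2 : r * r = p := Real.mul_self_sqrt (by linarith)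
    have hr0 : 0 < r := Real.sqrt_pos.mpr (by linarith)
    have h1 : Real.log p = 2 * Real.log r := by rw [hlogs]; ring
    have h2 : Real.log r ≤ r / 2 := by
      have h3 := Real.log_le_sub_one_of_pos (x := r / 2) (by positivity)
      rw [Real.log_div hr0.ne' (by norm_num)] at h3
      have := Real.log_two_lt_d9
      linarith
    calc r * Real.log p = r * (2 * Real.log r) := by rw [h1]
      _ ≤ r * (2 * (r / 2)) := mul_le_mul_of_nonneg_left (by linarith) hr0.le
      _ = r * r := by ring
      _ = p := hr2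
  have hlog4 : Real.log 4 ≤ 1.4 := by
    have : Real.log 4 = 2 * Real.log 2 := by
      rw [show (4 : ℝ) = 2 ^ 2 by norm_num, Real.log_pow]; norm_num
    rw [this]
    have := Real.log_two_lt_d9
    linarith
  have h3 : ((m : ℝ) + 1) * Real.log p ≤ 4 * p := by
    have h4 : ((m + 1 : ℕ) : ℝ) * Real.log p ≤
        (Real.log 4 * p / (Real.log p / 2) + √(p : ℝ)) * Real.log p :=
      mul_le_mul_of_nonneg_right h hlogp.le
    have h5 : (Real.log 4 * p / (Real.log p / 2) + √(p : ℝ)) * Real.log p =
        2 * Real.log 4 * p + √(p : ℝ) * Real.log p := by field_simp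
    rw [h5] at h4
    push_cast at h4
    have h6 : 2 * Real.log 4 * p ≤ 2.8 * p := by nlinarith
    linarith
  have h7 : Real.log ((m : ℝ) + 1) ≤ Real.log p :=
    Real.log_le_log (by positivity) hmp
  have h8 : ((m : ℝ) + 1) * Real.log ((m : ℝ) + 1) ≤ ((m : ℝ) + 1) * Real.log p :=
    mul_le_mul_of_nonneg_left h7 (by positivity)
  linarith

end Pool.Agent.H13.LIL
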