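import Pool.Agent.H13.LIL.Defs

/-!
# Upper densities of sets of pairs
-/

namespace Pool.Agent.H13.LIL

open Finset Pool.Agent.H11.STA

lemma dens_of_mean {F : ℤ → ℤ → ℝ} {m : ℕ} {μ : ℝ} (hF : HasMean F m μ)
    (h0 : ∀ a b, 0 ≤ F a b) (h1 : ∀ a b, F a b ≤ 1) {P : ℤ → ℤ → Prop}
    (hP : ∀ a b, P a b → 1 ≤ F a b) : Dens P μ := by
  classical
  intro ε hε
  refine ⟨⌈2 * m / ε⌉₊ + 1, fun A B X Y hX hY => ?_⟩
  have hX' : 2 * m / ε ≤ (X : ℝ) := by
    have h2 : ((⌈2 * m / ε⌉₊ + 1 : ℕ) : ℝ) ≤ X := by exact_mod_cast hX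
    push_cast at h2
    linarith [Nat.le_ceil (2 * m / ε)]
  have hY' : 2 * m / ε ≤ (Y : ℝ) := by
    have h2 : ((⌈2 * m / ε⌉₊ + 1 : ℕ) : ℝ) ≤ Y := by exact_mod_cast hY
    push_cast at h2
    linarith [Nat.le_ceil (2 * m / ε)]
  rw [div_le_iff₀ hε] at hX' hY'
  have hX0 : (0 : ℝ) ≤ X := Nat.cast_nonneg _
  have hY0 : (0 : ℝ) ≤ Y := Nat.cast_nonneg _
  have h3 : (((curveBox A B X Y).filter (fun w => P w.1 w.2)).card : ℝ) ≤
      ∑ a ∈ Ico A (A + X), ∑ b ∈ Ico B (B + Y), F a b := by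
    rw [← Finset.sum_product' (Ico A (A + X)) (Ico B (B + Y)) (fun a b => F a b)]
    change _ ≤ ∑ x ∈ curveBox A B X Y, F x.1 x.2
    rw [Finset.card_filter]
    push_cast
    refine Finset.sum_le_sum (fun w _ => ?_)
    split_ifs with h
    · exact hP _ _ h
    · exact h0 _ _
  refine (h3.trans (hF.box h0 h1 A B X Y)).trans ?_
  have e1 : 2 * (m : ℝ) * Y ≤ X * ε * Y := mul_le_mul_of_nonneg_right hX' hY0
  have e2 : 2 * (m : ℝ) * X ≤ Y * ε * X := mul_le_mul_of_nonneg_right hY' hX0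
  nlinarith

lemma Dens.mono {P Q : ℤ → ℤ → Prop} {μ ν : ℝ} (h : Dens P μ) (hQ : ∀ a b, Q a b → P a b)
    (hμ : μ ≤ ν) : Dens Q ν := by
  classical
  intro ε hε
  obtain ⟨X0, hX0⟩ := h ε hε
  refine ⟨X0, fun A B X Y hX hY => ?_⟩
  have h1 := hX0 A B X Y hX hY
  have h2 : ((curveBox A B X Y).filter (fun w => Q w.1 w.2)).card ≤
      ((curveBox A B X Y).filter (fun w => P w.1 w.2)).card := by
    apply Finset.card_le_card
    intro w hw
    rw [Finset.mem_filter] at hw ⊢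
    exact ⟨hw.1, hQ _ _ hw.2⟩
  have h3 : (((curveBox A B X Y).filter (fun w => Q w.1 w.2)).card : ℝ) ≤
      (((curveBox A B X Y).filter (fun w => P w.1 w.2)).card : ℝ) := by exact_mod_cast h2
  have h4 : (0 : ℝ) ≤ (X : ℝ) * Y := by positivity
  have h1' : (((curveBox A B X Y).filter (fun w => P w.1 w.2)).card : ℝ) ≤ (μ + ε) * (X * Y) := by
    convert h1
  have h5 : (μ + ε) * ((X : ℝ) * Y) ≤ (ν + ε) * (X * Y) :=
    mul_le_mul_of_nonneg_right (by linarith) h4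
  convert h3.trans (h1'.trans h5)

lemma Dens.or {P Q : ℤ → ℤ → Prop} {μ ν : ℝ} (h : Dens P μ) (h' : Dens Q ν) :
    Dens (fun a b => P a b ∨ Q a b) (μ + ν) := by
  classical
  intro ε hε
  obtain ⟨X0, hX0⟩ := h (ε / 2) (by linarith)
  obtain ⟨X1, hX1⟩ := h' (ε / 2) (by linarith)
  refine ⟨max X0 X1, fun A B X Y hX hY => ?_⟩
  have h1 := hX0 A B X Y ((le_max_left _ _).trans hX) ((le_max_left _ _).trans hY)
  have h2 := hX1 A B X Y ((le_max_right _ _).trans hX) ((le_max_right _ _).trans hY)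
  have h1' : (((curveBox A B X Y).filter (fun w => P w.1 w.2)).card : ℝ) ≤
    (μ + ε / 2) * (X * Y) := by convert h1
  have h2' : (((curveBox A B X Y).filter (fun w => Q w.1 w.2)).card : ℝ) ≤
    (ν + ε / 2) * (X * Y) := by convert h2
  have h3 : ((curveBox A B X Y).filter (fun w => P w.1 w.2 ∨ Q w.1 w.2)).card ≤
      ((curveBox A B X Y).filter (fun w => P w.1 w.2)).card +
      ((curveBox A B X Y).filter (fun w => Q w.1 w.2)).card := by
    rw [Finset.filter_or]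
    exact Finset.card_union_le _ _
  have h4 : (((curveBox A B X Y).filter (fun w => P w.1 w.2 ∨ Q w.1 w.2)).card : ℝ) ≤
      (((curveBox A B X Y).filter (fun w => P w.1 w.2)).card : ℝ) +
      (((curveBox A B X Y).filter (fun w => Q w.1 w.2)).card : ℝ) := by exact_mod_cast h3
  have h5 : (((curveBox A B X Y).filter (fun w => P w.1 w.2 ∨ Q w.1 w.2)).card : ℝ) ≤
      (μ + ν + ε) * (X * Y) := by nlinarith
  convert h5

lemma dens_false : Dens (fun _ _ => False) 0 := by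
  classical
  intro ε hε
  refine ⟨0, fun A B X Y _ _ => ?_⟩
  have : (0 : ℝ) ≤ (0 + ε) * ((X : ℝ) * Y) := by positivity
  simpa using this

lemma Dens.exists_mem {ι : Type*} [DecidableEq ι] (J : Finset ι) {P : ι → ℤ → ℤ → Prop}
    {μ : ι → ℝ} (h : ∀ j ∈ J, Dens (P j) (μ j)) :
    Dens (fun a b => ∃ j ∈ J, P j a b) (∑ j ∈ J, μ j) := by
  induction J using Finset.induction_on with
  | empty => exact dens_false.mono (fun a b h => by simp at h) (by simp)
  | insert j J hj ih =>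
    rw [Finset.sum_insert hj]
    refine ((h j (Finset.mem_insert_self _ _)).or
      (ih (fun i hi => h i (Finset.mem_insert_of_mem hi)))).mono ?_ le_rfl
    rintro a b ⟨i, hi, hP⟩
    rcases Finset.mem_insert.mp hi with rfl | hi
    · exact Or.inl hP
    · exact Or.inr ⟨i, hi, hP⟩

/-- Few pairs are both divisible by one of the primes with index in `[k0, K1)`. -/
lemma dens_common (k0 K1 : ℕ) (hk0 : 1 ≤ k0) :
    Dens (fun a b => ∃ k, k0 ≤ k ∧ k < K1 ∧ ((a : ℤ) : ZMod (Nat.nth Nat.Prime k)) = 0 ∧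
      ((b : ℤ) : ZMod (Nat.nth Nat.Prime k)) = 0) (8 / k0) := by
  classical
  intro ε hε
  refine ⟨Nat.nth Nat.Prime K1, fun A B X Y hX hY => ?_⟩
  have h1 := card_common A B X Y k0 hk0
  have h2 : ((curveBox A B X Y).filter (fun w => ∃ k, k0 ≤ k ∧ k < K1 ∧
      ((w.1 : ℤ) : ZMod (Nat.nth Nat.Prime k)) = 0 ∧
      ((w.2 : ℤ) : ZMod (Nat.nth Nat.Prime k)) = 0)).card ≤
      ((curveBox A B X Y).filter (fun w => ∃ k, k0 ≤ k ∧ Nat.nth Nat.Prime k ≤ min X Y ∧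
      ((w.1 : ℤ) : ZMod (Nat.nth Nat.Prime k)) = 0 ∧
      ((w.2 : ℤ) : ZMod (Nat.nth Nat.Prime k)) = 0)).card := by
    apply Finset.card_le_card
    intro w hw
    rw [Finset.mem_filter] at hw ⊢
    obtain ⟨hw1, k, hk, hk1, ha⟩ := hw
    refine ⟨hw1, k, hk, ?_, ha⟩
    have h3 : Nat.nth Nat.Prime k ≤ Nat.nth Nat.Prime K1 :=
      Nat.nth_monotone Nat.infinite_setOfPred_prime hk1.le
    exact le_min (h3.trans hX) (h3.trans hY)
  have h3 : (((curveBox A B X Y).filter (fun w => ∃ k, k0 ≤ k ∧ k < K1 ∧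
      ((w.1 : ℤ) : ZMod (Nat.nth Nat.Prime k)) = 0 ∧
      ((w.2 : ℤ) : ZMod (Nat.nth Nat.Prime k)) = 0)).card : ℝ) ≤ 8 / k0 * (X * Y) := by
    have h1' : (((curveBox A B X Y).filter (fun w => ∃ k, k0 ≤ k ∧
      Nat.nth Nat.Prime k ≤ min X Y ∧ ((w.1 : ℤ) : ZMod (Nat.nth Nat.Prime k)) = 0 ∧
      ((w.2 : ℤ) : ZMod (Nat.nth Nat.Prime k)) = 0)).card : ℝ) ≤ 8 / k0 * (X * Y) := by
      convert h1
    refine le_trans ?_ h1'
    exact_mod_cast h2
  have h4 : (0 : ℝ) ≤ (X : ℝ) * Y := by positivity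
  have h5 : (((curveBox A B X Y).filter (fun w => ∃ k, k0 ≤ k ∧ k < K1 ∧
      ((w.1 : ℤ) : ZMod (Nat.nth Nat.Prime k)) = 0 ∧
      ((w.2 : ℤ) : ZMod (Nat.nth Nat.Prime k)) = 0)).card : ℝ) ≤ (8 / k0 + ε) * (X * Y) := by
    nlinarith
  convert h5

/-- Densities of sets of integers. -/
lemma Dens.first {P : ℤ → Prop} {μ : ℝ} (h : Dens (fun a _ => P a) μ) (ε : ℝ) (hε : 0 < ε) :
    ∃ X0 : ℕ, ∀ (A : ℤ) (X : ℕ), X0 ≤ X →
      open Classical in
      (((Ico A (A + X)).filter (fun d => P d)).card : ℝ) ≤ (μ + ε) * X := by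
  classical
  obtain ⟨X0, hX0⟩ := h ε hε
  refine ⟨X0 + 1, fun A X hX => ?_⟩
  have h1 := hX0 A 0 X X (by omega) (by omega)
  have h1' : (((curveBox A 0 X X).filter (fun w => P w.1)).card : ℝ) ≤
    (μ + ε) * (X * X) := by convert h1
  have hXR : (0 : ℝ) < X := by
    have : 0 < X := by omega
    exact_mod_cast this
  have h2 : ((Ico A (A + X)).filter (fun d => P d)) ×ˢ Ico (0 : ℤ) (0 + X) ⊆
      (curveBox A 0 X X).filter (fun w => P w.1) := by
    intro w hw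
    simp only [Finset.mem_product, Finset.mem_filter] at hw
    rw [Finset.mem_filter]
    refine ⟨?_, hw.1.2⟩
    unfold curveBox
    exact Finset.mem_product.mpr ⟨hw.1.1, hw.2⟩
  have h3 := Finset.card_le_card h2
  rw [Finset.card_product, Int.card_Ico] at h3
  have h4 : (0 + (X : ℤ) - 0).toNat = X := by simp
  rw [h4] at h3
  have h5 : (((Ico A (A + X)).filter (fun d => P d)).card : ℝ) * X ≤
      (((curveBox A 0 X X).filter (fun w => P w.1)).card : ℝ) := by exact_mod_cast h3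
  have h6 : (((Ico A (A + X)).filter (fun d => P d)).card : ℝ) * X ≤ ((μ + ε) * X) * X := by
    linarith
  have h7 := le_of_mul_le_mul_right h6 hXR
  convert h7

end Pool.Agent.H13.LIL
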