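import Pool.Agent.H13.LIL.Num
import Pool.Agent.H13.LIL.Dens

/-!
# The law of the iterated logarithm, lower half, for families of signs
-/

namespace Pool.Agent.H13.LIL

open Finset Pool.Agent.H11.STA

variable {f : ℕ → ℤ → ℤ → ℝ} {w : ℕ → ℝ}

theorem lil_blocks (hf : SignFam f w) (q : ℕ) (hq : 2 ≤ q) (ρ θ : ℝ) (hρ : 0 < ρ) (hρ1 : ρ ≤ 1)
    (hθ : 0 < θ) (hθ1 : θ ≤ 1 / 10) (J : Finset ℕ) (ν : ℕ → ℕ)
    (hJ : ∀ j ∈ J, 2 ≤ j) (hsep : ∀ j ∈ J, ∀ j' ∈ J, j < j' → j + 2 ≤ j')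
    (hν : ∀ j ∈ J, q ^ j ≤ ν j ∧ ν j < q ^ (j + 1))
    (hW : ∀ j ∈ J, ρ * ν j ≤ ∑ k ∈ Ico (q ^ (j - 1)) (ν j), w k)
    (hL : ∀ j ∈ J, 20 / (ρ * θ ^ 2) ≤ Real.log (Real.log (ν j)) ∧
      Real.log (Real.log (ν j)) ≤ θ ^ 2 / 150 * (ρ * ν j)) :
    Dens (fun a b => ∀ j ∈ J, SS f (Ico 2 (ν j)) a b <
      (√(2 * (1 - 6 * θ) * ρ) - 2 / √(q : ℝ)) * √(ν j * Real.log (Real.log (ν j))))
      (Real.exp (- ∑ j ∈ J, (Real.log (ν j))⁻¹) + ∑ j ∈ J, (Real.log (ν j))⁻¹ ^ 2) := by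
  classical
  set L : ℕ → ℝ := fun j => Real.log (Real.log (ν j)) with hLdef
  set I : ℕ → Finset ℕ := fun j => Ico (q ^ (j - 1)) (ν j) with hIdef
  set W : ℕ → ℝ := fun j => ∑ k ∈ I j, w k with hWdef
  have hqj : ∀ j ∈ J, 2 ≤ q ^ (j - 1) := fun j hj => by
    have h2 := hJ j hj
    calc 2 ≤ q := hq
      _ = q ^ 1 := (pow_one q).symm
      _ ≤ q ^ (j - 1) := Nat.pow_le_pow_right (by omega) (by omega)
  have hI2 : ∀ j ∈ J, ∀ k ∈ I j, 2 ≤ k := fun j hj k hk => by
    rw [hIdef, Finset.mem_Ico] at hk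
    exact (hqj j hj).trans hk.1
  have hρθ : 0 < 20 / (ρ * θ ^ 2) := by positivity
  have hLpos : ∀ j ∈ J, 0 < L j := fun j hj => hρθ.trans_le (hL j hj).1
  have hcard : ∀ j ∈ J, ((I j).card : ℝ) ≤ ν j := fun j hj => by
    rw [hIdef]
    simp only [Nat.card_Ico]
    exact_mod_cast Nat.sub_le _ _
  have hlogpos : ∀ j ∈ J, 0 < Real.log (ν j) := fun j hj => by
    have h1 : 4 ≤ q ^ j := by
      have h2 := hJ j hj
      calc 4 = 2 ^ 2 := by norm_num
        _ ≤ q ^ 2 := Nat.pow_le_pow_left hq 2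
        _ ≤ q ^ j := Nat.pow_le_pow_right (by omega) h2
    apply Real.log_pos
    have h2 : (4 : ℝ) ≤ ν j := by exact_mod_cast h1.trans (hν j hj).1
    linarith
  have hexpL : ∀ j ∈ J, Real.exp (-(L j)) = (Real.log (ν j))⁻¹ := fun j hj => by
    rw [Real.exp_neg, hLdef]
    simp only
    rw [Real.exp_log (hlogpos j hj)]
  -- the blocks
  have hbig : ∀ j ∈ J, ∃ P : ℝ, HasMean (fun a b =>
      if √(2 * (1 - 6 * θ) * W j * L j) ≤ SS f (I j) a b then (1 : ℝ) else 0) (setMod (I j)) P ∧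
      Real.exp (-(L j)) ≤ P := by
    intro j hj
    refine big_prob hf ρ θ hρ hρ1 hθ hθ1 (I j) (hI2 j hj) (L j) (W j) rfl ?_ (hL j hj).1 ?_
    · exact (mul_le_mul_of_nonneg_left (hcard j hj) hρ.le).trans (hW j hj)
    · exact (hL j hj).2.trans (mul_le_mul_of_nonneg_left (hW j hj) (by positivity))
  choose! P hP using hbig
  have hP1 : ∀ j ∈ J, P j ≤ 1 := fun j hj =>
    (hP j hj).1.mono (HasMean.const 1 (setMod_ne_zero _)) (fun a b => by split_ifs <;> norm_num)
  have hdisj : ∀ j ∈ J, ∀ j' ∈ J, j ≠ j' → Disjoint (I j) (I j') := by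
    have key : ∀ j ∈ J, ∀ j' ∈ J, j < j' → Disjoint (I j) (I j') := by
      intro j hj j' hj' hlt
      rw [Finset.disjoint_left]
      intro k hk hk'
      rw [hIdef, Finset.mem_Ico] at hk hk'
      have hs := hsep j hj j' hj' hlt
      have h1 : q ^ (j + 1) ≤ q ^ (j' - 1) := Nat.pow_le_pow_right (by omega) (by omega)
      have h2 := (hν j hj).2
      omega
    intro j hj j' hj' hne
    rcases lt_or_gt_of_ne hne with h | h
    · exact key j hj j' hj' h
    · exact (key j' hj' j hj h).symm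
  have hprod := HasMean.prod J (fun j a b => 1 -
      if √(2 * (1 - 6 * θ) * W j * L j) ≤ SS f (I j) a b then (1 : ℝ) else 0)
    (fun j => setMod (I j)) (fun j => 1 - P j) (fun j hj => by
      have h := (HasMean.const 1 (setMod_ne_zero (I j))).add ((hP j hj).1.smul (-1))
      rw [show (1 : ℝ) + -1 * P j = 1 - P j by ring] at h
      exact h.congr (fun a b => by ring))
    (fun j hj j' hj' hne => setMod_coprime (hdisj j hj j' hj' hne))
  have hmu : ∏ j ∈ J, (1 - P j) ≤ Real.exp (- ∑ j ∈ J, (Real.log (ν j))⁻¹) := by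
    rw [← Finset.sum_neg_distrib, Real.exp_sum]
    refine Finset.prod_le_prod (fun j hj => by linarith [hP1 j hj]) (fun j hj => ?_)
    have h1 := (hP j hj).2
    rw [hexpL j hj] at h1
    have h2 := Real.add_one_le_exp (-(Real.log (ν j))⁻¹)
    linarith
  have hD1 : Dens (fun a b => ∀ j ∈ J, ¬ √(2 * (1 - 6 * θ) * W j * L j) ≤ SS f (I j) a b)
      (Real.exp (- ∑ j ∈ J, (Real.log (ν j))⁻¹)) := by
    refine (dens_of_mean hprod (fun a b => ?_) (fun a b => ?_) (fun a b h => ?_)).mono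
      (P := fun a b => ∀ j ∈ J, ¬ √(2 * (1 - 6 * θ) * W j * L j) ≤ SS f (I j) a b)
      (fun a b h => h) hmu
    · exact Finset.prod_nonneg (fun j _ => by split_ifs <;> norm_num)
    · exact Finset.prod_le_one (fun j _ => by split_ifs <;> norm_num)
        (fun j _ => by split_ifs <;> norm_num)
    · have : ∏ j ∈ J, (1 - if √(2 * (1 - 6 * θ) * W j * L j) ≤ SS f (I j) a b then (1 : ℝ)
          else 0) = 1 := Finset.prod_eq_one (fun j hj => by rw [if_neg (h j hj), sub_zero])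
      rw [this]
  -- the initial segments
  have hD2 : ∀ j ∈ J, Dens (fun a b => 2 * √(((q ^ (j - 1) : ℕ) : ℝ) * L j) ≤
      - SS f (Ico 2 (q ^ (j - 1))) a b) ((Real.log (ν j))⁻¹ ^ 2) := by
    intro j hj
    set N : ℝ := ((q ^ (j - 1) : ℕ) : ℝ) with hN
    have hN0 : 0 < N := by
      have h1 : (2 : ℝ) ≤ N := by rw [hN]; exact_mod_cast hqj j hj
      linarith
    set t := 2 * √(N * L j) with ht
    have hsq : √(N * L j) ^ 2 = N * L j := Real.sq_sqrt (mul_pos hN0 (hLpos j hj)).le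
    have ht0 : 0 ≤ t := by positivity
    have ht2 : t ^ 2 = 4 * (N * L j) := by rw [ht, mul_pow, hsq]; ring
    obtain ⟨P', hP', hle⟩ := tail_upper hf.neg (Ico 2 (q ^ (j - 1)))
      (fun k hk => (Finset.mem_Ico.mp hk).1) (t / N) t (by positivity)
    have hP'' : P' ≤ (Real.log (ν j))⁻¹ ^ 2 := by
      refine hle.trans ?_
      rw [← hexpL j hj, ← Real.exp_nat_mul]
      apply Real.exp_le_exp.mpr
      have h1 : ((Ico 2 (q ^ (j - 1))).card : ℝ) ≤ N := by
        rw [Nat.card_Ico, hN]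
        exact_mod_cast Nat.sub_le _ _
      have h2 : (t / N) ^ 2 / 2 * ((Ico 2 (q ^ (j - 1))).card : ℝ) ≤ (t / N) ^ 2 / 2 * N :=
        mul_le_mul_of_nonneg_left h1 (by positivity)
      have h3 : (t / N) ^ 2 / 2 * N - t / N * t = - (t ^ 2 / (2 * N)) := by
        field_simp; ring
      have h4 : t ^ 2 / (2 * N) = 2 * L j := by
        rw [ht2]; field_simp; ring
      push_cast
      linarith
    refine (dens_of_mean hP' (fun a b => by split_ifs <;> norm_num)
      (fun a b => by split_ifs <;> norm_num) (P := fun a b => t ≤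
      - SS f (Ico 2 (q ^ (j - 1))) a b) (fun a b h => ?_)).mono (fun a b h => h) hP''
    rw [← SS_neg] at h
    rw [if_pos h]
  refine (hD1.or (Dens.exists_mem J hD2)).mono ?_ le_rfl
  intro a b hall
  by_cases hT : ∀ j ∈ J, ¬ √(2 * (1 - 6 * θ) * W j * L j) ≤ SS f (I j) a b
  · exact Or.inl hT
  · right
    push Not at hT
    obtain ⟨j, hj, hTj⟩ := hT
    refine ⟨j, hj, ?_⟩
    by_contra hU
    push Not at hU
    have h1 := hall j hj
    have hq1 : q ^ (j - 1) ≤ ν j :=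
      (Nat.pow_le_pow_right (by omega) (by omega)).trans (hν j hj).1
    have hsplit : SS f (Ico 2 (ν j)) a b = SS f (Ico 2 (q ^ (j - 1))) a b + SS f (I j) a b := by
      unfold SS
      rw [hIdef]
      exact (Finset.sum_Ico_consecutive (fun k => f k a b) (hqj j hj) hq1).symm
    have hLj := hLpos j hj
    have hνpos : (0 : ℝ) < ν j := by
      have h9 : 0 < q ^ j := Nat.pow_pos (by omega)
      exact_mod_cast h9.trans_le (hν j hj).1
    have h2 : √(2 * (1 - 6 * θ) * ρ) * √(ν j * L j) ≤ √(2 * (1 - 6 * θ) * W j * L j) := by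
      rw [← Real.sqrt_mul (by have : 0 ≤ 1 - 6 * θ := by linarith
                              positivity)]
      apply Real.sqrt_le_sqrt
      have h3 : 0 ≤ 2 * (1 - 6 * θ) * L j := by
        have : 0 ≤ 1 - 6 * θ := by linarith
        positivity
      have h4 := mul_le_mul_of_nonneg_left (hW j hj) h3
      calc 2 * (1 - 6 * θ) * ρ * (ν j * L j) = 2 * (1 - 6 * θ) * L j * (ρ * ν j) := by ring
        _ ≤ 2 * (1 - 6 * θ) * L j * W j := h4
        _ = 2 * (1 - 6 * θ) * W j * L j := by ring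
    have hqR : (0 : ℝ) < q := by exact_mod_cast (by omega : 0 < q)
    have h5 : 2 * √(((q ^ (j - 1) : ℕ) : ℝ) * L j) ≤ 2 / √(q : ℝ) * √(ν j * L j) := by
      have h6 : ((q ^ (j - 1) : ℕ) : ℝ) ≤ ν j / q := by
        rw [le_div_iff₀ hqR]
        have h7 : q ^ (j - 1) * q = q ^ j := by
          rw [← pow_succ]
          congr 1
          have := hJ j hj
          omega
        have h8 : q ^ (j - 1) * q ≤ ν j := by rw [h7]; exact (hν j hj).1
        exact_mod_cast h8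
      have h7 : √(((q ^ (j - 1) : ℕ) : ℝ) * L j) ≤ √(ν j * L j) / √(q : ℝ) := by
        rw [← Real.sqrt_div (by positivity)]
        apply Real.sqrt_le_sqrt
        calc ((q ^ (j - 1) : ℕ) : ℝ) * L j ≤ ν j / q * L j :=
              mul_le_mul_of_nonneg_right h6 hLj.le
          _ = ν j * L j / q := by ring
      calc 2 * √(((q ^ (j - 1) : ℕ) : ℝ) * L j) ≤ 2 * (√(ν j * L j) / √(q : ℝ)) := by linarith
        _ = 2 / √(q : ℝ) * √(ν j * L j) := by ring
    rw [hsplit] at h1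
    have h8 : (√(2 * (1 - 6 * θ) * ρ) - 2 / √(q : ℝ)) * √(ν j * L j) =
        √(2 * (1 - 6 * θ) * ρ) * √(ν j * L j) - 2 / √(q : ℝ) * √(ν j * L j) := by ring
    change SS f (Ico 2 (q ^ (j - 1))) a b + SS f (I j) a b <
      (√(2 * (1 - 6 * θ) * ρ) - 2 / √(q : ℝ)) * √(ν j * L j) at h1
    rw [h8] at h1
    linarith

end Pool.Agent.H13.LIL
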