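import Pool.Agent.H11.STA.Scale
import Pool.Agent.H11.STA.TwistMain

/-!
# Families of independent symmetric signs
-/

namespace Pool.Agent.H13.LIL

open Finset Pool.Agent.H11.STA

/-- A family of signs `f k` (values `1`, `-1`, `0`), periodic modulo the `(k+1)`-st prime, with mean
zero and mean square `w k`. -/
structure SignFam (f : ℕ → ℤ → ℤ → ℝ) (w : ℕ → ℝ) : Prop where
  val : ∀ k, 2 ≤ k → ∀ a b, f k a b = 1 ∨ f k a b = -1 ∨ f k a b = 0
  m1 : ∀ k, 2 ≤ k → HasMean (f k) (Nat.nth Nat.Prime k) 0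
  m2 : ∀ k, 2 ≤ k → HasMean (fun a b => f k a b ^ 2) (Nat.nth Nat.Prime k) (w k)

/-- The sum of the signs over a set of primes. -/
noncomputable def SS (f : ℕ → ℤ → ℤ → ℝ) (I : Finset ℕ) (a b : ℤ) : ℝ := ∑ k ∈ I, f k a b

lemma SignFam.w_nonneg {f : ℕ → ℤ → ℤ → ℝ} {w : ℕ → ℝ} (h : SignFam f w) {k : ℕ} (hk : 2 ≤ k) :
    0 ≤ w k :=
  (HasMean.const 0 (NeZero.ne _)).mono (h.m2 k hk) (fun _ _ => sq_nonneg _)

lemma SignFam.w_le_one {f : ℕ → ℤ → ℤ → ℝ} {w : ℕ → ℝ} (h : SignFam f w) {k : ℕ} (hk : 2 ≤ k) :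
    w k ≤ 1 :=
  (h.m2 k hk).mono (HasMean.const 1 (NeZero.ne _)) (fun a b => by
    rcases h.val k hk a b with e | e | e <;> rw [e] <;> norm_num)

lemma SignFam.neg {f : ℕ → ℤ → ℤ → ℝ} {w : ℕ → ℝ} (h : SignFam f w) :
    SignFam (fun k a b => - f k a b) w where
  val k hk a b := by
    rcases h.val k hk a b with e | e | e
    · exact Or.inr (Or.inl (by rw [e]))
    · exact Or.inl (by rw [e]; norm_num)
    · exact Or.inr (Or.inr (by rw [e]; norm_num))
  m1 k hk := by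
    have := (h.m1 k hk).smul (-1)
    rw [mul_zero] at this
    exact this.congr (fun a b => by ring)
  m2 k hk := (h.m2 k hk).congr (fun a b => by ring)

lemma SS_neg (f : ℕ → ℤ → ℤ → ℝ) (I : Finset ℕ) (a b : ℤ) :
    SS (fun k a b => - f k a b) I a b = - SS f I a b := by
  unfold SS; rw [Finset.sum_neg_distrib]

/-- `P` holds for a proportion at most `μ` (up to any `ε`) of the pairs in every large box. -/
def Dens (P : ℤ → ℤ → Prop) (μ : ℝ) : Prop :=
  ∀ ε : ℝ, 0 < ε → ∃ X0 : ℕ, ∀ (A B : ℤ) (X Y : ℕ), X0 ≤ X → X0 ≤ Y →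
    open Classical in
    (((curveBox A B X Y).filter (fun w => P w.1 w.2)).card : ℝ) ≤ (μ + ε) * (X * Y)

end Pool.Agent.H13.LIL
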