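import Mathlib

/-!
# A number field of degree at most `12` with the two-torsion and a square root of `-1`
-/

namespace Pool.Agent.H13.LIL

open Polynomial NumberField

lemma card_gal_le (p : ℚ[X]) (n : ℕ) (hn : p.natDegree ≤ n) : Nat.card p.Gal ≤ n.factorial := by
  classical
  haveI : Fact ((p.map (algebraMap ℚ p.SplittingField)).Splits) := ⟨SplittingField.splits p⟩
  have h1 := Nat.card_le_card_of_injective _ (Gal.galActionHom_injective p p.SplittingField)
  refine h1.trans ?_
  rw [Nat.card_perm]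
  apply Nat.factorial_le
  refine le_trans ?_ hn
  rw [Nat.card_coe_set_eq]
  exact ncard_rootSet_le p p.SplittingField

lemma fdK (K : Type) [Field K] (f : K[X]) : FiniteDimensional K f.SplittingField := inferInstance

lemma exists_field (a b : ℤ) :
    ∃ (L : Type) (_ : Field L) (_ : NumberField L), Module.finrank ℚ L ≤ 12 ∧
      ∃ e₁ e₂ e₃ ι : 𝓞 L, e₁ + e₂ + e₃ = 0 ∧ e₁ * e₂ + e₁ * e₃ + e₂ * e₃ = (a : 𝓞 L) ∧
        e₁ * e₂ * e₃ = -(b : 𝓞 L) ∧ ι ^ 2 = -1 := by
  classical
  let P : Cubic ℚ := ⟨1, 0, a, b⟩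
  let p : ℚ[X] := P.toPoly
  let q : ℚ[X] := X ^ 2 + C 1
  have hp0 : p ≠ 0 := Cubic.ne_zero_of_a_ne_zero (P := P) one_ne_zero
  have hqd : q.natDegree = 2 := natDegree_X_pow_add_C
  have hq0 : q ≠ 0 := by
    intro h
    rw [h] at hqd
    simp at hqd
  have hpd : p.natDegree ≤ 3 := (Cubic.natDegree_of_a_ne_zero (P := P) one_ne_zero).le
  let L := (p * q).SplittingField
  have hfin : Module.finrank ℚ L ≤ 12 := by
    have h1 : Nat.card (p * q).Gal = Module.finrank ℚ L := by
      haveI : Normal ℚ L := SplittingField.instNormal (p * q)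
      haveI : IsGalois ℚ L := ⟨⟩
      exact IsGalois.card_aut_eq_finrank ℚ L
    rw [← h1]
    have h2 := Nat.card_le_card_of_injective _ (Gal.restrictProd_injective p q)
    rw [Nat.card_prod] at h2
    have h3 := card_gal_le p 3 hpd
    have h4 := card_gal_le q 2 hqd.le
    calc Nat.card (p * q).Gal ≤ Nat.card p.Gal * Nat.card q.Gal := h2
      _ ≤ Nat.factorial 3 * Nat.factorial 2 := Nat.mul_le_mul h3 h4
      _ = 12 := by decide
  haveI hNF : NumberField L := by
    haveI : CharZero L := algebraRat.charZero L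
    have h0 := fdK ℚ (p * q)
    haveI : FiniteDimensional ℚ L := by
      convert h0
    exact NumberField.mk
  have hs := SplittingField.splits (p * q)
  have hps : ((p.map (algebraMap ℚ L))).Splits :=
    hs.of_dvd (map_ne_zero (mul_ne_zero hp0 hq0)) ((map_dvd_map' _).mpr (dvd_mul_right p q))
  have hqs : ((q.map (algebraMap ℚ L))).Splits :=
    hs.of_dvd (map_ne_zero (mul_ne_zero hp0 hq0)) ((map_dvd_map' _).mpr (dvd_mul_left q p))
  obtain ⟨x, y, z, hxyz⟩ := (Cubic.splits_iff_roots_eq_three (P := P) (φ := algebraMap ℚ L)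
    one_ne_zero).mp hps
  have hB := Cubic.b_eq_three_roots (P := P) (φ := algebraMap ℚ L) one_ne_zero hxyz
  have hC := Cubic.c_eq_three_roots (P := P) (φ := algebraMap ℚ L) one_ne_zero hxyz
  have hD := Cubic.d_eq_three_roots (P := P) (φ := algebraMap ℚ L) one_ne_zero hxyz
  have e1 : algebraMap ℚ L P.a = 1 := map_one _
  have e2 : algebraMap ℚ L P.b = 0 := map_zero _
  have e3 : algebraMap ℚ L P.c = (a : L) := map_intCast _ a
  have e4 : algebraMap ℚ L P.d = (b : L) := map_intCast _ b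
  rw [e1, e2] at hB
  rw [e1, e3] at hC
  rw [e1, e4] at hD
  obtain ⟨i, hi⟩ : ∃ i : L, i ^ 2 + 1 = 0 := by
    have hdeg : (q.map (algebraMap ℚ L)).degree ≠ 0 := by
      rw [degree_map, degree_eq_natDegree hq0, hqd]
      norm_num
    obtain ⟨i, hi⟩ := hqs.exists_eval_eq_zero hdeg
    refine ⟨i, ?_⟩
    simpa [q] using hi
  have hroot : ∀ t : L, (t - x) * (t - y) * (t - z) = t ^ 3 + a * t + b := by
    intro t
    linear_combination (-t ^ 2) * hB - t * hC - hD
  have hint : ∀ t : L, t ^ 3 + (a : L) * t + (b : L) = 0 → IsIntegral ℤ t := by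
    intro t ht
    refine ⟨X ^ 3 + C a * X + C b, ?_, ?_⟩
    · monicity!
    · simp only [eval₂_add, eval₂_mul, eval₂_pow, eval₂_X, eval₂_C]
      rw [eq_intCast, eq_intCast]
      exact ht
  have hxi : IsIntegral ℤ x := hint x (by rw [← hroot]; ring)
  have hyi : IsIntegral ℤ y := hint y (by rw [← hroot]; ring)
  have hzi : IsIntegral ℤ z := hint z (by rw [← hroot]; ring)
  have hii : IsIntegral ℤ i := by
    refine ⟨X ^ 2 + C 1, ?_, ?_⟩
    · monicity!
    · simpa using hi
  refine ⟨L, inferInstance, hNF, ?_, ⟨x, hxi⟩, ⟨y, hyi⟩, ⟨z, hzi⟩, ⟨i, hii⟩, ?_, ?_, ?_, ?_⟩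
  · convert hfin
  · apply RingOfIntegers.ext
    change x + y + z = 0
    linear_combination hB
  · apply RingOfIntegers.ext
    change x * y + x * z + y * z = ((a : 𝓞 L) : L)
    rw [show ((a : 𝓞 L) : L) = (a : L) from map_intCast (algebraMap (𝓞 L) L) a]
    linear_combination -hC
  · apply RingOfIntegers.ext
    change x * y * z = ((-(b : 𝓞 L) : 𝓞 L) : L)
    rw [show ((-(b : 𝓞 L) : 𝓞 L) : L) = -(b : L) by
      have h1 := map_neg (algebraMap (𝓞 L) L) (b : 𝓞 L)
      rw [map_intCast (algebraMap (𝓞 L) L) b] at h1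
      exact h1]
    linear_combination hD
  · apply RingOfIntegers.ext
    change i ^ 2 = algebraMap (𝓞 L) L (-1)
    rw [map_neg, map_one]
    linear_combination hi

end Pool.Agent.H13.LIL
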