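import Pool.Agent.H13.LIL.Core

/-!
# The law of the iterated logarithm, lower half: the limit statement
-/

namespace Pool.Agent.H13.LIL

open Finset Pool.Agent.H11.STA Filter Topology

variable {f : ℕ → ℤ → ℤ → ℝ} {w : ℕ → ℝ}

/-- The weights have density at least `ρ` on a sequence of scales which is not too thin. -/
def Rich (w : ℕ → ℝ) (ρ : ℝ) : Prop :=
  ∀ q : ℕ, 2 ≤ q → ∀ ρ₁ : ℝ, ρ₁ < ρ → ∀ (j₀ : ℕ) (T : ℝ), ∃ (J : Finset ℕ) (ν : ℕ → ℕ),
    (∀ j ∈ J, j₀ ≤ j) ∧ (∀ j ∈ J, ∀ j' ∈ J, j < j' → j + 2 ≤ j') ∧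
    (∀ j ∈ J, q ^ j ≤ ν j ∧ ν j < q ^ (j + 1)) ∧
    (∀ j ∈ J, ρ₁ * ν j ≤ ∑ k ∈ Ico 2 (ν j), w k) ∧ T ≤ ∑ j ∈ J, 1 / (j : ℝ)

lemma exists_param (ρ κ : ℝ) (hρ : 0 < ρ) (hκ : κ < √(2 * ρ)) :
    ∃ x : ℝ, 0 < x ∧ x ≤ 1 / 10 ∧ x < ρ / 4 ∧ κ < √(2 * (1 - 6 * x) * (ρ - 2 * x)) - 2 * x := by
  have hc : ContinuousAt (fun x : ℝ => √(2 * (1 - 6 * x) * (ρ - 2 * x)) - 2 * x) 0 := by
    fun_prop
  have h0 : κ < (fun x : ℝ => √(2 * (1 - 6 * x) * (ρ - 2 * x)) - 2 * x) 0 := by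
    simpa using hκ
  have h1 := hc.eventually (lt_mem_nhds h0)
  have h2 : ∀ᶠ x in 𝓝[>] (0 : ℝ), κ < √(2 * (1 - 6 * x) * (ρ - 2 * x)) - 2 * x :=
    h1.filter_mono nhdsWithin_le_nhds
  have h3 : ∀ᶠ x in 𝓝[>] (0 : ℝ), x ∈ Set.Ioo (0 : ℝ) (min (1 / 10) (ρ / 4)) :=
    Ioo_mem_nhdsGT (lt_min (by norm_num) (by linarith))
  obtain ⟨x, hx1, hx2⟩ := (h2.and h3).exists
  exact ⟨x, hx2.1, (hx2.2.trans_le (min_le_left _ _)).le, hx2.2.trans_le (min_le_right _ _), hx1⟩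

theorem lil (hf : SignFam f w) (ρ : ℝ) (hρ : 0 < ρ) (hρ1 : ρ ≤ 1) (hR : Rich w ρ) (κ : ℝ)
    (hκ : κ < √(2 * ρ)) (K0 : ℕ) (η : ℝ) (hη : 0 < η) :
    ∃ K1 : ℕ, Dens (fun a b => ∀ K : ℕ, K0 ≤ K → K ≤ K1 →
      SS f (Ico 2 K) a b < κ * √(K * Real.log (Real.log K))) η := by
  classical
  obtain ⟨x, hx0, hx1, hx2, hx3⟩ := exists_param ρ κ hρ hκ
  set ρ₂ := ρ - 2 * x with hρ₂
  have hρ₂0 : 0 < ρ₂ := by linarith
  have hρ₂1 : ρ₂ ≤ 1 := by linarith
  obtain ⟨q, hq⟩ : ∃ q : ℕ, 1 / x ^ 2 + 2 ≤ q := exists_nat_ge _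
  have hxx : 0 < x ^ 2 := by positivity
  have hq2R : (2 : ℝ) ≤ q := by
    have : 0 < 1 / x ^ 2 := by positivity
    linarith
  have hq2 : 2 ≤ q := by exact_mod_cast hq2R
  have hqR : (0 : ℝ) < q := by linarith
  have hqx : 1 ≤ x ^ 2 * q := by
    have h1 : 1 / x ^ 2 ≤ q := by linarith
    rw [div_le_iff₀ hxx] at h1
    linarith
  have hsq : 1 / √(q : ℝ) ≤ x := by
    rw [div_le_iff₀ (Real.sqrt_pos.mpr hqR)]
    have h2 : (1 : ℝ) ^ 2 ≤ (x * √(q : ℝ)) ^ 2 := by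
      rw [mul_pow, Real.sq_sqrt hqR.le]; linarith
    exact le_of_sq_le_sq h2 (by positivity)
  have hinv : 1 / (q : ℝ) ≤ x := by
    rw [div_le_iff₀ hqR]
    nlinarith
  -- large `ν`
  have hlog : ∀ᶠ y : ℝ in atTop, 20 / (ρ₂ * x ^ 2) ≤ Real.log (Real.log y) ∧
      Real.log (Real.log y) ≤ x ^ 2 / 150 * (ρ₂ * y) := by
    have h1 : Tendsto (fun y : ℝ => Real.log (Real.log y)) atTop atTop :=
      Real.tendsto_log_atTop.comp Real.tendsto_log_atTop
    have h2 := h1.eventually_ge_atTop (20 / (ρ₂ * x ^ 2))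
    have h3 : ∀ᶠ y : ℝ in atTop, Real.log y ≤ x ^ 2 / 150 * ρ₂ * y := by
      have h4 := Real.isLittleO_log_id_atTop.bound (c := x ^ 2 / 150 * ρ₂) (by positivity)
      filter_upwards [h4, eventually_ge_atTop (1 : ℝ)] with y hy hy1
      have h5 : 0 ≤ Real.log y := Real.log_nonneg hy1
      simp only [id, Real.norm_eq_abs, abs_of_nonneg h5, abs_of_nonneg (by linarith : 0 ≤ y)] at hy
      exact hy
    filter_upwards [h2, h3, eventually_ge_atTop (Real.exp 1)] with y hy2 hy3 hy4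
    refine ⟨hy2, ?_⟩
    have h6 : 1 ≤ Real.log y := by
      rw [Real.le_log_iff_exp_le (by linarith [Real.exp_pos 1])]
      exact hy4
    have h7 : Real.log (Real.log y) ≤ Real.log y := by
      have := Real.log_le_sub_one_of_pos (x := Real.log y) (by linarith)
      linarith
    linarith
  obtain ⟨y0, hy0⟩ := eventually_atTop.mp hlog
  set j₀ : ℕ := max (max 2 (⌈10 / η⌉₊ + 1)) (max ⌈y0⌉₊ K0) with hj₀
  set T : ℝ := 2 * Real.log q * Real.log (2 / η) with hT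
  obtain ⟨J, ν, hJ, hsep, hν, hW, hsum⟩ := hR q hq2 (ρ - x) (by linarith) j₀ T
  have hj0 : ∀ j ∈ J, 2 ≤ j := fun j hj =>
    ((le_max_left _ _).trans (le_max_left _ _)).trans (hJ j hj)
  have hqj : ∀ j : ℕ, j < q ^ j := fun j => Nat.lt_pow_self (by omega)
  have hνR : ∀ j ∈ J, (0 : ℝ) < ν j := fun j hj => by
    have h9 : 0 < q ^ j := Nat.pow_pos (by omega)
    exact_mod_cast h9.trans_le (hν j hj).1
  have hblock : ∀ j ∈ J, ρ₂ * ν j ≤ ∑ k ∈ Ico (q ^ (j - 1)) (ν j), w k := by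
    intro j hj
    have h2j := hj0 j hj
    have h2q : 2 ≤ q ^ (j - 1) := by
      calc 2 ≤ q := hq2
        _ = q ^ 1 := (pow_one q).symm
        _ ≤ q ^ (j - 1) := Nat.pow_le_pow_right (by omega) (by omega)
    have hq1 : q ^ (j - 1) ≤ ν j :=
      (Nat.pow_le_pow_right (by omega) (by omega)).trans (hν j hj).1
    have h1 := hW j hj
    rw [← Finset.sum_Ico_consecutive w h2q hq1] at h1
    have h2 : ∑ k ∈ Ico 2 (q ^ (j - 1)), w k ≤ ((q ^ (j - 1) : ℕ) : ℝ) := by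
      calc ∑ k ∈ Ico 2 (q ^ (j - 1)), w k ≤ ∑ k ∈ Ico 2 (q ^ (j - 1)), (1 : ℝ) :=
            Finset.sum_le_sum (fun k hk => hf.w_le_one (Finset.mem_Ico.mp hk).1)
        _ = ((q ^ (j - 1) - 2 : ℕ) : ℝ) := by simp
        _ ≤ _ := by exact_mod_cast Nat.sub_le _ _
    have h3 : ((q ^ (j - 1) : ℕ) : ℝ) ≤ x * ν j := by
      have h6 : ((q ^ (j - 1) : ℕ) : ℝ) ≤ ν j / q := by
        rw [le_div_iff₀ hqR]
        have h7 : q ^ (j - 1) * q = q ^ j := by
          rw [← pow_succ]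
          congr 1
          omega
        have h8 : q ^ (j - 1) * q ≤ ν j := by rw [h7]; exact (hν j hj).1
        exact_mod_cast h8
      refine h6.trans ?_
      rw [div_eq_mul_one_div, mul_comm]
      exact mul_le_mul_of_nonneg_right hinv (hνR j hj).le
    have h4 : ρ₂ * ν j = (ρ - x) * ν j - x * ν j := by rw [hρ₂]; ring
    linarith
  have hLL : ∀ j ∈ J, 20 / (ρ₂ * x ^ 2) ≤ Real.log (Real.log (ν j)) ∧
      Real.log (Real.log (ν j)) ≤ x ^ 2 / 150 * (ρ₂ * ν j) := by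
    intro j hj
    apply hy0
    have h1 : y0 ≤ (⌈y0⌉₊ : ℝ) := Nat.le_ceil _
    have h2 : ⌈y0⌉₊ ≤ ν j := by
      have h3 : ⌈y0⌉₊ ≤ j := ((le_max_left _ _).trans (le_max_right _ _)).trans (hJ j hj)
      exact h3.trans ((hqj j).le.trans (hν j hj).1)
    exact h1.trans (by exact_mod_cast h2)
  have hmain := lil_blocks hf q hq2 ρ₂ x hρ₂0 hρ₂1 hx0 hx1 J ν
    hj0 hsep hν hblock hLL
  refine ⟨J.sup ν, hmain.mono ?_ ?_⟩
  · intro a b h j hj
    have hK0 : K0 ≤ ν j := by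
      have h3 : K0 ≤ j := ((le_max_right _ _).trans (le_max_right _ _)).trans (hJ j hj)
      exact h3.trans ((hqj j).le.trans (hν j hj).1)
    refine (h (ν j) hK0 (Finset.le_sup hj)).trans_le ?_
    refine mul_le_mul_of_nonneg_right ?_ (Real.sqrt_nonneg _)
    have h1 : 2 / √(q : ℝ) ≤ 2 * x := by
      rw [div_eq_mul_one_div]; linarith
    linarith
  · -- the two sums
    have hlogν : ∀ j ∈ J, (j : ℝ) * Real.log q ≤ Real.log (ν j) ∧
        Real.log (ν j) ≤ 2 * j * Real.log q := by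
      intro j hj
      have hlq : 0 < Real.log q := Real.log_pos (by linarith)
      have h1 : ((q ^ j : ℕ) : ℝ) ≤ ν j := by exact_mod_cast (hν j hj).1
      have h2 : (ν j : ℝ) ≤ ((q ^ (j + 1) : ℕ) : ℝ) := by exact_mod_cast (hν j hj).2.le
      push_cast at h1 h2
      have h3 := Real.log_le_log (by positivity) h1
      have h4 := Real.log_le_log (hνR j hj) h2
      rw [Real.log_pow] at h3 h4
      refine ⟨h3, h4.trans ?_⟩
      have h5 : (1 : ℝ) ≤ j := by exact_mod_cast (by have := hj0 j hj; omega : 1 ≤ j)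
      push_cast
      nlinarith
    have hlq2 : 0.69 ≤ Real.log q := by
      have h1 := Real.log_le_log (by norm_num) hq2R
      have h2 := Real.log_two_gt_d9
      linarith
    have hA : Real.exp (- ∑ j ∈ J, (Real.log (ν j))⁻¹) ≤ η / 2 := by
      have h1 : Real.log (2 / η) ≤ ∑ j ∈ J, (Real.log (ν j))⁻¹ := by
        have h2 : ∑ j ∈ J, 1 / (j : ℝ) ≤ 2 * Real.log q * ∑ j ∈ J, (Real.log (ν j))⁻¹ := by
          rw [Finset.mul_sum]
          refine Finset.sum_le_sum (fun j hj => ?_)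
          obtain ⟨h3, h4⟩ := hlogν j hj
          have h5 : (0 : ℝ) < j := by exact_mod_cast (by have := hj0 j hj; omega : 0 < j)
          have h6 : 0 < Real.log (ν j) := lt_of_lt_of_le (by positivity) h3
          rw [div_le_iff₀ h5]
          have h7 : Real.log (ν j) * (Real.log (ν j))⁻¹ = 1 := mul_inv_cancel₀ h6.ne'
          have h8 := mul_le_mul_of_nonneg_right h4 (inv_pos.mpr h6).le
          rw [h7] at h8
          linarith
        have h9 := hsum.trans h2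
        rw [hT] at h9
        exact le_of_mul_le_mul_left h9 (by positivity)
      calc Real.exp (- ∑ j ∈ J, (Real.log (ν j))⁻¹) ≤ Real.exp (- Real.log (2 / η)) :=
            Real.exp_le_exp.mpr (by linarith)
        _ = η / 2 := by
            rw [Real.exp_neg, Real.exp_log (by positivity), inv_div]
    have hB : ∑ j ∈ J, (Real.log (ν j))⁻¹ ^ 2 ≤ η / 2 := by
      have h1 : ∀ j ∈ J, (Real.log (ν j))⁻¹ ^ 2 ≤ 5 / 2 * ((j : ℝ) ^ 2)⁻¹ := by
        intro j hj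
        obtain ⟨h3, -⟩ := hlogν j hj
        have h5 : (0 : ℝ) < j := by exact_mod_cast (by have := hj0 j hj; omega : 0 < j)
        have h6 : 0.69 * (j : ℝ) ≤ Real.log (ν j) := by nlinarith
        have h7 : (Real.log (ν j))⁻¹ ≤ (0.69 * (j : ℝ))⁻¹ := inv_anti₀ (by positivity) h6
        have h8 : 0 ≤ (Real.log (ν j))⁻¹ := by
          have : 0 ≤ Real.log (ν j) := le_trans (by positivity) h6
          positivity
        calc (Real.log (ν j))⁻¹ ^ 2 ≤ ((0.69 * (j : ℝ))⁻¹) ^ 2 := pow_le_pow_left₀ h8 h7 2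
          _ = (1 / 0.69 ^ 2) * ((j : ℝ) ^ 2)⁻¹ := by
              rw [mul_inv, mul_pow, inv_pow, inv_pow]; ring
          _ ≤ 5 / 2 * ((j : ℝ) ^ 2)⁻¹ := by
              refine mul_le_mul_of_nonneg_right (by norm_num) (by positivity)
      have hj₀1 : 1 ≤ j₀ := by
        have : 2 ≤ j₀ := (le_max_left _ _).trans (le_max_left _ _)
        omega
      have h2 : ∑ j ∈ J, ((j : ℝ) ^ 2)⁻¹ ≤ 2 / j₀ := by
        have h3 : J ⊆ Ioo (j₀ - 1) (J.sup id + 1) := by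
          intro j hj
          rw [Finset.mem_Ioo]
          have h4 := (hJ j hj)
          have h5 : j ≤ J.sup id := Finset.le_sup (f := id) hj
          constructor <;> omega
        have h4 := Finset.sum_le_sum_of_subset_of_nonneg (f := fun j : ℕ => ((j : ℝ) ^ 2)⁻¹) h3
          (fun _ _ _ => by positivity)
        have h5 := sum_Ioo_inv_sq_le (α := ℝ) (j₀ - 1) (J.sup id + 1)
        have h6 : ((j₀ - 1 : ℕ) : ℝ) + 1 = j₀ := by
          rw [Nat.cast_sub hj₀1]; push_cast; ring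
        rw [h6] at h5
        exact h4.trans h5
      have hj₀η : 10 / η ≤ (j₀ : ℝ) := by
        have h3 : (⌈10 / η⌉₊ + 1 : ℕ) ≤ j₀ := (le_max_right _ _).trans (le_max_left _ _)
        have h4 : ((⌈10 / η⌉₊ + 1 : ℕ) : ℝ) ≤ j₀ := by exact_mod_cast h3
        push_cast at h4
        linarith [Nat.le_ceil (10 / η)]
      have hj₀R : (0 : ℝ) < j₀ := by exact_mod_cast hj₀1
      calc ∑ j ∈ J, (Real.log (ν j))⁻¹ ^ 2 ≤ ∑ j ∈ J, 5 / 2 * ((j : ℝ) ^ 2)⁻¹ :=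
            Finset.sum_le_sum h1
        _ = 5 / 2 * ∑ j ∈ J, ((j : ℝ) ^ 2)⁻¹ := by rw [Finset.mul_sum]
        _ ≤ 5 / 2 * (2 / j₀) := by linarith
        _ ≤ η / 2 := by
            rw [div_le_iff₀ hη] at hj₀η
            have : 5 / 2 * (2 / (j₀ : ℝ)) = 5 / j₀ := by ring
            rw [this, div_le_iff₀ hj₀R]
            linarith
    linarith

end Pool.Agent.H13.LIL
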