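import Pool.Agent.H13.LIL.Tilt

/-!
# Large deviations of a sum of signs, in the form needed for the law of the iterated logarithm
-/

namespace Pool.Agent.H13.LIL

open Finset Pool.Agent.H11.STA

variable {f : ℕ → ℤ → ℤ → ℝ} {w : ℕ → ℝ}

lemma sinh_le_mul_exp (h : ℝ) : Real.sinh h ≤ h * Real.exp h := by
  rw [Real.sinh_eq]
  have h1 : 1 - 2 * h ≤ Real.exp (-(2 * h)) := by
    have := Real.add_one_le_exp (-(2 * h)); linarith
  have h2 : Real.exp (-h) = Real.exp h * Real.exp (-(2 * h)) := by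
    rw [← Real.exp_add]; ring_nf
  rw [h2]
  nlinarith [Real.exp_pos h]

lemma cosh_ge (h : ℝ) : 1 + h ^ 2 / 2 ≤ Real.cosh h := by
  have h1 : Real.cosh h = 1 + 2 * Real.sinh (h / 2) ^ 2 := by
    have h2 := Real.cosh_two_mul (h / 2)
    have h3 := Real.cosh_sq (h / 2)
    rw [show 2 * (h / 2) = h by ring] at h2
    rw [h2, h3]; ring
  have h2 : (h / 2) ^ 2 ≤ Real.sinh (h / 2) ^ 2 := by
    rcases le_total 0 (h / 2) with h0 | h0
    · exact pow_le_pow_left₀ h0 (Real.self_le_sinh_iff.mpr h0) 2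
    · have := Real.self_le_sinh_iff.mpr (neg_nonneg.mpr h0)
      rw [Real.sinh_neg] at this
      nlinarith
  rw [h1]; nlinarith

open Classical in
theorem big_prob (hf : SignFam f w) (ρ θ : ℝ) (hρ : 0 < ρ) (hρ1 : ρ ≤ 1) (hθ : 0 < θ)
    (hθ1 : θ ≤ 1 / 10) (I : Finset ℕ) (hI : ∀ k ∈ I, 2 ≤ k) (L W : ℝ)
    (hW : W = ∑ k ∈ I, w k) (hWρ : ρ * I.card ≤ W) (hL : 20 / (ρ * θ ^ 2) ≤ L)
    (hLW : L ≤ θ ^ 2 / 150 * W) :
    ∃ P : ℝ, HasMean (fun a b => if √(2 * (1 - 6 * θ) * W * L) ≤ SS f I a b then (1 : ℝ) else 0)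
      (setMod I) P ∧ Real.exp (-L) ≤ P := by
  have hθ2 : 0 < θ ^ 2 := by positivity
  have hρθ : 0 < ρ * θ ^ 2 := by positivity
  have hL20 : 20 ≤ L * (ρ * θ ^ 2) := by rwa [div_le_iff₀ hρθ] at hL
  have hL0 : 0 < L := by
    by_contra hcon
    push Not at hcon
    nlinarith
  have hW0 : 0 < W := by
    by_contra hcon
    push Not at hcon
    have : θ ^ 2 / 150 * W ≤ 0 := mul_nonpos_of_nonneg_of_nonpos (by positivity) hcon
    linarith
  have hWn : W ≤ I.card := by
    rw [hW]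
    calc ∑ k ∈ I, w k ≤ ∑ k ∈ I, (1 : ℝ) := Finset.sum_le_sum (fun k hk => hf.w_le_one (hI k hk))
      _ = I.card := by simp
  set n : ℝ := (I.card : ℝ) with hn
  have hn0 : 0 < n := lt_of_lt_of_le hW0 hWn
  set t := √(2 * (1 - 6 * θ) * W * L) with ht
  have ht2 : t ^ 2 = 2 * (1 - 6 * θ) * W * L :=
    Real.sq_sqrt (by have : 0 ≤ 1 - 6 * θ := by linarith
                     positivity)
  have ht0 : 0 < t := Real.sqrt_pos.mpr (by
    have : 0 < 1 - 6 * θ := by linarith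
    positivity)
  set h := (1 + θ) * t / W with hh
  have hh0 : 0 < h := by positivity
  have hWh : W * h = (1 + θ) * t := by rw [hh]; field_simp
  -- h is small
  have hhsq : h ^ 2 * W = (1 + θ) ^ 2 * (2 * (1 - 6 * θ) * L) := by
    have : h ^ 2 * W * W = (1 + θ) ^ 2 * (2 * (1 - 6 * θ) * L) * W := by
      calc h ^ 2 * W * W = (W * h) ^ 2 := by ring
        _ = (1 + θ) ^ 2 * t ^ 2 := by rw [hWh]; ring
        _ = _ := by rw [ht2]; ring
    exact mul_right_cancel₀ hW0.ne' this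
  have hc1 : (1 + θ) ^ 2 * (1 - 6 * θ) ≤ 1 - 4 * θ := by nlinarith [pow_pos hθ 3]
  have hh2 : h ^ 2 ≤ (3 * θ / 20) ^ 2 := by
    have h1 : h ^ 2 * W ≤ 2 * L := by
      rw [hhsq]; nlinarith
    have h2 : h ^ 2 * W ≤ (3 * θ / 20) ^ 2 * W := by nlinarith
    exact le_of_mul_le_mul_right h2 hW0
  have hhθ : h ≤ 3 * θ / 20 := le_of_sq_le_sq hh2 (by positivity)
  have hh1 : h ≤ 1 / 60 := by linarith
  -- exponentials
  have hexp : Real.exp h ≤ 1 + 2 * h := by
    have := Real.exp_bound' hh0.le (by linarith) (n := 2) (by norm_num)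
    simp [Finset.sum_range_succ] at this
    nlinarith
  have hch2 : Real.cosh h - 1 ≤ h ^ 2 := by
    have h1 := Real.cosh_le_exp_half_sq h
    have h2 : Real.exp (h ^ 2 / 2) ≤ 1 + h ^ 2 := by
      have := Real.exp_bound' (x := h ^ 2 / 2) (by positivity) (by nlinarith) (n := 1)
        (by norm_num)
      simp at this
      nlinarith
    linarith
  have hch1 := cosh_ge h
  set r := 2 * √n with hr
  have hsn : √n ^ 2 = n := Real.sq_sqrt hn0.le
  have hsn0 : 0 < √n := Real.sqrt_pos.mpr hn0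
  have hr2 : r ^ 2 = 4 * n := by rw [hr, mul_pow, hsn]; ring
  have hr0 : 0 < r := by positivity
  -- the mean
  have hMlow : W * h * (1 - h ^ 2) ≤ ∑ k ∈ I, mu w h k := by
    rw [hW, mul_assoc, Finset.sum_mul]
    refine Finset.sum_le_sum (fun k hk => ?_)
    have hw := hf.w_nonneg (hI k hk)
    have hw1 := hf.w_le_one (hI k hk)
    have hcp := cc_pos (w := w) h hw
    have hcc : cc w h k ≤ 1 + h ^ 2 := by unfold cc; nlinarith
    have hsinh : h ≤ Real.sinh h := Real.self_le_sinh_iff.mpr hh0.le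
    unfold mu
    rw [le_div_iff₀ (by linarith)]
    have e1 : (1 - h ^ 2) * cc w h k ≤ 1 := by
      have h5 : 0 ≤ 1 - h ^ 2 := by nlinarith
      have h6 := mul_le_mul_of_nonneg_left hcc h5
      have h7 : (1 - h ^ 2) * (1 + h ^ 2) = 1 - h ^ 2 * h ^ 2 := by ring
      have h8 : 0 ≤ h ^ 2 * h ^ 2 := by positivity
      linarith
    calc w k * (h * (1 - h ^ 2)) * cc w h k = w k * h * ((1 - h ^ 2) * cc w h k) := by ring
      _ ≤ w k * h * 1 := mul_le_mul_of_nonneg_left e1 (by positivity)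
      _ = w k * h := by ring
      _ ≤ w k * Real.sinh h := mul_le_mul_of_nonneg_left hsinh hw
  have hMup : ∑ k ∈ I, mu w h k ≤ W * (h * (1 + 2 * h)) := by
    rw [hW, Finset.sum_mul]
    refine Finset.sum_le_sum (fun k hk => ?_)
    have hw := hf.w_nonneg (hI k hk)
    have hcp := cc_pos (w := w) h hw
    have hs1 : Real.sinh h ≤ h * (1 + 2 * h) :=
      (sinh_le_mul_exp h).trans (mul_le_mul_of_nonneg_left hexp hh0.le)
    have hs0 : 0 ≤ Real.sinh h := Real.sinh_nonneg_iff.mpr hh0.le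
    unfold mu
    calc w k * Real.sinh h / cc w h k ≤ w k * Real.sinh h := div_le_self (by positivity) hcp
      _ ≤ w k * (h * (1 + 2 * h)) := mul_le_mul_of_nonneg_left hs1 hw
  -- the condition on `t`
  have hrt : r ≤ θ * t / 2 := by
    have h1 : r ^ 2 ≤ (θ * t / 2) ^ 2 := by
      rw [hr2]
      have : (θ * t / 2) ^ 2 = θ ^ 2 / 4 * t ^ 2 := by ring
      rw [this, ht2]
      have h3 : ρ * n * L ≤ W * L := mul_le_mul_of_nonneg_right hWρ hL0.le
      have h4 : 20 * n ≤ θ ^ 2 * (ρ * n * L) := by nlinarith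
      have h5 : θ ^ 2 * (ρ * n * L) ≤ θ ^ 2 * (W * L) := mul_le_mul_of_nonneg_left h3 hθ2.le
      have h6 : 0 ≤ θ ^ 2 * (W * L) := by positivity
      nlinarith
    exact le_of_sq_le_sq h1 (by positivity)
  have htM : t ≤ (∑ k ∈ I, mu w h k) - r := by
    have h1 : (1 + θ / 2) * t ≤ W * h * (1 - h ^ 2) := by
      rw [hWh]
      have : (1 + θ / 2) ≤ (1 + θ) * (1 - h ^ 2) := by nlinarith
      calc (1 + θ / 2) * t ≤ ((1 + θ) * (1 - h ^ 2)) * t := mul_le_mul_of_nonneg_right this ht0.le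
        _ = (1 + θ) * t * (1 - h ^ 2) := by ring
    linarith
  obtain ⟨P, hP, hPl⟩ := tail_lower hf I hI h t r hh0.le hr0 (by rw [hr2]) htM
  refine ⟨P, hP, le_trans ?_ hPl⟩
  -- the product
  have hprod : Real.exp ((1 - h ^ 2) * (h ^ 2 / 2) * W) ≤ ∏ k ∈ I, cc w h k := by
    rw [hW, Finset.mul_sum, Real.exp_sum]
    refine Finset.prod_le_prod (fun k _ => (Real.exp_pos _).le) (fun k hk => ?_)
    have hw := hf.w_nonneg (hI k hk)
    have hw1 := hf.w_le_one (hI k hk)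
    have hcp := cc_pos (w := w) h hw
    set x := w k * (Real.cosh h - 1) with hx
    have hccx : cc w h k = 1 + x := rfl
    have hx0 : 0 ≤ x := by rw [hccx] at hcp; linarith
    have hx1 : x ≤ h ^ 2 := by rw [hx]; nlinarith
    have hx2 : w k * (h ^ 2 / 2) ≤ x := mul_le_mul_of_nonneg_left (by linarith) hw
    rw [hccx, ← Real.le_log_iff_exp_le (by linarith)]
    have h3 := Real.one_sub_inv_le_log_of_pos (x := 1 + x) (by linarith)
    refine le_trans ?_ h3
    have h4 : 1 - (1 + x)⁻¹ = x / (1 + x) := by field_simp; ring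
    rw [h4, le_div_iff₀ (by linarith)]
    have h5 : 0 ≤ 1 - h ^ 2 := by nlinarith
    have h6 : (1 - h ^ 2) * (1 + x) ≤ 1 := by nlinarith
    calc (1 - h ^ 2) * (h ^ 2 / 2) * w k * (1 + x)
        = (w k * (h ^ 2 / 2)) * ((1 - h ^ 2) * (1 + x)) := by ring
      _ ≤ (w k * (h ^ 2 / 2)) * 1 := mul_le_mul_of_nonneg_left h6 (by positivity)
      _ ≤ x := by linarith
  have h34 : Real.exp (-(1 / 3)) ≤ 3 / 4 := by
    have h1 : (4 : ℝ) / 3 ≤ Real.exp (1 / 3) := by
      have := Real.add_one_le_exp (1 / 3 : ℝ); linarith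
    rw [Real.exp_neg]
    rw [inv_le_comm₀ (Real.exp_pos _) (by norm_num)]
    linarith
  -- the remaining exponent
  have hhr : h * r ≤ θ * L := by
    have h1 : (h * r) ^ 2 ≤ (θ * L) ^ 2 := by
      have e1 : (h * r) ^ 2 * W = h ^ 2 * W * (4 * n) := by rw [mul_pow, hr2]; ring
      have e2 : (h * r) ^ 2 * W ≤ 2 * L * (4 * n) := by
        rw [e1]
        refine mul_le_mul_of_nonneg_right ?_ (by positivity)
        rw [hhsq]; nlinarith
      have e3 : 2 * L * (4 * n) ≤ (θ * L) ^ 2 * W := by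
        have f1 : 20 * n ≤ θ ^ 2 * (ρ * n * L) := by nlinarith
        have f2 : θ ^ 2 * (ρ * n * L) ≤ θ ^ 2 * (W * L) :=
          mul_le_mul_of_nonneg_left (mul_le_mul_of_nonneg_right hWρ hL0.le) hθ2.le
        nlinarith
      exact le_of_mul_le_mul_right (e2.trans e3) hW0
    exact le_of_sq_le_sq h1 (by positivity)
  have hθL : 1 / 3 ≤ θ * L := by
    have : 20 ≤ θ * L * (ρ * θ) := by linarith [hL20]
    have hρθ1 : ρ * θ ≤ 1 := by nlinarith
    by_contra hcon
    push Not at hcon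
    have h0 : 0 < θ * L := by positivity
    nlinarith [mul_pos hρ hθ]
  calc Real.exp (-L) ≤ Real.exp (-(1 / 3) + (- h * (W * (h * (1 + 2 * h)) + r)) +
        (1 - h ^ 2) * (h ^ 2 / 2) * W) := by
        apply Real.exp_le_exp.mpr
        have e1 : - h * (W * (h * (1 + 2 * h)) + r) + (1 - h ^ 2) * (h ^ 2 / 2) * W =
            - (h ^ 2 * W) / 2 * (1 + 4 * h + h ^ 2) - h * r := by ring
        have e2 : (h ^ 2 * W) / 2 * (1 + 4 * h + h ^ 2) ≤ (1 - 3 * θ) * L := by
          rw [hhsq]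
          have g1 : (1 + θ) ^ 2 * (2 * (1 - 6 * θ) * L) / 2 ≤ (1 - 4 * θ) * L := by nlinarith
          have g2 : 1 + 4 * h + h ^ 2 ≤ 1 + 3 / 4 * θ := by nlinarith
          have g3 : 0 ≤ (1 - 4 * θ) * L := by
            have : 0 ≤ 1 - 4 * θ := by linarith
            positivity
          calc (1 + θ) ^ 2 * (2 * (1 - 6 * θ) * L) / 2 * (1 + 4 * h + h ^ 2)
              ≤ ((1 - 4 * θ) * L) * (1 + 3 / 4 * θ) := by
                apply mul_le_mul g1 g2 (by positivity) g3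
            _ ≤ (1 - 3 * θ) * L := by nlinarith
        nlinarith
    _ = Real.exp (-(1 / 3)) * Real.exp (- h * (W * (h * (1 + 2 * h)) + r)) *
        Real.exp ((1 - h ^ 2) * (h ^ 2 / 2) * W) := by rw [Real.exp_add, Real.exp_add]
    _ ≤ 3 / 4 * Real.exp (- h * ((∑ k ∈ I, mu w h k) + r)) * ∏ k ∈ I, cc w h k := by
        apply mul_le_mul _ hprod (Real.exp_pos _).le (by positivity)
        apply mul_le_mul h34 _ (Real.exp_pos _).le (by norm_num)
        apply Real.exp_le_exp.mpr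
        nlinarith

end Pool.Agent.H13.LIL
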