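import Pool.Agent.H13.LIL.Cheb
import Pool.Agent.AlgD.Zlower
import Pool.Agent.AlgD.Zupper

/-!
# From Dirichlet density to scales
-/

namespace Pool.Agent.H13.LIL

open Finset NumberField

/-- `Σ p^{-s}` over a finite set of primes (given by indices). -/
lemma sum_primes_le : ∃ C s₀ : ℝ, 1 < s₀ ∧ ∀ s : ℝ, 1 < s → s ≤ s₀ → ∀ T : Finset ℕ,
    ∑ k ∈ T, (Nat.nth Nat.Prime k : ℝ) ^ (-s) ≤ Real.log (1 / (s - 1)) + C := by
  classical
  obtain ⟨C1, hC1⟩ := Pool.Agent.AlgD.zeta_upper ℚ
  obtain ⟨cQ, sQ, hs1, hs2, hQ⟩ := Pool.Agent.AlgD.zeta_bounds ℚ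
  refine ⟨C1 + cQ, sQ, hs1, fun s hs hsQ T => ?_⟩
  have hinj : Function.Injective (Nat.nth Nat.Prime) :=
    Nat.nth_injective Nat.infinite_setOfPred_prime
  have h1 := hC1 s hs (T.map ⟨Nat.nth Nat.Prime, hinj⟩) (by
    intro p hp
    rw [Finset.mem_map] at hp
    obtain ⟨k, -, rfl⟩ := hp
    exact Nat.prime_nth_prime k)
  rw [Finset.sum_map] at h1
  have h2 := (abs_le.mp (hQ s hs hsQ).2).2
  have h3 : ∑ k ∈ T, (Nat.nth Nat.Prime k : ℝ) ^ (-s) ≤
      ∑ k ∈ T, Pool.Agent.AlgD.aF ℚ (Nat.nth Nat.Prime k) * (Nat.nth Nat.Prime k : ℝ) ^ (-s) := by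
    refine Finset.sum_le_sum (fun k _ => ?_)
    have h4 : 1 ≤ Pool.Agent.AlgD.aF ℚ (Nat.nth Nat.Prime k) := by
      unfold Pool.Agent.AlgD.aF
      have hfin : {I : Ideal (𝓞 ℚ) | Ideal.absNorm I = Nat.nth Nat.Prime k}.Finite :=
        Ideal.finite_setOfPred_absNorm_eq _
      haveI : Finite {I : Ideal (𝓞 ℚ) // Ideal.absNorm I = Nat.nth Nat.Prime k} :=
        hfin.to_subtype
      haveI : Nonempty {I : Ideal (𝓞 ℚ) // Ideal.absNorm I = Nat.nth Nat.Prime k} :=
        ⟨⟨Ideal.span {((Nat.nth Nat.Prime k : ℕ) : 𝓞 ℚ)}, by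
          rw [Pool.Agent.AlgD.Zprime_absNorm_span ℚ]
          simp⟩⟩
      have := Nat.card_pos (α := {I : Ideal (𝓞 ℚ) // Ideal.absNorm I = Nat.nth Nat.Prime k})
      exact_mod_cast this
    have h5 : 0 ≤ (Nat.nth Nat.Prime k : ℝ) ^ (-s) := by positivity
    nlinarith
  simp only [Function.Embedding.coeFn_mk] at h1
  linarith

open Classical in
/-- The number of `k < n` with `A k`. -/
noncomputable def cnt (A : ℕ → Prop) (n : ℕ) : ℕ := ((range n).filter A).card

lemma cnt_le (A : ℕ → Prop) (n : ℕ) : cnt A n ≤ n := by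
  classical
  unfold cnt
  exact (Finset.card_filter_le _ _).trans (by simp)

/-- Abel summation. -/
lemma abel (A : ℕ → Prop) [DecidablePred A] (g : ℕ → ℝ) (N : ℕ) :
    ∑ k ∈ (range N).filter A, g k =
      ∑ n ∈ range N, (cnt A (n + 1) : ℝ) * (g n - g (n + 1)) + cnt A N * g N := by
  induction N with
  | zero => simp [cnt]
  | succ N ih =>
    have h1 : ∑ k ∈ (range (N + 1)).filter A, g k =
        ∑ k ∈ (range N).filter A, g k + if A N then g N else 0 := by
      rw [Finset.range_add_one, Finset.filter_insert]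
      split_ifs with h
      · rw [Finset.sum_insert (by simp)]; ring
      · ring
    have h2 : (cnt A (N + 1) : ℝ) = cnt A N + if A N then 1 else 0 := by
      unfold cnt
      rw [Finset.range_add_one, Finset.filter_insert]
      split_ifs with h
      · rw [Finset.card_insert_of_notMem (by simp)]; push_cast
        congr 3
      · rw [add_zero]
    rw [h1, ih, Finset.sum_range_succ, h2]
    split_ifs <;> ring

lemma telescope (g : ℕ → ℝ) {a b : ℕ} (h : a ≤ b) :
    ∑ n ∈ Ico a b, (g n - g (n + 1)) = g a - g b := by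
  induction b, h using Nat.le_induction with
  | base => simp
  | succ b hb ih => rw [Finset.sum_Ico_succ_top hb, ih]; ring

theorem scales (A : ℕ → Prop) (c : ℝ) (hc : 0 < c)
    (hA : ∃ C s₀ : ℝ, 1 < s₀ ∧ ∀ s : ℝ, 1 < s → s ≤ s₀ → ∃ T : Finset ℕ, (∀ k ∈ T, A k) ∧
      c * Real.log (1 / (s - 1)) - C ≤ ∑ k ∈ T, (Nat.nth Nat.Prime k : ℝ) ^ (-s))
    (q : ℕ) (hq : 2 ≤ q) (ρ₁ : ℝ) (hρ₁ : ρ₁ < c) (j₀ : ℕ) (T₀ : ℝ) :
    ∃ (J : Finset ℕ) (ν : ℕ → ℕ), (∀ j ∈ J, j₀ ≤ j) ∧
      (∀ j ∈ J, ∀ j' ∈ J, j < j' → j + 2 ≤ j') ∧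
      (∀ j ∈ J, q ^ j ≤ ν j ∧ ν j < q ^ (j + 1)) ∧
      (∀ j ∈ J, ρ₁ * ν j ≤ cnt A (ν j)) ∧ T₀ ≤ ∑ j ∈ J, 1 / (j : ℝ) := by
  classical
  by_contra hcon
  push Not at hcon
  set ρ := max ρ₁ 0 with hρ
  have hρ0 : 0 ≤ ρ := le_max_right _ _
  have hρc : ρ < c := max_lt hρ₁ hc
  set j₁ := max j₀ 1 with hj₁
  set good : ℕ → Prop := fun j => ∃ n, q ^ j ≤ n ∧ n < q ^ (j + 1) ∧ ρ * n ≤ cnt A n with hgood
  have hchoice : ∀ j, ∃ n, good j → (q ^ j ≤ n ∧ n < q ^ (j + 1) ∧ ρ * n ≤ cnt A n) := by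
    intro j
    by_cases h : good j
    · obtain ⟨n, hn⟩ := h
      exact ⟨n, fun _ => hn⟩
    · exact ⟨0, fun h' => absurd h' h⟩
  choose ν hν using hchoice
  have hone : ∀ J : Finset ℕ, (∀ j ∈ J, j₁ ≤ j ∧ good j) →
      (∀ j ∈ J, ∀ j' ∈ J, j < j' → j + 2 ≤ j') → ∑ j ∈ J, 1 / (j : ℝ) < T₀ := by
    intro J hJ hsep
    refine hcon J ν (fun j hj => (le_max_left _ _).trans (hJ j hj).1) hsep
      (fun j hj => ⟨(hν j (hJ j hj).2).1, (hν j (hJ j hj).2).2.1⟩) (fun j hj => ?_)
    refine le_trans ?_ (hν j (hJ j hj).2).2.2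
    exact mul_le_mul_of_nonneg_right (le_max_left _ _) (Nat.cast_nonneg _)
  have htwo : ∀ J : Finset ℕ, (∀ j ∈ J, j₁ ≤ j ∧ good j) → ∑ j ∈ J, 1 / (j : ℝ) ≤ 2 * T₀ := by
    intro J hJ
    have h1 := hone (J.filter (fun j => j % 2 = 0)) (fun j hj => hJ j (Finset.mem_filter.mp hj).1)
      (fun j hj j' hj' hlt => by
        have := (Finset.mem_filter.mp hj).2
        have := (Finset.mem_filter.mp hj').2
        omega)
    have h2 := hone (J.filter (fun j => ¬ j % 2 = 0))
      (fun j hj => hJ j (Finset.mem_filter.mp hj).1)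
      (fun j hj j' hj' hlt => by
        have := (Finset.mem_filter.mp hj).2
        have := (Finset.mem_filter.mp hj').2
        omega)
    have h3 := Finset.sum_filter_add_sum_filter_not J (fun j => j % 2 = 0)
      (fun j => 1 / (j : ℝ))
    linarith
  have hT0 : 0 ≤ T₀ := by
    have := htwo ∅ (by simp)
    simp at this
    linarith
  obtain ⟨C, s₀, hs₀, hA⟩ := hA
  obtain ⟨C1, s₁, hs₁, hC1⟩ := sum_primes_le
  have hqR : (2 : ℝ) ≤ q := by exact_mod_cast hq
  have hlogq : 0 < Real.log q := Real.log_pos (by linarith)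
  set C4 : ℝ := C + ρ * |C1| + q ^ j₁ + 4 * q / Real.log q * (2 * T₀) + 1 with hC4
  -- the main inequality
  have main : ∀ s : ℝ, 1 < s → s ≤ s₀ → s ≤ s₁ → (c - ρ) * Real.log (1 / (s - 1)) ≤ C4 := by
    intro s hs hs0 hs1
    obtain ⟨T, hT, hTsum⟩ := hA s hs hs0
    set g : ℕ → ℝ := fun k => (Nat.nth Nat.Prime k : ℝ) ^ (-s) with hg
    have hpk : ∀ k, (1 : ℝ) ≤ (Nat.nth Nat.Prime k : ℝ) := fun k => by
      exact_mod_cast (Nat.prime_nth_prime k).one_le
    have hg0 : ∀ k, 0 ≤ g k := fun k => by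
      have := hpk k
      exact Real.rpow_nonneg (by linarith) _
    have hg1 : ∀ k, g k ≤ 1 / (Nat.nth Nat.Prime k : ℝ) := fun k => by
      have h1 := hpk k
      rw [hg]
      simp only
      rw [one_div, ← Real.rpow_neg_one]
      exact Real.rpow_le_rpow_of_exponent_le h1 (by linarith)
    have hanti : ∀ k, g (k + 1) ≤ g k := fun k => by
      have h1 := hpk k
      apply Real.rpow_le_rpow_of_nonpos (by linarith) _ (by linarith)
      exact_mod_cast Nat.nth_monotone Nat.infinite_setOfPred_prime (Nat.le_succ k)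
    set N := T.sup id + 1 with hN
    have h1 : ∑ k ∈ T, g k ≤ ∑ k ∈ (range N).filter A, g k := by
      apply Finset.sum_le_sum_of_subset_of_nonneg
      · intro k hk
        have : k ≤ T.sup id := Finset.le_sup (f := id) hk
        rw [Finset.mem_filter, Finset.mem_range]
        exact ⟨by omega, hT k hk⟩
      · intro k _ _; exact hg0 k
    rw [abel A g N] at h1
    set D : ℕ → ℝ := fun n => g n - g (n + 1) with hD
    have hD0 : ∀ n, 0 ≤ D n := fun n => by
      have := hanti n
      simp only [hD]; linarith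
    set J := (range (N + 1)).filter (fun j => j₁ ≤ j ∧ good j) with hJdef
    have hpoint : ∀ n ∈ range N, (cnt A (n + 1) : ℝ) * D n ≤
        ρ * (((n : ℝ) + 1) * D n) + (if n + 1 < q ^ j₁ then ((n : ℝ) + 1) * D n else 0) +
        ∑ j ∈ J, (if q ^ j ≤ n + 1 ∧ n + 1 < q ^ (j + 1) then ((n : ℝ) + 1) * D n else 0) := by
      intro n hn
      have hnN := Finset.mem_range.mp hn
      have hD' := hD0 n
      have hcn : (cnt A (n + 1) : ℝ) ≤ (n : ℝ) + 1 := by exact_mod_cast cnt_le A (n + 1)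
      have hnn : 0 ≤ ((n : ℝ) + 1) * D n := by positivity
      have hsum0 : 0 ≤ ∑ j ∈ J, (if q ^ j ≤ n + 1 ∧ n + 1 < q ^ (j + 1) then
          ((n : ℝ) + 1) * D n else 0) :=
        Finset.sum_nonneg (fun j _ => by split_ifs <;> [exact hnn; exact le_rfl])
      have hle : (cnt A (n + 1) : ℝ) * D n ≤ ((n : ℝ) + 1) * D n :=
        mul_le_mul_of_nonneg_right hcn hD'
      by_cases hsmall : n + 1 < q ^ j₁
      · rw [if_pos hsmall]
        have : 0 ≤ ρ * (((n : ℝ) + 1) * D n) := by positivity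
        linarith
      · rw [if_neg hsmall, add_zero]
        push Not at hsmall
        set j := Nat.log q (n + 1) with hj
        have hj1 : q ^ j ≤ n + 1 := Nat.pow_log_le_self q (by omega)
        have hj2 : n + 1 < q ^ (j + 1) := Nat.lt_pow_succ_log_self (by omega) _
        have hjj : j₁ ≤ j := by
          by_contra hlt
          push Not at hlt
          have : q ^ (j + 1) ≤ q ^ j₁ := Nat.pow_le_pow_right (by omega) (by omega)
          omega
        by_cases hg : good j
        · have hjJ : j ∈ J := by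
            rw [hJdef, Finset.mem_filter, Finset.mem_range]
            refine ⟨?_, hjj, hg⟩
            have : j < q ^ j := Nat.lt_pow_self (by omega)
            omega
          have h2 := Finset.single_le_sum (f := fun j => if q ^ j ≤ n + 1 ∧ n + 1 < q ^ (j + 1)
            then ((n : ℝ) + 1) * D n else 0)
            (fun i _ => by
              change 0 ≤ if q ^ i ≤ n + 1 ∧ n + 1 < q ^ (i + 1) then ((n : ℝ) + 1) * D n else 0
              split_ifs <;> [exact hnn; exact le_rfl]) hjJ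
          simp only [if_pos (And.intro hj1 hj2)] at h2
          have : 0 ≤ ρ * (((n : ℝ) + 1) * D n) := by positivity
          linarith
        · have h3 : (cnt A (n + 1) : ℝ) < ρ * ((n + 1 : ℕ) : ℝ) := by
            by_contra h4
            push Not at h4
            exact hg ⟨n + 1, hj1, hj2, h4⟩
          push_cast at h3
          have : (cnt A (n + 1) : ℝ) * D n ≤ (ρ * ((n : ℝ) + 1)) * D n :=
            mul_le_mul_of_nonneg_right h3.le hD'
          linarith
    have h2 := Finset.sum_le_sum hpoint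
    rw [Finset.sum_add_distrib, Finset.sum_add_distrib, ← Finset.mul_sum] at h2
    -- first part
    have hp1 : ∑ n ∈ range N, ((n : ℝ) + 1) * D n ≤ Real.log (1 / (s - 1)) + C1 := by
      have h3 := abel (fun _ => True) g N
      have h4 : ∀ n, (cnt (fun _ => True) n : ℝ) = n := fun n => by
        unfold cnt; simp
      simp only [h4, Finset.filter_true] at h3
      have h5 := hC1 s hs hs1 (range N)
      have h6 : 0 ≤ (N : ℝ) * g N := mul_nonneg (Nat.cast_nonneg _) (hg0 N)
      push_cast at h3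
      linarith
    have hp1' : ρ * ∑ n ∈ range N, ((n : ℝ) + 1) * D n ≤
        ρ * Real.log (1 / (s - 1)) + ρ * |C1| := by
      have h3 := mul_le_mul_of_nonneg_left hp1 hρ0
      have h4 : ρ * C1 ≤ ρ * |C1| := mul_le_mul_of_nonneg_left (le_abs_self _) hρ0
      linarith
    -- second part
    have hg01 : g 0 ≤ 1 := by
      refine (hg1 0).trans ?_
      rw [div_le_one (by linarith [hpk 0])]
      exact hpk 0
    have hp2 : ∑ n ∈ range N, (if n + 1 < q ^ j₁ then ((n : ℝ) + 1) * D n else 0) ≤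
        (q : ℝ) ^ j₁ := by
      calc ∑ n ∈ range N, (if n + 1 < q ^ j₁ then ((n : ℝ) + 1) * D n else 0)
          ≤ ∑ n ∈ range N, (q : ℝ) ^ j₁ * D n := by
            refine Finset.sum_le_sum (fun n _ => ?_)
            have hD' := hD0 n
            split_ifs with h
            · apply mul_le_mul_of_nonneg_right _ hD'
              exact_mod_cast h.le
            · positivity
        _ = (q : ℝ) ^ j₁ * (g 0 - g N) := by
            rw [← Finset.mul_sum, Finset.range_eq_Ico, telescope g (Nat.zero_le N)]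
        _ ≤ (q : ℝ) ^ j₁ * 1 := by
            apply mul_le_mul_of_nonneg_left _ (by positivity)
            have := hg0 N
            linarith
        _ = _ := mul_one _
    -- third part
    have hp3 : ∑ n ∈ range N, ∑ j ∈ J, (if q ^ j ≤ n + 1 ∧ n + 1 < q ^ (j + 1) then
        ((n : ℝ) + 1) * D n else 0) ≤ 4 * q / Real.log q * (2 * T₀) := by
      rw [Finset.sum_comm]
      have hj : ∀ j ∈ J, ∑ n ∈ range N, (if q ^ j ≤ n + 1 ∧ n + 1 < q ^ (j + 1) then
          ((n : ℝ) + 1) * D n else 0) ≤ 4 * q / Real.log q * (1 / (j : ℝ)) := by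
        intro j hjJ
        have hj1 : 1 ≤ j := by
          rw [hJdef, Finset.mem_filter] at hjJ
          exact (le_max_right _ _).trans hjJ.2.1
        have hjR : (0 : ℝ) < j := by exact_mod_cast hj1
        have hqj : 1 ≤ q ^ j := Nat.one_le_pow _ _ (by omega)
        have hqj2 : q ^ j - 1 ≤ q ^ (j + 1) - 1 :=
          Nat.sub_le_sub_right (Nat.pow_le_pow_right (by omega) (by omega)) 1
        calc ∑ n ∈ range N, (if q ^ j ≤ n + 1 ∧ n + 1 < q ^ (j + 1) then
              ((n : ℝ) + 1) * D n else 0)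
            = ∑ n ∈ (range N).filter (fun n => q ^ j ≤ n + 1 ∧ n + 1 < q ^ (j + 1)),
                ((n : ℝ) + 1) * D n := by rw [Finset.sum_filter]
          _ ≤ ∑ n ∈ (range N).filter (fun n => q ^ j ≤ n + 1 ∧ n + 1 < q ^ (j + 1)),
                (q : ℝ) ^ (j + 1) * D n := by
              refine Finset.sum_le_sum (fun n hn => ?_)
              apply mul_le_mul_of_nonneg_right _ (hD0 n)
              exact_mod_cast (Finset.mem_filter.mp hn).2.2.le
          _ ≤ ∑ n ∈ Ico (q ^ j - 1) (q ^ (j + 1) - 1), (q : ℝ) ^ (j + 1) * D n := by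
              apply Finset.sum_le_sum_of_subset_of_nonneg
              · intro n hn
                have := (Finset.mem_filter.mp hn).2
                rw [Finset.mem_Ico]; omega
              · intro n _ _
                have := hD0 n
                positivity
          _ = (q : ℝ) ^ (j + 1) * (g (q ^ j - 1) - g (q ^ (j + 1) - 1)) := by
              rw [← Finset.mul_sum, telescope g hqj2]
          _ ≤ (q : ℝ) ^ (j + 1) * (4 / ((q : ℝ) ^ j * (j * Real.log q))) := by
              apply mul_le_mul_of_nonneg_left _ (by positivity)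
              have h7 := hg0 (q ^ (j + 1) - 1)
              have h8 := hg1 (q ^ j - 1)
              have h9 := nth_prime_ge (q ^ j - 1)
              have h10 : ((q ^ j - 1 : ℕ) : ℝ) + 1 = (q : ℝ) ^ j := by
                rw [Nat.cast_sub hqj]; push_cast; ring
              rw [h10, Real.log_pow] at h9
              have h11 : 1 / (Nat.nth Nat.Prime (q ^ j - 1) : ℝ) ≤
                  4 / ((q : ℝ) ^ j * (j * Real.log q)) := by
                rw [div_le_div_iff₀ (by linarith [hpk (q ^ j - 1)]) (by positivity)]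
                linarith
              linarith
          _ = 4 * q / Real.log q * (1 / (j : ℝ)) := by
              rw [pow_succ]; field_simp
      refine (Finset.sum_le_sum hj).trans ?_
      rw [← Finset.mul_sum]
      apply mul_le_mul_of_nonneg_left _ (by positivity)
      exact htwo J (fun j hj => (Finset.mem_filter.mp hj).2)
    have hp4 : (cnt A N : ℝ) * g N ≤ 1 := by
      have h3 : (cnt A N : ℝ) ≤ N := by exact_mod_cast cnt_le A N
      have h4 : (N : ℝ) ≤ (Nat.nth Nat.Prime N : ℝ) := by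
        have := Nat.add_two_le_nth_prime N
        exact_mod_cast (by omega : N ≤ Nat.nth Nat.Prime N)
      have h5 := hpk N
      calc (cnt A N : ℝ) * g N ≤ (Nat.nth Nat.Prime N : ℝ) * (1 / (Nat.nth Nat.Prime N : ℝ)) :=
            mul_le_mul (h3.trans h4) (hg1 N) (hg0 N) (by linarith)
        _ = 1 := by field_simp
    rw [hC4]
    linarith
  -- contradiction
  set Y : ℝ := max (C4 / (c - ρ) + 1) (max (- Real.log (s₀ - 1)) (- Real.log (s₁ - 1))) with hY
  set s : ℝ := 1 + Real.exp (-Y) with hs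
  have hs1 : 1 < s := by
    have := Real.exp_pos (-Y)
    linarith
  have hsle : ∀ t : ℝ, 1 < t → - Real.log (t - 1) ≤ Y → s ≤ t := by
    intro t ht hty
    have h1 : Real.exp (-Y) ≤ Real.exp (Real.log (t-1)) := Real.exp_le_exp.2 (by linarith)
    rw [Real.exp_log (by linarith)] at h1
    linarith
  have hlog : Real.log (1 / (s - 1)) = Y := by
    have : s - 1 = Real.exp (-Y) := by rw [hs]; ring
    rw [this, one_div, ← Real.exp_neg, neg_neg, Real.log_exp]
  have h := main s hs1 (hsle s₀ hs₀ ((le_max_left _ _).trans (le_max_right _ _)))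
    (hsle s₁ hs₁ ((le_max_right _ _).trans (le_max_right _ _)))
  rw [hlog] at h
  have h1 : C4 / (c - ρ) + 1 ≤ Y := le_max_left _ _
  have h2 : 0 < c - ρ := by linarith
  have h3 : (c - ρ) * (C4 / (c - ρ) + 1) ≤ (c - ρ) * Y := mul_le_mul_of_nonneg_left h1 h2.le
  have h4 : (c - ρ) * (C4 / (c - ρ) + 1) = C4 + (c - ρ) := by field_simp
  linarith

end Pool.Agent.H13.LIL
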