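import Pool.Agent.H13.LIL.Defs

/-!
# Curves with full two-torsion over `𝔽_p`, `p ≡ 1 (mod 4)`, are not supersingular
-/

namespace Pool.Agent.H13.LIL

open WeierstrassCurve Pool.Agent.H11.STA

/-- A finite commutative group with three different elements of order two has order divisible
by four. -/
lemma four_dvd_card {G : Type*} [AddCommGroup G] [Finite G] (P₁ P₂ P₃ : G) (h1 : P₁ + P₁ = 0)
    (h2 : P₂ + P₂ = 0) (h3 : P₃ + P₃ = 0) (h10 : P₁ ≠ 0) (h20 : P₂ ≠ 0) (h30 : P₃ ≠ 0)
    (h12 : P₁ ≠ P₂) (h13 : P₁ ≠ P₃) (h23 : P₂ ≠ P₃) : 4 ∣ Nat.card G := by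
  classical
  let H : AddSubgroup G := (nsmulAddMonoidHom (α := G) 2).ker
  have hH : ∀ x : H, 2 • x = 0 := fun x => by
    apply Subtype.ext
    exact x.2
  letI : Module (ZMod 2) H := AddCommGroup.zmodModule hH
  haveI : Finite H := inferInstance
  haveI : Module.Finite (ZMod 2) H := Module.Finite.of_finite
  have hcard : Nat.card H = 2 ^ Module.finrank (ZMod 2) H := by
    haveI : Fintype H := Fintype.ofFinite H
    have := Module.card_eq_pow_finrank (K := ZMod 2) (V := H)
    rw [ZMod.card] at this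
    rw [Nat.card_eq_fintype_card]
    exact this
  have hge : 4 ≤ Nat.card H := by
    have hm : ∀ P : G, P + P = 0 → P ∈ H := fun P h => by
      change 2 • P = 0
      rw [two_nsmul]; exact h
    let S : Finset H := {0, ⟨P₁, hm _ h1⟩, ⟨P₂, hm _ h2⟩, ⟨P₃, hm _ h3⟩}
    have hS : S.card = 4 := by
      have a1 : (0 : H) ∉ ({⟨P₁, hm _ h1⟩, ⟨P₂, hm _ h2⟩, ⟨P₃, hm _ h3⟩} : Finset H) := by
        simp only [Finset.mem_insert, Finset.mem_singleton, Subtype.ext_iff, not_or]
        exact ⟨fun h => h10 h.symm, fun h => h20 h.symm, fun h => h30 h.symm⟩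
      have a2 : (⟨P₁, hm _ h1⟩ : H) ∉ ({⟨P₂, hm _ h2⟩, ⟨P₃, hm _ h3⟩} : Finset H) := by
        simp only [Finset.mem_insert, Finset.mem_singleton, Subtype.ext_iff, not_or]
        exact ⟨h12, h13⟩
      have a3 : (⟨P₂, hm _ h2⟩ : H) ∉ ({⟨P₃, hm _ h3⟩} : Finset H) := by
        simp only [Finset.mem_singleton, Subtype.ext_iff]
        exact h23
      rw [Finset.card_insert_of_notMem a1, Finset.card_insert_of_notMem a2,
        Finset.card_insert_of_notMem a3, Finset.card_singleton]
    have := Nat.card_le_card_of_injective (fun x : S => (x : H)) Subtype.val_injective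
    rw [Nat.card_eq_fintype_card, Fintype.card_coe, hS] at this
    exact this
  have hfr : 2 ≤ Module.finrank (ZMod 2) H := by
    by_contra hlt
    push Not at hlt
    have : 2 ^ Module.finrank (ZMod 2) H ≤ 2 ^ 1 := Nat.pow_le_pow_right (by norm_num) (by omega)
    omega
  have h4 : 4 ∣ Nat.card H := by
    rw [hcard]
    exact pow_dvd_pow 2 hfr
  exact h4.trans (AddSubgroup.card_addSubgroup_dvd_card H)

variable {p : ℕ} [Fact p.Prime]

lemma not_half (hp : 5 ≤ p) (hp4 : p % 4 = 1) (u v e₁ e₂ e₃ : ZMod p) (hs : e₁ + e₂ + e₃ = 0)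
    (hu : e₁ * e₂ + e₁ * e₃ + e₂ * e₃ = u) (hv : e₁ * e₂ * e₃ = -v)
    (hns : 4 * u ^ 3 + 27 * v ^ 2 ≠ 0) : redAngle p u v ≠ 1 / 2 := by
  classical
  have h2 : (2 : ZMod p) ≠ 0 := by
    intro h2
    have h' : ((2 : ℕ) : ZMod p) = 0 := by exact_mod_cast h2
    rw [ZMod.natCast_eq_zero_iff] at h'
    have := Nat.le_of_dvd (by norm_num) h'
    omega
  -- the roots are different
  have hdisc : -(4 * u ^ 3 + 27 * v ^ 2) = ((e₁ - e₂) * (e₁ - e₃) * (e₂ - e₃)) ^ 2 := by
    have h3 : e₃ = -e₁ - e₂ := by linear_combination hs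
    rw [← hu, show v = -(e₁ * e₂ * e₃) by rw [hv]; ring, h3]
    ring
  have hprod : (e₁ - e₂) * (e₁ - e₃) * (e₂ - e₃) ≠ 0 := by
    intro h
    rw [h] at hdisc
    apply hns
    linear_combination -hdisc
  have h12 : e₁ ≠ e₂ := fun h => hprod (by rw [h]; ring)
  have h13 : e₁ ≠ e₃ := fun h => hprod (by rw [h]; ring)
  have h23 : e₂ ≠ e₃ := fun h => hprod (by rw [h]; ring)
  -- the points
  have hΔ : (shortCurve u v).Δ ≠ 0 := by
    rw [shortCurve_Δ]
    refine mul_ne_zero (neg_ne_zero.mpr ?_) hns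
    have : (16 : ZMod p) = 2 ^ 4 := by norm_num
    rw [this]
    exact pow_ne_zero 4 h2
  have hroot : ∀ e : ZMod p, e ^ 3 + u * e + v = 0 →
      (shortCurve u v).toAffine.Nonsingular e 0 := by
    intro e he
    have heq : (shortCurve u v).toAffine.Equation e 0 := by
      rw [short_equation]
      linear_combination -he
    exact (WeierstrassCurve.Affine.equation_iff_nonsingular_of_Δ_ne_zero hΔ).mp heq
  have hr1 : e₁ ^ 3 + u * e₁ + v = 0 := by
    rw [← hu, show v = -(e₁ * e₂ * e₃) by rw [hv]; ring]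
    linear_combination e₁ ^ 2 * hs
  have hr2 : e₂ ^ 3 + u * e₂ + v = 0 := by
    rw [← hu, show v = -(e₁ * e₂ * e₃) by rw [hv]; ring]
    linear_combination e₂ ^ 2 * hs
  have hr3 : e₃ ^ 3 + u * e₃ + v = 0 := by
    rw [← hu, show v = -(e₁ * e₂ * e₃) by rw [hv]; ring]
    linear_combination e₃ ^ 2 * hs
  have hself : ∀ e : ZMod p, ∀ h : (shortCurve u v).toAffine.Nonsingular e 0,
      (Affine.Point.some e 0 h : (shortCurve u v).toAffine.Point) + Affine.Point.some e 0 h = 0 := by
    intro e h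
    apply Affine.Point.add_self_of_Y_eq
    simp [Affine.negY, shortCurve]
  have hfin : Finite (shortCurve u v).toAffine.Point := by
    have hinj : Function.Injective (fun P : (shortCurve u v).toAffine.Point =>
        match P with
        | .zero => (none : Option (ZMod p × ZMod p))
        | .some x y _ => some (x, y)) := by
      intro P Q h
      cases P <;> cases Q <;> simp_all
    exact Finite.of_injective _ hinj
  have h4 := four_dvd_card
    (Affine.Point.some e₁ 0 (hroot e₁ hr1) : (shortCurve u v).toAffine.Point)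
    (Affine.Point.some e₂ 0 (hroot e₂ hr2)) (Affine.Point.some e₃ 0 (hroot e₃ hr3))
    (hself _ _) (hself _ _) (hself _ _) (by intro h; cases h) (by intro h; cases h)
    (by intro h; cases h) (by intro h; apply h12; injection h)
    (by intro h; apply h13; injection h) (by intro h; apply h23; injection h)
  unfold redAngle
  rw [if_neg hns]
  intro heq
  have hpi := Real.pi_pos
  have h5 : Real.arccos (((p : ℝ) + 1 - (Nat.card (shortCurve u v).toAffine.Point : ℝ)) /
      (2 * √(p : ℝ))) = Real.pi / 2 := by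
    rw [div_eq_iff hpi.ne'] at heq
    rw [heq]; ring
  rw [Real.arccos_eq_pi_div_two, div_eq_zero_iff] at h5
  have hp0 : (0 : ℝ) < p := by exact_mod_cast (by omega : 0 < p)
  have h6 : (2 * √(p : ℝ)) ≠ 0 := by positivity
  have h7 := h5.resolve_right h6
  have h8 : (Nat.card (shortCurve u v).toAffine.Point : ℝ) = ((p + 1 : ℕ) : ℝ) := by
    push_cast; linarith
  have h9 : Nat.card (shortCurve u v).toAffine.Point = p + 1 := by exact_mod_cast h8
  rw [h9] at h4
  omega

end Pool.Agent.H13.LIL
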