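import Pool.Agent.H13.LIL.FieldT
import Pool.Agent.H13.LIL.TwoTors
import Pool.Agent.H13.LIL.Scales
import Pool.Agent.AlgD.TwoHoms
import Pool.Agent.AlgD.Zlower

/-!
# Many primes with a non-zero trace of Frobenius
-/

namespace Pool.Agent.H13.LIL

open NumberField Pool.Agent.AlgD Pool.Agent.H11.STA Finset

lemma int_mem_iff {K : Type} [Field K] [NumberField K] {p : ℕ} (hp : p.Prime) {Q : Ideal (𝓞 K)}
    (hQ : Ideal.absNorm Q = p) {n : ℤ} (hn : (n : 𝓞 K) ∈ Q) : (n : ZMod p) = 0 := by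
  rw [ZMod.intCast_zmod_eq_zero_iff_dvd]
  by_contra hnd
  have hpQ : ((p : ℤ) : 𝓞 K) ∈ Q := by
    have := Ideal.absNorm_mem Q
    rw [hQ] at this
    exact_mod_cast this
  have hcop : IsCoprime (p : ℤ) n := by
    rw [Prime.coprime_iff_not_dvd (Nat.prime_iff_prime_int.mp hp)]
    exact hnd
  obtain ⟨u, v, huv⟩ := hcop
  have h1 : (1 : 𝓞 K) ∈ Q := by
    have h2 : ((u * p + v * n : ℤ) : 𝓞 K) ∈ Q := by
      push_cast
      exact Q.add_mem (Q.mul_mem_left _ (by exact_mod_cast hpQ)) (Q.mul_mem_left _ hn)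
    rw [huv] at h2
    simpa using h2
  have h3 : Q = ⊤ := (Ideal.eq_top_iff_one Q).mpr h1
  rw [h3, Ideal.absNorm_top] at hQ
  exact hp.one_lt.ne hQ

lemma not_half_of_aF (a b : ℤ) (h : 4 * a ^ 3 + 27 * b ^ 2 ≠ 0) :
    ∃ (L : Type) (_ : Field L) (_ : NumberField L), Module.finrank ℚ L ≤ 12 ∧
      ∃ M : ℕ, ∀ p : ℕ, ∀ hp : p.Prime, M < p → aF L p ≠ 0 →
        haveI := Fact.mk hp
        redAngle p (a : ZMod p) (b : ZMod p) ≠ 1 / 2 := by
  obtain ⟨L, _, _, hfr, e₁, e₂, e₃, ι, h1, h2, h3, h4⟩ := exists_field a b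
  refine ⟨L, inferInstance, inferInstance, hfr, max 4 (4 * a ^ 3 + 27 * b ^ 2).natAbs, ?_⟩
  intro p hp hM haF
  haveI := Fact.mk hp
  change redAngle p (a : ZMod p) (b : ZMod p) ≠ 1 / 2
  have hM1 : 4 < p := lt_of_le_of_lt (le_max_left _ _) hM
  have hM2 : (4 * a ^ 3 + 27 * b ^ 2).natAbs < p := lt_of_le_of_lt (le_max_right _ _) hM
  unfold aF at haF
  have hne : Nat.card {I : Ideal (𝓞 L) // Ideal.absNorm I = p} ≠ 0 := by exact_mod_cast haF
  obtain ⟨⟨P, hP⟩⟩ := (Nat.card_ne_zero.1 hne).1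
  obtain ⟨A1, hA1⟩ := TwoHoms_int p hp P hP e₁
  obtain ⟨A2, hA2⟩ := TwoHoms_int p hp P hP e₂
  obtain ⟨A3, hA3⟩ := TwoHoms_int p hp P hP e₃
  obtain ⟨I, hI⟩ := TwoHoms_int p hp P hP ι
  have k1 : ((A1 + A2 + A3 : ℤ) : ZMod p) = 0 := by
    apply int_mem_iff hp hP
    have : ((A1 + A2 + A3 : ℤ) : 𝓞 L) =
        -((e₁ - (A1 : 𝓞 L)) + (e₂ - (A2 : 𝓞 L)) + (e₃ - (A3 : 𝓞 L))) := by
      push_cast
      linear_combination h1
    rw [this]
    exact P.neg_mem (P.add_mem (P.add_mem hA1 hA2) hA3)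
  have k2 : ((A1 * A2 + A1 * A3 + A2 * A3 - a : ℤ) : ZMod p) = 0 := by
    apply int_mem_iff hp hP
    have : ((A1 * A2 + A1 * A3 + A2 * A3 - a : ℤ) : 𝓞 L) =
        (-(e₂ + e₃)) * (e₁ - (A1 : 𝓞 L)) + (-((A1 : 𝓞 L) + e₃)) * (e₂ - (A2 : 𝓞 L)) +
          (-((A1 : 𝓞 L) + A2)) * (e₃ - (A3 : 𝓞 L)) := by
      push_cast
      linear_combination h2
    rw [this]
    exact P.add_mem (P.add_mem (P.mul_mem_left _ hA1) (P.mul_mem_left _ hA2))
      (P.mul_mem_left _ hA3)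
  have k3 : ((A1 * A2 * A3 + b : ℤ) : ZMod p) = 0 := by
    apply int_mem_iff hp hP
    have : ((A1 * A2 * A3 + b : ℤ) : 𝓞 L) =
        (-(e₂ * e₃)) * (e₁ - (A1 : 𝓞 L)) + (-((A1 : 𝓞 L) * e₃)) * (e₂ - (A2 : 𝓞 L)) +
          (-((A1 : 𝓞 L) * A2)) * (e₃ - (A3 : 𝓞 L)) := by
      push_cast
      linear_combination h3
    rw [this]
    exact P.add_mem (P.add_mem (P.mul_mem_left _ hA1) (P.mul_mem_left _ hA2))
      (P.mul_mem_left _ hA3)
  have k4 : ((I ^ 2 + 1 : ℤ) : ZMod p) = 0 := by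
    apply int_mem_iff hp hP
    have : ((I ^ 2 + 1 : ℤ) : 𝓞 L) = (-((I : 𝓞 L) + ι)) * (ι - (I : 𝓞 L)) := by
      push_cast
      linear_combination h4
    rw [this]
    exact P.mul_mem_left _ hI
  push_cast at k1 k2 k3 k4
  have hp4 : p % 4 = 1 := by
    have hsq : IsSquare (-1 : ZMod p) := ⟨(I : ZMod p), by linear_combination -k4⟩
    have h3 : p % 4 ≠ 3 := ZMod.exists_sq_eq_neg_one_iff.mp hsq
    have hodd : p % 2 = 1 := (hp.eq_two_or_odd).resolve_left (by omega)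
    omega
  apply not_half (by omega) hp4 (a : ZMod p) (b : ZMod p) (A1 : ZMod p) (A2 : ZMod p)
    (A3 : ZMod p) k1
  · linear_combination k2
  · linear_combination k3
  · intro h0
    have h5 : ((4 * a ^ 3 + 27 * b ^ 2 : ℤ) : ZMod p) = 0 := by push_cast; exact h0
    rw [ZMod.intCast_zmod_eq_zero_iff_dvd] at h5
    have h6 := Int.natAbs_dvd_natAbs.mpr h5
    rw [Int.natAbs_natCast] at h6
    have h7 := Nat.le_of_dvd (Int.natAbs_pos.mpr h) h6
    omega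

/-- The primes with a non-zero trace of Frobenius have a positive lower density (`≥ 1 / 12`). -/
theorem many_primes (a b : ℤ) (h : 4 * a ^ 3 + 27 * b ^ 2 ≠ 0) (k₀ : ℕ) :
    ∃ C s₀ : ℝ, 1 < s₀ ∧ ∀ s : ℝ, 1 < s → s ≤ s₀ → ∃ T : Finset ℕ,
      (∀ k ∈ T, k₀ ≤ k ∧ redAngle (Nat.nth Nat.Prime k) (a : ZMod (Nat.nth Nat.Prime k))
        (b : ZMod (Nat.nth Nat.Prime k)) ≠ 1 / 2) ∧
      1 / 12 * Real.log (1 / (s - 1)) - C ≤ ∑ k ∈ T, (Nat.nth Nat.Prime k : ℝ) ^ (-s) := by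
  classical
  obtain ⟨L, _, _, hfr, M, hM⟩ := not_half_of_aF a b h
  obtain ⟨C₁, s₀, hs₀, hs₀2, hz⟩ := zeta_bounds L
  obtain ⟨C₂, hC₂⟩ := zeta_lower L
  set M' : ℕ := max M (Nat.nth Nat.Prime k₀) with hM'
  refine ⟨(C₁ + C₂ + 1) / 12 + (M' + 1), s₀, hs₀, fun s hs hs0 => ?_⟩
  obtain ⟨hzpos, hzb⟩ := hz s hs hs0
  have h1 := hC₂ s hs (hs0.trans hs₀2)
  have hsum := prime_summable L hs
  obtain ⟨S, hS⟩ : ∃ S : Finset Nat.Primes,
      ∑' p : Nat.Primes, aF L p * (p : ℝ) ^ (-s) - 1 < ∑ p ∈ S, aF L p * (p : ℝ) ^ (-s) := by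
    have h2 := hsum.hasSum.eventually_const_lt
      (sub_one_lt (∑' p : Nat.Primes, aF L p * (p : ℝ) ^ (-s)))
    exact h2.exists
  -- the terms
  have haF0 : ∀ n : ℕ, 0 ≤ aF L n := fun n => by unfold aF; positivity
  have hrp : ∀ p : Nat.Primes, 0 ≤ (p : ℝ) ^ (-s) := fun p => by positivity
  have hrp1 : ∀ p : Nat.Primes, (p : ℝ) ^ (-s) ≤ 1 := fun p => by
    apply Real.rpow_le_one_of_one_le_of_nonpos _ (by linarith)
    exact_mod_cast p.2.one_le
  have haF12 : ∀ p : Nat.Primes, aF L p ≤ 12 := fun p =>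
    (aF_le L p p.2).trans (by exact_mod_cast hfr)
  set S' := S.filter (fun p : Nat.Primes => M' < (p : ℕ) ∧ aF L p ≠ 0) with hS'
  have hbound : ∑ p ∈ S, aF L p * (p : ℝ) ^ (-s) ≤
      12 * ∑ p ∈ S', (p : ℝ) ^ (-s) + 12 * (M' + 1) := by
    have h2 : ∀ p ∈ S, aF L p * (p : ℝ) ^ (-s) ≤
        (if M' < (p : ℕ) ∧ aF L p ≠ 0 then 12 * (p : ℝ) ^ (-s) else 0) +
          (if (p : ℕ) ≤ M' then 12 else 0) := by
      intro p _
      have h3 := haF12 p
      have h4 := hrp p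
      have h5 := hrp1 p
      have h6 := haF0 p
      by_cases hp : (p : ℕ) ≤ M'
      · rw [if_neg (by omega : ¬ (M' < (p : ℕ) ∧ aF L p ≠ 0)), if_pos hp, zero_add]
        nlinarith
      · rw [if_neg hp, add_zero]
        by_cases h0 : aF L p = 0
        · rw [h0]; simp
        · rw [if_pos ⟨by omega, h0⟩]
          exact mul_le_mul_of_nonneg_right h3 h4
    refine (Finset.sum_le_sum h2).trans ?_
    rw [Finset.sum_add_distrib, ← Finset.sum_filter, ← Finset.sum_filter, ← Finset.mul_sum,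
      Finset.sum_const, nsmul_eq_mul]
    have h3 : (S.filter (fun p : Nat.Primes => (p : ℕ) ≤ M')).card ≤ M' + 1 := by
      rw [← Finset.card_range (M' + 1)]
      apply Finset.card_le_card_of_injOn (fun p : Nat.Primes => (p : ℕ))
      · intro p hp
        have := (Finset.mem_filter.mp (Finset.mem_coe.mp hp)).2
        simp only [Finset.coe_range, Set.mem_Iio]
        omega
      · intro p _ p' _ hpp
        exact Subtype.ext hpp
    have h4 : (((S.filter (fun p : Nat.Primes => (p : ℕ) ≤ M')).card : ℕ) : ℝ) ≤ M' + 1 := by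
      exact_mod_cast h3
    linarith
  -- the indices
  set T : Finset ℕ := S'.image (fun p : Nat.Primes => Nat.count Nat.Prime (p : ℕ)) with hT
  have hnth : ∀ p : Nat.Primes, Nat.nth Nat.Prime (Nat.count Nat.Prime (p : ℕ)) = p :=
    fun p => Nat.nth_count p.2
  refine ⟨T, ?_, ?_⟩
  · intro k hk
    rw [hT, Finset.mem_image] at hk
    obtain ⟨p, hp, rfl⟩ := hk
    rw [hS', Finset.mem_filter] at hp
    obtain ⟨_, hp1, hp2⟩ := hp
    constructor
    · have h3 : Nat.nth Nat.Prime k₀ < (p : ℕ) := lt_of_le_of_lt (le_max_right _ _) hp1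
      by_contra hlt
      push Not at hlt
      have h4 : Nat.nth Nat.Prime (Nat.count Nat.Prime (p : ℕ)) ≤ Nat.nth Nat.Prime k₀ :=
        Nat.nth_monotone Nat.infinite_setOfPred_prime hlt.le
      rw [hnth p] at h4
      omega
    · have h3 := hM p p.2 (lt_of_le_of_lt (le_max_left _ _) hp1) hp2
      have hgen : ∀ q : ℕ, ∀ hq : Fact q.Prime, q = (p : ℕ) →
          redAngle q (a : ZMod q) (b : ZMod q) ≠ 1 / 2 := by
        intro q hq hqp
        subst hqp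
        exact h3
      exact hgen _ _ (hnth p)
  · have hinj : Set.InjOn (fun p : Nat.Primes => Nat.count Nat.Prime (p : ℕ)) S' := by
      intro p _ p' _ hpp
      have h3 := congrArg (Nat.nth Nat.Prime) hpp
      simp only [hnth] at h3
      exact Subtype.ext h3
    rw [hT, Finset.sum_image hinj]
    have h3 : ∑ p ∈ S', (Nat.nth Nat.Prime (Nat.count Nat.Prime (p : ℕ)) : ℝ) ^ (-s) =
        ∑ p ∈ S', (p : ℝ) ^ (-s) :=
      Finset.sum_congr rfl (fun p _ => by rw [hnth p])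
    rw [h3]
    have h4 := (abs_le.mp hzb).1
    linarith

end Pool.Agent.H13.LIL
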