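import Pool.Agent.H13.LIL.StarLow

/-!
# Weights of natural density `ρ`
-/

namespace Pool.Agent.H13.LIL

open Finset Pool.Agent.H11.STA Filter Topology

lemma rich_of_density (w : ℕ → ℝ) (ρ : ℝ)
    (h : ∀ ρ₁ : ℝ, ρ₁ < ρ → ∃ N : ℕ, ∀ n : ℕ, N ≤ n → ρ₁ * n ≤ ∑ k ∈ Ico 2 n, w k) :
    Rich w ρ := by
  intro q hq ρ₁ hρ₁ j₀ T
  obtain ⟨N, hN⟩ := h ρ₁ hρ₁
  set i₁ := max j₀ N + 1 with hi₁
  set S₀ : ℝ := ∑ i ∈ range (i₁ - 1), 1 / ((i : ℝ) + 1) with hS₀
  obtain ⟨n, hn1, hn2⟩ := ((tendsto_atTop.mp Real.tendsto_sum_range_one_div_nat_succ_atTop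
    (2 * T + S₀)).and (eventually_ge_atTop i₁)).exists
  refine ⟨(Ico i₁ (n + 1)).image (fun i => 2 * i), fun j => q ^ j, ?_, ?_, ?_, ?_, ?_⟩
  · intro j hj
    rw [Finset.mem_image] at hj
    obtain ⟨i, hi, rfl⟩ := hj
    rw [Finset.mem_Ico] at hi
    have := le_max_left j₀ N
    omega
  · intro j hj j' hj' hlt
    rw [Finset.mem_image] at hj hj'
    obtain ⟨i, hi, rfl⟩ := hj
    obtain ⟨i', hi', rfl⟩ := hj'
    omega
  · intro j _
    exact ⟨le_rfl, Nat.pow_lt_pow_right (by omega) (by omega)⟩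
  · intro j hj
    apply hN
    rw [Finset.mem_image] at hj
    obtain ⟨i, hi, rfl⟩ := hj
    rw [Finset.mem_Ico] at hi
    have h1 := le_max_right j₀ N
    have h2 : 2 * i < q ^ (2 * i) := Nat.lt_pow_self (by omega)
    change N ≤ q ^ (2 * i)
    omega
  · rw [Finset.sum_image (fun i _ i' _ h => by simpa using h)]
    have h1 : ∀ m : ℕ, i₁ - 1 ≤ m → ∑ i ∈ Ico i₁ (m + 1), 1 / ((2 * i : ℕ) : ℝ) =
        1 / 2 * (∑ i ∈ range m, 1 / ((i : ℝ) + 1) - S₀) := by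
      intro m hm
      induction m, hm using Nat.le_induction with
      | base =>
        have : i₁ - 1 + 1 = i₁ := by omega
        rw [this]
        simp [hS₀]
      | succ m hm ih =>
        rw [Finset.sum_Ico_succ_top (by omega), ih, Finset.sum_range_succ]
        push_cast
        field_simp
        ring
    rw [h1 n (by omega)]
    linarith

end Pool.Agent.H13.LIL
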