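import Pool.Agent.H13.LIL.Lil

/-!
# The star discrepancy is at least half the excess of negative traces
-/

namespace Pool.Agent.H13.LIL

open Pool.Agent.H11.STA

theorem star_low (E : WeierstrassCurve ℚ) (s K : ℕ) (hs : 1 ≤ s) (hK : 1 ≤ K) :
    - ∑ k ∈ Finset.range K, sg (angle E k) ≤ 2 * K * starDisc E s K := by
  classical
  obtain ⟨t, rfl⟩ : ∃ t, s = t + 1 := ⟨s - 1, by omega⟩
  have hKR : (0 : ℝ) < K := by exact_mod_cast hK
  set w : Fin (t + 1) → ℝ := Fin.cons (1 / 2) (fun _ => 1) with hw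
  have hFh : ∫ u in (0 : ℝ)..(1 / 2), 2 * Real.sin (Real.pi * u) ^ 2 = 1 / 2 := by
    rw [integral_density]
    have h1 : Real.pi * (1 / 2) = Real.pi / 2 := by ring
    rw [h1, Real.cos_pi_div_two]
    simp
    field_simp
  have hloc : |(boxCount E (fun _ => 0) w K : ℝ) / K - 1 / 2| ≤ starDisc E (t + 1) K := by
    have h2 := meas_cons t (1 / 2) (by norm_num) (by norm_num)
    rw [hFh] at h2
    rw [← h2]
    apply le_csSup (star_bdd E (t + 1) K)
    refine ⟨w, ?_, rfl⟩
    intro i
    refine Fin.cases ?_ (fun j => ?_) i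
    · simp only [hw, Fin.cons_zero]; norm_num
    · simp [hw]
  set P := ((Finset.range K).filter (fun k => angle E k < 1 / 2)).card with hP
  have hbox : boxCount E (fun _ => 0) w K ≤ P := by
    unfold boxCount
    apply Finset.card_le_card
    intro k hk
    rw [Finset.mem_filter] at hk ⊢
    refine ⟨hk.1, ?_⟩
    have h3 := hk.2
    simp only [box, Set.mem_univ_pi] at h3
    have h4 := (h3 0).2
    simpa [hw] using h4
  have hsum : 2 * (P : ℝ) ≤ K + ∑ k ∈ Finset.range K, sg (angle E k) := by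
    have h5 : 2 * (P : ℝ) = ∑ k ∈ Finset.range K, (if angle E k < 1 / 2 then (2 : ℝ) else 0) := by
      rw [hP, Finset.card_filter]
      push_cast
      rw [Finset.mul_sum]
      refine Finset.sum_congr rfl (fun k _ => ?_)
      split_ifs <;> norm_num
    have h6 : (K : ℝ) + ∑ k ∈ Finset.range K, sg (angle E k) =
        ∑ k ∈ Finset.range K, (1 + sg (angle E k)) := by
      rw [Finset.sum_add_distrib]; simp
    rw [h5, h6]
    refine Finset.sum_le_sum (fun k _ => ?_)
    unfold sg
    split_ifs <;> norm_num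
  have hboxR : (boxCount E (fun _ => 0) w K : ℝ) ≤ P := by exact_mod_cast hbox
  have h7 := (abs_le.mp hloc).1
  have h8 : (boxCount E (fun _ => 0) w K : ℝ) / K ≤ P / K :=
    div_le_div_of_nonneg_right hboxR hKR.le
  have h9 : 1 / 2 - (P : ℝ) / K ≤ starDisc E (t + 1) K := by linarith
  have h10 : K * (1 / 2 - (P : ℝ) / K) ≤ K * starDisc E (t + 1) K :=
    mul_le_mul_of_nonneg_left h9 hKR.le
  have h11 : K * (1 / 2 - (P : ℝ) / K) = K / 2 - P := by field_simp
  linarith

end Pool.Agent.H13.LIL
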