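import Pool.Agent.H13.LIL.Defs

/-!
# Exponential tilting
-/

namespace Pool.Agent.H13.LIL

open Finset Pool.Agent.H11.STA

variable {f : ℕ → ℤ → ℤ → ℝ} {w : ℕ → ℝ}

/-- `E exp(h f_k)` -/
noncomputable def cc (w : ℕ → ℝ) (h : ℝ) (k : ℕ) : ℝ := 1 + w k * (Real.cosh h - 1)

/-- the tilted mean -/
noncomputable def mu (w : ℕ → ℝ) (h : ℝ) (k : ℕ) : ℝ := w k * Real.sinh h / cc w h k

/-- the tilted variance -/
noncomputable def vv (w : ℕ → ℝ) (h : ℝ) (k : ℕ) : ℝ :=
  w k * Real.cosh h / cc w h k - mu w h k ^ 2

lemma cc_pos (h : ℝ) {k : ℕ} (hw : 0 ≤ w k) : 1 ≤ cc w h k := by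
  unfold cc
  have := Real.one_le_cosh h
  nlinarith

lemma exp_sign (h x : ℝ) (hx : x = 1 ∨ x = -1 ∨ x = 0) :
    Real.exp (h * x) = 1 + Real.sinh h * x + (Real.cosh h - 1) * x ^ 2 := by
  rcases hx with rfl | rfl | rfl
  · rw [mul_one, ← Real.cosh_add_sinh]; ring
  · have : Real.exp (h * -1) = Real.cosh h - Real.sinh h := by
      rw [Real.cosh_sub_sinh]; ring_nf
    rw [this]; ring
  · simp

lemma x_exp_sign (h x : ℝ) (hx : x = 1 ∨ x = -1 ∨ x = 0) :
    x * Real.exp (h * x) = Real.cosh h * x + Real.sinh h * x ^ 2 := by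
  rw [exp_sign h x hx]
  rcases hx with rfl | rfl | rfl <;> ring

/-- Moments of the tilted sum. -/
theorem tilt_moments (hf : SignFam f w) (h : ℝ) (I : Finset ℕ) (hI : ∀ k ∈ I, 2 ≤ k) :
    HasMean (fun a b => Real.exp (h * SS f I a b)) (setMod I) (∏ k ∈ I, cc w h k) ∧
    HasMean (fun a b => (SS f I a b - ∑ k ∈ I, mu w h k) * Real.exp (h * SS f I a b))
      (setMod I) 0 ∧
    HasMean (fun a b => (SS f I a b - ∑ k ∈ I, mu w h k) ^ 2 * Real.exp (h * SS f I a b))
      (setMod I) ((∑ k ∈ I, vv w h k) * ∏ k ∈ I, cc w h k) := by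
  induction I using Finset.induction_on with
  | empty =>
    refine ⟨?_, ?_, ?_⟩
    · exact (HasMean.const 1 (setMod_ne_zero ∅)).congr (fun a b => by simp [SS])
    · exact (HasMean.const 0 (setMod_ne_zero ∅)).congr (fun a b => by simp [SS])
    · have := (HasMean.const 0 (setMod_ne_zero ∅))
      simp only [Finset.sum_empty, zero_mul]
      exact this.congr (fun a b => by simp [SS])
  | insert k I hk ih =>
    obtain ⟨h0, h1, h2⟩ := ih (fun j hj => hI j (Finset.mem_insert_of_mem hj))
    have hk2 := hI k (Finset.mem_insert_self _ _)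
    have hw := hf.w_nonneg hk2
    have hc1 := cc_pos h hw
    have hcne : cc w h k ≠ 0 := by linarith
    set p := Nat.nth Nat.Prime k with hp
    have hpne : p ≠ 0 := NeZero.ne _
    have hc : p.Coprime (setMod I) := by
      refine Nat.Coprime.prod_right (fun j hj => nth_coprime ?_)
      rintro rfl
      exact hk hj
    have hmod : setMod (insert k I) = p * setMod I := by
      unfold setMod; rw [Finset.prod_insert hk]
    have hSS : ∀ a b, SS f (insert k I) a b = f k a b + SS f I a b := by
      intro a b; unfold SS; rw [Finset.sum_insert hk]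
    -- one sign
    have e0 : HasMean (fun a b => Real.exp (h * f k a b)) p (cc w h k) := by
      have := ((HasMean.const 1 hpne).add ((hf.m1 k hk2).smul (Real.sinh h))).add
        ((hf.m2 k hk2).smul (Real.cosh h - 1))
      rw [show (1 : ℝ) + Real.sinh h * 0 + (Real.cosh h - 1) * w k = cc w h k by
        unfold cc; ring] at this
      exact this.congr (fun a b => exp_sign h _ (hf.val k hk2 a b))
    have eX : HasMean (fun a b => f k a b * Real.exp (h * f k a b)) p
        (w k * Real.sinh h) := by
      have := ((hf.m1 k hk2).smul (Real.cosh h)).add ((hf.m2 k hk2).smul (Real.sinh h))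
      rw [show Real.cosh h * 0 + Real.sinh h * w k = w k * Real.sinh h by ring] at this
      exact this.congr (fun a b => x_exp_sign h _ (hf.val k hk2 a b))
    have eXX : HasMean (fun a b => f k a b ^ 2 * Real.exp (h * f k a b)) p
        (w k * Real.cosh h) := by
      have := ((hf.m1 k hk2).smul (Real.sinh h)).add ((hf.m2 k hk2).smul (Real.cosh h))
      rw [show Real.sinh h * 0 + Real.cosh h * w k = w k * Real.cosh h by ring] at this
      refine this.congr (fun a b => ?_)
      rw [exp_sign h _ (hf.val k hk2 a b)]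
      rcases hf.val k hk2 a b with e | e | e <;> rw [e] <;> ring
    have e1 : HasMean (fun a b => (f k a b - mu w h k) * Real.exp (h * f k a b)) p 0 := by
      have := eX.add (e0.smul (- mu w h k))
      rw [show w k * Real.sinh h + -mu w h k * cc w h k = 0 by
        unfold mu; field_simp; ring] at this
      exact this.congr (fun a b => by ring)
    have e2 : HasMean (fun a b => (f k a b - mu w h k) ^ 2 * Real.exp (h * f k a b)) p
        (vv w h k * cc w h k) := by
      have := (eXX.add (eX.smul (- 2 * mu w h k))).add (e0.smul (mu w h k ^ 2))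
      rw [show w k * Real.cosh h + -2 * mu w h k * (w k * Real.sinh h) + mu w h k ^ 2 * cc w h k
        = vv w h k * cc w h k by
          unfold vv
          have : mu w h k * cc w h k = w k * Real.sinh h := by unfold mu; field_simp
          have h3 : w k * Real.cosh h / cc w h k * cc w h k = w k * Real.cosh h := by field_simp
          linear_combination (2 * mu w h k) * this - h3] at this
      exact this.congr (fun a b => by ring)
    rw [hmod, Finset.prod_insert hk, Finset.sum_insert hk, Finset.sum_insert hk]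
    refine ⟨?_, ?_, ?_⟩
    · refine (e0.mul h0 hc).congr (fun a b => ?_)
      rw [hSS, ← Real.exp_add]; ring_nf
    · have := (e1.mul h0 hc).add (e0.mul h1 hc)
      rw [zero_mul, mul_zero, add_zero] at this
      refine this.congr (fun a b => ?_)
      rw [hSS, mul_add, Real.exp_add]; ring
    · have := ((e2.mul h0 hc).add ((e1.mul h1 hc).smul 2)).add (e0.mul h2 hc)
      rw [show vv w h k * cc w h k * ∏ k ∈ I, cc w h k + 2 * (0 * 0) +
        cc w h k * ((∑ k ∈ I, vv w h k) * ∏ k ∈ I, cc w h k) =
        (vv w h k + ∑ k ∈ I, vv w h k) * (cc w h k * ∏ k ∈ I, cc w h k) by ring] at this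
      refine this.congr (fun a b => ?_)
      rw [hSS, mul_add, Real.exp_add]; ring

lemma vv_le_one (h : ℝ) {k : ℕ} (hw : 0 ≤ w k) (hw1 : w k ≤ 1) : vv w h k ≤ 1 := by
  have hc1 := cc_pos (w := w) h hw
  have h1 : w k * Real.cosh h / cc w h k ≤ 1 := by
    rw [div_le_one (by linarith)]
    unfold cc
    nlinarith
  unfold vv
  nlinarith [sq_nonneg (mu w h k)]

open Classical in
/-- Lower bound for the probability of a large sum. -/
theorem tail_lower (hf : SignFam f w) (I : Finset ℕ) (hI : ∀ k ∈ I, 2 ≤ k) (h t r : ℝ)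
    (hh : 0 ≤ h) (hr : 0 < r) (hr2 : 4 * (I.card : ℝ) ≤ r ^ 2)
    (ht : t ≤ (∑ k ∈ I, mu w h k) - r) :
    ∃ P : ℝ, HasMean (fun a b => if t ≤ SS f I a b then (1 : ℝ) else 0) (setMod I) P ∧
      3 / 4 * Real.exp (- h * ((∑ k ∈ I, mu w h k) + r)) * ∏ k ∈ I, cc w h k ≤ P := by
  obtain ⟨h0, -, h2⟩ := tilt_moments hf h I hI
  obtain ⟨T, hT⟩ : ∃ T : ℝ, HasMean (SS f I) (setMod I) T := by
    refine ⟨0, ?_⟩
    clear h0 h2 hr2 ht
    induction I using Finset.induction_on with
    | empty => exact (HasMean.const 0 (setMod_ne_zero ∅)).congr (fun a b => by simp [SS])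
    | insert k I hk ih =>
      have hi := ih (fun j hj => hI j (Finset.mem_insert_of_mem hj))
      have hk2 := hI k (Finset.mem_insert_self _ _)
      have hc : (Nat.nth Nat.Prime k).Coprime (setMod I) := by
        refine Nat.Coprime.prod_right (fun j hj => nth_coprime ?_)
        rintro rfl
        exact hk hj
      have := ((hf.m1 k hk2).lift (setMod_ne_zero I) hc).add (hi.lift' (NeZero.ne _) hc)
      rw [add_zero] at this
      have hmod : setMod (insert k I) = Nat.nth Nat.Prime k * setMod I := by
        unfold setMod; rw [Finset.prod_insert hk]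
      rw [hmod]
      exact this.congr (fun a b => by unfold SS; rw [Finset.sum_insert hk])
  obtain ⟨P, hP⟩ := hT.comp (fun x => if t ≤ x then (1 : ℝ) else 0)
  refine ⟨P, hP, ?_⟩
  set M := ∑ k ∈ I, mu w h k with hM
  set F := ∏ k ∈ I, cc w h k with hF
  set V := ∑ k ∈ I, vv w h k with hV
  have hF0 : 0 < F := Finset.prod_pos (fun k hk => by
    have := cc_pos (w := w) h (hf.w_nonneg (hI k hk)); linarith)
  have hVn : V ≤ I.card := by
    rw [hV]
    calc ∑ k ∈ I, vv w h k ≤ ∑ k ∈ I, (1 : ℝ) :=
          Finset.sum_le_sum (fun k hk => vv_le_one h (hf.w_nonneg (hI k hk))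
            (hf.w_le_one (hI k hk)))
      _ = I.card := by simp
  have hr20 : 0 < r ^ 2 := by positivity
  have hmin := (h0.smul (Real.exp (- h * (M + r)))).add
    (h2.smul (- Real.exp (- h * (M + r)) / r ^ 2))
  have hle := hmin.mono hP (fun a b => by
    set S := SS f I a b with hS
    have e1 : Real.exp (-h * (M + r)) * Real.exp (h * S) = Real.exp (h * (S - M - r)) := by
      rw [← Real.exp_add]; ring_nf
    have e2 : Real.exp (-h * (M + r)) * Real.exp (h * S) +
        -Real.exp (-h * (M + r)) / r ^ 2 * ((S - M) ^ 2 * Real.exp (h * S)) =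
        Real.exp (h * (S - M - r)) * (1 - (S - M) ^ 2 / r ^ 2) := by
      rw [← e1]; ring
    rw [e2]
    split_ifs with hts
    · by_cases hsm : S - M ≤ r
      · have h3 : Real.exp (h * (S - M - r)) ≤ 1 := by
          rw [Real.exp_le_one_iff]
          exact mul_nonpos_of_nonneg_of_nonpos hh (by linarith)
        have h4 : 1 - (S - M) ^ 2 / r ^ 2 ≤ 1 := by
          have : 0 ≤ (S - M) ^ 2 / r ^ 2 := by positivity
          linarith
        calc Real.exp (h * (S - M - r)) * (1 - (S - M) ^ 2 / r ^ 2)
            ≤ Real.exp (h * (S - M - r)) * 1 :=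
              mul_le_mul_of_nonneg_left h4 (Real.exp_pos _).le
          _ ≤ 1 := by linarith
      · push Not at hsm
        have h4 : 1 - (S - M) ^ 2 / r ^ 2 ≤ 0 := by
          rw [sub_nonpos, one_le_div hr20]
          exact pow_le_pow_left₀ hr.le hsm.le 2
        have := mul_nonpos_of_nonneg_of_nonpos (Real.exp_pos (h * (S - M - r))).le h4
        linarith
    · push Not at hts
      have h4 : 1 - (S - M) ^ 2 / r ^ 2 ≤ 0 := by
        rw [sub_nonpos, one_le_div hr20]
        have : r ≤ M - S := by linarith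
        calc r ^ 2 ≤ (M - S) ^ 2 := pow_le_pow_left₀ hr.le this 2
          _ = (S - M) ^ 2 := by ring
      exact mul_nonpos_of_nonneg_of_nonpos (Real.exp_pos _).le h4)
  refine le_trans ?_ hle
  have h5 : V / r ^ 2 ≤ 1 / 4 := by
    rw [div_le_iff₀ hr20]; linarith
  have h6 : Real.exp (-h * (M + r)) * F + -Real.exp (-h * (M + r)) / r ^ 2 * (V * F) =
      Real.exp (-h * (M + r)) * F * (1 - V / r ^ 2) := by ring
  rw [h6]
  have h7 : 0 < Real.exp (-h * (M + r)) * F := mul_pos (Real.exp_pos _) hF0
  nlinarith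

open Classical in
/-- Upper bound for the probability of a large sum. -/
theorem tail_upper (hf : SignFam f w) (I : Finset ℕ) (hI : ∀ k ∈ I, 2 ≤ k) (h t : ℝ)
    (hh : 0 ≤ h) :
    ∃ P : ℝ, HasMean (fun a b => if t ≤ SS f I a b then (1 : ℝ) else 0) (setMod I) P ∧
      P ≤ Real.exp (h ^ 2 / 2 * I.card - h * t) := by
  obtain ⟨h0, -, -⟩ := tilt_moments hf h I hI
  obtain ⟨P, -, -⟩ : ∃ P : ℝ, True ∧ True := ⟨0, trivial, trivial⟩
  obtain ⟨P, hP⟩ : ∃ P : ℝ, HasMean (fun a b => if t ≤ SS f I a b then (1 : ℝ) else 0)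
      (setMod I) P := by
    have hS : ∃ T : ℝ, HasMean (SS f I) (setMod I) T := by
      refine ⟨0, ?_⟩
      clear h0
      induction I using Finset.induction_on with
      | empty => exact (HasMean.const 0 (setMod_ne_zero ∅)).congr (fun a b => by simp [SS])
      | insert k I hk ih =>
        have hi := ih (fun j hj => hI j (Finset.mem_insert_of_mem hj))
        have hk2 := hI k (Finset.mem_insert_self _ _)
        have hc : (Nat.nth Nat.Prime k).Coprime (setMod I) := by
          refine Nat.Coprime.prod_right (fun j hj => nth_coprime ?_)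
          rintro rfl
          exact hk hj
        have := ((hf.m1 k hk2).lift (setMod_ne_zero I) hc).add (hi.lift' (NeZero.ne _) hc)
        rw [add_zero] at this
        have hmod : setMod (insert k I) = Nat.nth Nat.Prime k * setMod I := by
          unfold setMod; rw [Finset.prod_insert hk]
        rw [hmod]
        exact this.congr (fun a b => by unfold SS; rw [Finset.sum_insert hk])
    obtain ⟨T, hT⟩ := hS
    exact hT.comp (fun x => if t ≤ x then (1 : ℝ) else 0)
  refine ⟨P, hP, ?_⟩
  have hle := hP.mono (h0.smul (Real.exp (- h * t))) (fun a b => by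
    rw [← Real.exp_add]
    split_ifs with hts
    · rw [← Real.exp_zero]
      apply Real.exp_le_exp.mpr
      nlinarith
    · positivity)
  refine hle.trans ?_
  have h1 : ∏ k ∈ I, cc w h k ≤ ∏ k ∈ I, Real.exp (h ^ 2 / 2) := by
    refine Finset.prod_le_prod (fun k hk => ?_) (fun k hk => ?_)
    · have := cc_pos (w := w) h (hf.w_nonneg (hI k hk)); linarith
    · have hw := hf.w_nonneg (hI k hk)
      have hw1 := hf.w_le_one (hI k hk)
      have hc := Real.one_le_cosh h
      refine le_trans ?_ (Real.cosh_le_exp_half_sq h)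
      unfold cc
      nlinarith
  rw [Finset.prod_const, ← Real.exp_nat_mul] at h1
  calc Real.exp (-h * t) * ∏ k ∈ I, cc w h k
      ≤ Real.exp (-h * t) * Real.exp (I.card * (h ^ 2 / 2)) :=
        mul_le_mul_of_nonneg_left h1 (Real.exp_pos _).le
    _ = Real.exp (h ^ 2 / 2 * I.card - h * t) := by
        rw [← Real.exp_add]; ring_nf

end Pool.Agent.H13.LIL
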