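import Pool.Agent.H13.LIL.TwLil

/-!
# Twists of a curve with many non-zero traces
-/

namespace Pool.Agent.H13.LIL

open Finset Pool.Agent.H11.STA Filter Topology

open Classical in
lemma tw_rich_density (a b : ℤ) (h : 4 * a ^ 3 + 27 * b ^ 2 ≠ 0) (ρ : ℝ)
    (hd : ∃ N : ℕ, ∀ n : ℕ, N ≤ n → ρ * n ≤
      (((range n).filter (fun k => angle (shortCurve (a : ℚ) (b : ℚ)) k ≠ 1 / 2)).card : ℝ)) :
    Rich (wtw a b) ρ := by
  have hab : a ≠ 0 ∨ b ≠ 0 := by
    by_contra hcon
    push Not at hcon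
    apply h
    rw [hcon.1, hcon.2]
    norm_num
  apply rich_of_density
  intro ρ₁ hρ₁
  obtain ⟨N, hN⟩ := hd
  obtain ⟨N1, hN1⟩ := sqrt_small ((ρ - ρ₁) / 2) (by linarith)
  set k1 : ℕ := a.natAbs + b.natAbs + 2 with hk1
  obtain ⟨N2, hN2⟩ : ∃ N2 : ℕ, (k1 : ℝ) / ((ρ - ρ₁) / 2) ≤ N2 := exists_nat_ge _
  refine ⟨max N (max N1 N2), fun n hn => ?_⟩
  have h1 := hN n ((le_max_left _ _).trans hn)
  have h2 := hN1 n (((le_max_left _ _).trans (le_max_right _ _)).trans hn)
  have h3 : (N2 : ℝ) ≤ n := by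
    exact_mod_cast ((le_max_right _ _).trans (le_max_right _ _)).trans hn
  have h4 : (k1 : ℝ) ≤ (ρ - ρ₁) / 2 * n := by
    have h5 := hN2.trans h3
    rw [div_le_iff₀ (by linarith)] at h5
    linarith
  have h5 := sum_wtw_ge a b n
  have h6 : (((range n).filter (fun k => angle (shortCurve (a : ℚ) (b : ℚ)) k ≠ 1 / 2)).card : ℝ)
      ≤ (cnt (fun k => 2 ≤ k ∧ redAngle (Nat.nth Nat.Prime k) (a : ZMod (Nat.nth Nat.Prime k))
      (b : ZMod (Nat.nth Nat.Prime k)) ≠ 1 / 2) n : ℝ) + k1 := by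
    have h7 : (range n).filter (fun k => angle (shortCurve (a : ℚ) (b : ℚ)) k ≠ 1 / 2) ⊆
        (range n).filter (fun k => 2 ≤ k ∧ redAngle (Nat.nth Nat.Prime k)
          (a : ZMod (Nat.nth Nat.Prime k)) (b : ZMod (Nat.nth Nat.Prime k)) ≠ 1 / 2) ∪
        range k1 := by
      intro k hk
      rw [Finset.mem_filter] at hk
      rw [Finset.mem_union, Finset.mem_filter]
      by_cases hkk : k < k1
      · exact Or.inr (Finset.mem_range.mpr hkk)
      · refine Or.inl ⟨hk.1, by omega, ?_⟩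
        have h8 := angle_eq a b k (by omega) (not_both a b hab k (by omega))
        rw [h8] at hk
        exact hk.2
    have h8 := (Finset.card_le_card h7).trans (Finset.card_union_le _ _)
    rw [Finset.card_range] at h8
    unfold cnt
    exact_mod_cast h8
  linarith

end Pool.Agent.H13.LIL
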