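import Pool.Agent.H13.LIL.Rich
import Pool.Agent.H13.LIL.NumF

/-!
# The family of the quadratic twists of a curve
-/

namespace Pool.Agent.H13.LIL

open Finset Pool.Agent.H11.STA Filter Topology

/-- The sign of the trace of the twist by `d`, as a function of two integers `d`, `c`. -/
noncomputable def ftw (a b : ℤ) (k : ℕ) (d c : ℤ) : ℝ := sg (twFun a b k d c)

/-- The mean square of the sign over all twists. -/
noncomputable def wtw (a b : ℤ) (k : ℕ) : ℝ :=
  (1 - 1 / (Nat.nth Nat.Prime k : ℝ)) *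
    sg (redAngle (Nat.nth Nat.Prime k) (a : ZMod (Nat.nth Nat.Prime k)) b) ^ 2

lemma three_le (k : ℕ) (hk : 1 ≤ k) : 3 ≤ Nat.nth Nat.Prime k := by
  have h1 : Nat.nth Nat.Prime 1 ≤ Nat.nth Nat.Prime k :=
    Nat.nth_monotone Nat.infinite_setOfPred_prime hk
  have h2 : Nat.nth Nat.Prime 1 = 3 := Nat.nth_prime_one_eq_three
  omega

lemma sg_half : sg (1 / 2) = 0 := by
  unfold sg; norm_num

lemma sg_twFun (a b : ℤ) (k : ℕ) (hk : 1 ≤ k) (u v : ZMod (Nat.nth Nat.Prime k)) :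
    sg (twFun a b k u v) = (quadraticChar (ZMod (Nat.nth Nat.Prime k)) u : ℝ) *
      sg (redAngle (Nat.nth Nat.Prime k) (a : ZMod (Nat.nth Nat.Prime k)) b) := by
  classical
  have hp3 := three_le k hk
  unfold twFun
  by_cases hu : u = 0
  · subst hu
    rw [if_pos rfl, sg_half, MulChar.map_zero]
    simp
  · rw [if_neg hu]
    rcases quadraticChar_dichotomy hu with h1 | h1
    · rw [sq_twist hp3 _ _ u hu h1, h1]
      push_cast; ring
    · rw [redAngle_twist hp3 _ _ u hu h1, h1, sg_one_sub]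
      push_cast; ring

lemma tw_fam (a b : ℤ) : SignFam (ftw a b) (wtw a b) where
  val k _ d c := sg_cases _
  m1 k hk := by
    classical
    refine ⟨nzPrime k, fun u v => sg (twFun a b k u v), fun _ _ => rfl, ?_⟩
    simp only [sg_twFun a b k (by omega)]
    rw [mul_zero]
    have hχ : ∑ u : ZMod (Nat.nth Nat.Prime k),
        (quadraticChar (ZMod (Nat.nth Nat.Prime k)) u : ℝ) = 0 := by
      have h1 := quadraticChar_sum_zero (F := ZMod (Nat.nth Nat.Prime k))
        (ringChar_ne_two (three_le k (by omega)))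
      exact_mod_cast h1
    simp only [Finset.sum_const, nsmul_eq_mul, ← Finset.mul_sum, ← Finset.sum_mul]
    rw [hχ]; ring
  m2 k hk := by
    classical
    refine ⟨nzPrime k, fun u v => sg (twFun a b k u v) ^ 2, fun _ _ => rfl, ?_⟩
    simp only [sg_twFun a b k (by omega), mul_pow]
    have hp0 : (Nat.nth Nat.Prime k : ℝ) ≠ 0 := by
      have := three_le k (by omega)
      exact_mod_cast (by omega : Nat.nth Nat.Prime k ≠ 0)
    have hχ : ∀ u : ZMod (Nat.nth Nat.Prime k),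
        (quadraticChar (ZMod (Nat.nth Nat.Prime k)) u : ℝ) ^ 2 = 1 - if u = 0 then 1 else 0 := by
      intro u
      by_cases hu : u = 0
      · subst hu
        rw [MulChar.map_zero]; simp
      · rw [if_neg hu]
        rcases quadraticChar_dichotomy hu with h1 | h1 <;> rw [h1] <;> norm_num
    have hsum : ∑ u : ZMod (Nat.nth Nat.Prime k),
        (quadraticChar (ZMod (Nat.nth Nat.Prime k)) u : ℝ) ^ 2 =
        (Nat.nth Nat.Prime k : ℝ) - 1 := by
      simp only [hχ]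
      rw [Finset.sum_sub_distrib, Finset.sum_ite_eq' Finset.univ _ (fun _ => (1 : ℝ)),
        if_pos (Finset.mem_univ _), Finset.sum_const, Finset.card_univ, ZMod.card, nsmul_eq_mul,
        mul_one]
    simp only [Finset.sum_const, Finset.card_univ, ZMod.card, nsmul_eq_mul, ← Finset.mul_sum,
      ← Finset.sum_mul]
    rw [hsum]
    unfold wtw
    field_simp

/-- The weights, compared with the number of non-zero traces. -/
lemma wtw_ge (a b : ℤ) (k : ℕ) :
    (if redAngle (Nat.nth Nat.Prime k) (a : ZMod (Nat.nth Nat.Prime k)) b ≠ 1 / 2 then (1 : ℝ)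
      else 0) - 1 / (Nat.nth Nat.Prime k : ℝ) ≤ wtw a b k := by
  have hp0 : (0 : ℝ) ≤ 1 / (Nat.nth Nat.Prime k : ℝ) := by positivity
  unfold wtw
  split_ifs with h
  · rw [sg_sq_of_ne h]; linarith
  · push Not at h
    rw [h, sg_half]
    simp

lemma sum_wtw_ge (a b : ℤ) (n : ℕ) :
    (cnt (fun k => 2 ≤ k ∧ redAngle (Nat.nth Nat.Prime k) (a : ZMod (Nat.nth Nat.Prime k))
      (b : ZMod (Nat.nth Nat.Prime k)) ≠ 1 / 2) n : ℝ) - 2 * √(n : ℝ) ≤
      ∑ k ∈ Ico 2 n, wtw a b k := by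
  classical
  have h1 := Finset.sum_le_sum (fun k (_ : k ∈ Ico 2 n) => wtw_ge a b k)
  rw [Finset.sum_sub_distrib] at h1
  have h2 : ∑ k ∈ Ico 2 n, 1 / (Nat.nth Nat.Prime k : ℝ) ≤ 2 * √(n : ℝ) := by
    refine le_trans ?_ (sum_inv_prime n)
    apply Finset.sum_le_sum_of_subset_of_nonneg
    · intro k hk
      rw [Finset.mem_Ico] at hk
      exact Finset.mem_range.mpr hk.2
    · intros; positivity
  have h3 : (cnt (fun k => 2 ≤ k ∧ redAngle (Nat.nth Nat.Prime k)
      (a : ZMod (Nat.nth Nat.Prime k)) (b : ZMod (Nat.nth Nat.Prime k)) ≠ 1 / 2) n : ℝ) =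
      ∑ k ∈ Ico 2 n, if redAngle (Nat.nth Nat.Prime k) (a : ZMod (Nat.nth Nat.Prime k)) b ≠ 1 / 2
        then (1 : ℝ) else 0 := by
    unfold cnt
    rw [← Finset.sum_filter, Finset.sum_const, nsmul_eq_mul, mul_one]
    congr 2
    ext k
    simp only [Finset.mem_filter, Finset.mem_range, Finset.mem_Ico]
    tauto
  linarith

/-- `2 √n ≤ x n` for large `n`. -/
lemma sqrt_small (x : ℝ) (hx : 0 < x) : ∃ N : ℕ, ∀ n : ℕ, N ≤ n → 2 * √(n : ℝ) ≤ x * n := by
  refine ⟨⌈(2 / x) ^ 2⌉₊, fun n hn => ?_⟩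
  have h1 : (2 / x) ^ 2 ≤ n := (Nat.le_ceil _).trans (by exact_mod_cast hn)
  have h2 : 2 / x ≤ √(n : ℝ) := Real.le_sqrt_of_sq_le h1
  rw [div_le_iff₀ hx] at h2
  have h3 : √(n : ℝ) * √(n : ℝ) = n := Real.mul_self_sqrt (Nat.cast_nonneg _)
  have h4 := Real.sqrt_nonneg (n : ℝ)
  nlinarith

/-- For every curve the weights have positive upper logarithmic density, at least `1/12`. -/
lemma tw_rich (a b : ℤ) (h : 4 * a ^ 3 + 27 * b ^ 2 ≠ 0) : Rich (wtw a b) (1 / 12) := by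
  intro q hq ρ₁ hρ₁ j₀ T
  obtain ⟨N, hN⟩ := sqrt_small ((1 / 12 - ρ₁) / 2) (by linarith)
  obtain ⟨J, ν, hJ1, hJ2, hJ3, hJ4, hJ5⟩ := scales
    (fun k => 2 ≤ k ∧ redAngle (Nat.nth Nat.Prime k) (a : ZMod (Nat.nth Nat.Prime k))
      (b : ZMod (Nat.nth Nat.Prime k)) ≠ 1 / 2) (1 / 12) (by norm_num) (many_primes a b h 2)
    q hq ((1 / 12 + ρ₁) / 2) (by linarith) (max j₀ N) T
  refine ⟨J, ν, fun j hj => (le_max_left _ _).trans (hJ1 j hj), hJ2, hJ3, fun j hj => ?_, hJ5⟩
  have h1 := hJ4 j hj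
  have h2 := sum_wtw_ge a b (ν j)
  have h3 : N ≤ ν j := by
    have e1 : N ≤ j := (le_max_right _ _).trans (hJ1 j hj)
    have e2 : j < q ^ j := Nat.lt_pow_self (by omega)
    have e3 := (hJ3 j hj).1
    omega
  have h4 := hN (ν j) h3
  linarith

end Pool.Agent.H13.LIL
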