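import Pool.Agent.H13.LIL.TwFam
import Pool.Agent.H13.LIL.BoxLil

/-!
# The law of the iterated logarithm, lower half, for almost all quadratic twists
-/

namespace Pool.Agent.H13.LIL

open Finset Pool.Agent.H11.STA Filter Topology

/-- Primes beyond `|a| + |b|` do not divide both. -/
lemma not_both (a b : ℤ) (hab : a ≠ 0 ∨ b ≠ 0) (k : ℕ) (hk : a.natAbs + b.natAbs ≤ k) :
    ¬ (((a : ℤ) : ZMod (Nat.nth Nat.Prime k)) = 0 ∧
      ((b : ℤ) : ZMod (Nat.nth Nat.Prime k)) = 0) := by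
  rintro ⟨h1, h2⟩
  rw [ZMod.intCast_zmod_eq_zero_iff_dvd] at h1 h2
  have hlt := lt_nth_prime k
  have hz : ∀ z : ℤ, z ≠ 0 → ((Nat.nth Nat.Prime k : ℕ) : ℤ) ∣ z → z.natAbs ≤ k → False := by
    intro z hz hdv hle
    have h3 := Int.natAbs_dvd_natAbs.mpr hdv
    rw [Int.natAbs_natCast] at h3
    have h4 := Nat.le_of_dvd (Int.natAbs_pos.mpr hz) h3
    omega
  rcases hab with h | h
  · exact hz a h h1 (by omega)
  · exact hz b h h2 (by omega)

lemma angle_tw (a b : ℤ) (hab : a ≠ 0 ∨ b ≠ 0) (k : ℕ) (hk : a.natAbs + b.natAbs + 2 ≤ k)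
    (d c : ℤ) (hd : ((d : ℤ) : ZMod (Nat.nth Nat.Prime k)) ≠ 0) :
    angle (shortCurve ((d ^ 2 * a : ℤ) : ℚ) ((d ^ 3 * b : ℤ) : ℚ)) k = twFun a b k d c := by
  have hno : ¬ (((d ^ 2 * a : ℤ) : ZMod (Nat.nth Nat.Prime k)) = 0 ∧
      ((d ^ 3 * b : ℤ) : ZMod (Nat.nth Nat.Prime k)) = 0) := by
    rintro ⟨h1, h2⟩
    push_cast at h1 h2
    apply not_both a b hab k (by omega)
    constructor
    · rcases mul_eq_zero.mp h1 with h3 | h3
      · exact absurd h3 (pow_ne_zero 2 hd)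
      · exact h3
    · rcases mul_eq_zero.mp h2 with h3 | h3
      · exact absurd h3 (pow_ne_zero 3 hd)
      · exact h3
  have h1 := angle_eq (d ^ 2 * a) (d ^ 3 * b) k (by omega) hno
  rw [h1]
  unfold twFun
  rw [if_neg hd]
  push_cast
  rfl

open Classical in
/-- The weighted number of the primes dividing `d`. -/
noncomputable def Zd (k0 K1 : ℕ) (d : ℤ) : ℝ :=
  ∑ k ∈ Ico k0 K1, (if ((d : ℤ) : ZMod (Nat.nth Nat.Prime k)) = 0 then 1 / √((k : ℝ) + 1) else 0)

lemma sum_near_tw (a b : ℤ) (hab : a ≠ 0 ∨ b ≠ 0) (K K1 k0 : ℕ) (hK : K ≤ K1)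
    (hk0 : a.natAbs + b.natAbs + 2 ≤ k0) (d c : ℤ) :
    |∑ k ∈ range K, sg (angle (shortCurve ((d ^ 2 * a : ℤ) : ℚ) ((d ^ 3 * b : ℤ) : ℚ)) k) -
      SS (ftw a b) (Ico 2 K) d c| ≤ 2 * k0 + √(K : ℝ) * Zd k0 K1 d := by
  classical
  set E := shortCurve ((d ^ 2 * a : ℤ) : ℚ) ((d ^ 3 * b : ℤ) : ℚ) with hE
  have h0 : SS (ftw a b) (Ico 2 K) d c =
      ∑ k ∈ range K, if 2 ≤ k then ftw a b k d c else 0 := by
    unfold SS
    rw [← Finset.sum_filter]
    apply Finset.sum_congr _ (fun _ _ => rfl)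
    ext k
    simp only [Finset.mem_Ico, Finset.mem_filter, Finset.mem_range]
    exact and_comm
  rw [h0, ← Finset.sum_sub_distrib]
  have hpt : ∀ k ∈ range K, |sg (angle E k) - if 2 ≤ k then ftw a b k d c else 0| ≤
      (if k < k0 then (2 : ℝ) else 0) + (if k0 ≤ k ∧
        ((d : ℤ) : ZMod (Nat.nth Nat.Prime k)) = 0 then √(K : ℝ) * (1 / √((k : ℝ) + 1)) else 0) := by
    intro k hk
    have hkK := Finset.mem_range.mp hk
    by_cases hk1 : k < k0
    · rw [if_pos hk1, if_neg (by omega : ¬ (k0 ≤ k ∧ _)), add_zero]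
      have h1 := sg_abs (angle E k)
      have h2 : |(if 2 ≤ k then ftw a b k d c else 0 : ℝ)| ≤ 1 := by
        split_ifs
        · exact sg_abs _
        · simp
      calc |sg (angle E k) - if 2 ≤ k then ftw a b k d c else 0|
          ≤ |sg (angle E k)| + |(if 2 ≤ k then ftw a b k d c else 0 : ℝ)| := abs_sub _ _
        _ ≤ 2 := by linarith
    · rw [if_neg hk1, zero_add, if_pos (by omega)]
      by_cases hd : ((d : ℤ) : ZMod (Nat.nth Nat.Prime k)) = 0
      · rw [if_pos ⟨by omega, hd⟩]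
        have h1 : ftw a b k d c = 0 := by
          unfold ftw twFun
          rw [if_pos hd, sg_half]
        rw [h1, sub_zero]
        refine (sg_abs _).trans ?_
        have h2 : √((k : ℝ) + 1) ≤ √(K : ℝ) := by
          apply Real.sqrt_le_sqrt
          exact_mod_cast (by omega : k + 1 ≤ K)
        have h3 : 0 < √((k : ℝ) + 1) := Real.sqrt_pos.mpr (by positivity)
        rw [mul_one_div, le_div_iff₀ h3, one_mul]
        exact h2
      · rw [if_neg (fun h => hd h.2), hE, angle_tw a b hab k (by omega) d c hd]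
        unfold ftw
        simp
  refine (Finset.abs_sum_le_sum_abs _ _).trans ((Finset.sum_le_sum hpt).trans ?_)
  rw [Finset.sum_add_distrib]
  apply add_le_add
  · calc ∑ k ∈ range K, (if k < k0 then (2 : ℝ) else 0)
        = ∑ k ∈ (range K).filter (fun k => k < k0), (2 : ℝ) := by rw [Finset.sum_filter]
      _ ≤ ∑ k ∈ range k0, (2 : ℝ) := by
          apply Finset.sum_le_sum_of_subset_of_nonneg
          · intro k hk
            rw [Finset.mem_filter] at hk
            exact Finset.mem_range.mpr hk.2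
          · intros; norm_num
      _ = 2 * k0 := by
          simp only [Finset.sum_const, Finset.card_range, nsmul_eq_mul]
          ring
  · unfold Zd
    rw [Finset.mul_sum, ← Finset.sum_filter]
    calc ∑ k ∈ (range K).filter (fun k => k0 ≤ k ∧ ((d : ℤ) : ZMod (Nat.nth Nat.Prime k)) = 0),
          √(K : ℝ) * (1 / √((k : ℝ) + 1))
        = ∑ k ∈ (range K).filter (fun k => k0 ≤ k ∧ ((d : ℤ) : ZMod (Nat.nth Nat.Prime k)) = 0),
          √(K : ℝ) * (if ((d : ℤ) : ZMod (Nat.nth Nat.Prime k)) = 0 then 1 / √((k : ℝ) + 1)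
            else 0) := by
          refine Finset.sum_congr rfl (fun k hk => ?_)
          rw [if_pos (Finset.mem_filter.mp hk).2.2]
      _ ≤ _ := by
          apply Finset.sum_le_sum_of_subset_of_nonneg
          · intro k hk
            rw [Finset.mem_filter, Finset.mem_range] at hk
            rw [Finset.mem_Ico]
            omega
          · intro k _ _
            apply mul_nonneg (Real.sqrt_nonneg _)
            split_ifs <;> positivity

/-- `Σ_{k ≥ k0} (k+1)^(-3/2) ≤ 2 / √k0`. -/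
lemma sum_three_half (k0 K1 : ℕ) (hk0 : 1 ≤ k0) :
    ∑ k ∈ Ico k0 K1, 1 / (((k : ℝ) + 1) * √((k : ℝ) + 1)) ≤ 2 / √(k0 : ℝ) := by
  by_cases hle : k0 ≤ K1
  · have h1 : ∀ n : ℕ, k0 ≤ n → ∑ k ∈ Ico k0 n, 1 / (((k : ℝ) + 1) * √((k : ℝ) + 1)) ≤
        2 / √(k0 : ℝ) - 2 / √(n : ℝ) := by
      intro n hn
      induction n, hn using Nat.le_induction with
      | base => simp
      | succ n hn ih =>
        rw [Finset.sum_Ico_succ_top hn]
        have hn0 : (0 : ℝ) < n := by exact_mod_cast (by omega : 0 < n)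
        set r := √((n : ℝ) + 1) with hr
        set t := √(n : ℝ) with ht
        have hr2 : r * r = n + 1 := Real.mul_self_sqrt (by linarith)
        have ht2 : t * t = n := Real.mul_self_sqrt hn0.le
        have ht0 : 0 < t := Real.sqrt_pos.mpr hn0
        have hr0 : 0 < r := Real.sqrt_pos.mpr (by linarith)
        have htr : t ≤ r := Real.sqrt_le_sqrt (by linarith)
        have h2 : 1 / (((n : ℝ) + 1) * r) ≤ 2 / t - 2 / r := by
          rw [← hr2, div_sub_div _ _ ht0.ne' hr0.ne', div_le_div_iff₀ (by positivity)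
            (by positivity)]
          have h3 : (r - t) * (r + t) = 1 := by nlinarith
          have h4 : 1 ≤ 2 * r * (r - t) := by nlinarith
          have h5 : t * r ≤ r * r := mul_le_mul_of_nonneg_right htr hr0.le
          calc 1 * (t * r) ≤ (2 * r * (r - t)) * (r * r) :=
                mul_le_mul h4 h5 (by positivity) (by nlinarith)
            _ = (2 * r - t * 2) * (r * r * r) := by ring
        push_cast
        linarith
    refine (h1 K1 hle).trans ?_
    have : 0 ≤ 2 / √(K1 : ℝ) := by positivity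
    linarith
  · rw [Finset.Ico_eq_empty (by omega)]
    simp
    positivity

open Classical in
/-- Few `d` have many small prime factors. -/
lemma card_Zd (k0 K1 : ℕ) (hk0 : 1 ≤ k0) (D : ℤ) (X : ℕ) (hX : Nat.nth Nat.Prime K1 ≤ X) :
    (((Ico D (D + X)).filter (fun d => 1 < Zd k0 K1 d)).card : ℝ) ≤ 4 / √(k0 : ℝ) * X := by
  have hnn : ∀ d, 0 ≤ Zd k0 K1 d := fun d => by
    unfold Zd
    refine Finset.sum_nonneg (fun k _ => ?_)
    split_ifs <;> positivity
  calc (((Ico D (D + X)).filter (fun d => 1 < Zd k0 K1 d)).card : ℝ)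
      = ∑ d ∈ Ico D (D + X), if 1 < Zd k0 K1 d then (1 : ℝ) else 0 := by
        rw [Finset.card_filter]; push_cast; rfl
    _ ≤ ∑ d ∈ Ico D (D + X), Zd k0 K1 d := by
        refine Finset.sum_le_sum (fun d _ => ?_)
        split_ifs with h
        · exact h.le
        · exact hnn d
    _ = ∑ k ∈ Ico k0 K1, ∑ d ∈ Ico D (D + X),
        (if ((d : ℤ) : ZMod (Nat.nth Nat.Prime k)) = 0 then 1 / √((k : ℝ) + 1) else 0) := by
        unfold Zd
        rw [Finset.sum_comm]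
    _ ≤ ∑ k ∈ Ico k0 K1, 2 * X * (1 / (((k : ℝ) + 1) * √((k : ℝ) + 1))) := by
        refine Finset.sum_le_sum (fun k hk => ?_)
        rw [Finset.mem_Ico] at hk
        have hp : Nat.nth Nat.Prime k ≤ Nat.nth Nat.Prime K1 :=
          Nat.nth_monotone Nat.infinite_setOfPred_prime hk.2.le
        have hk1 : ((k : ℝ) + 1) ≤ (Nat.nth Nat.Prime k : ℝ) := by
          exact_mod_cast lt_nth_prime k
        have h1 := card_dvd D X (Nat.nth Nat.Prime k) (Nat.prime_nth_prime k).one_le (hp.trans hX)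
        have h2 : ∑ d ∈ Ico D (D + X),
            (if ((d : ℤ) : ZMod (Nat.nth Nat.Prime k)) = 0 then 1 / √((k : ℝ) + 1) else 0) =
            (((Ico D (D + X)).filter (fun a => ((Nat.nth Nat.Prime k : ℕ) : ℤ) ∣ a)).card : ℝ) *
              (1 / √((k : ℝ) + 1)) := by
          rw [← Finset.sum_filter, Finset.sum_const, nsmul_eq_mul]
          congr 3
          apply Finset.filter_congr
          intro d _
          rw [ZMod.intCast_zmod_eq_zero_iff_dvd]
        rw [h2]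
        have h3 : 0 < √((k : ℝ) + 1) := Real.sqrt_pos.mpr (by positivity)
        have h4 : 2 * (X : ℝ) / (Nat.nth Nat.Prime k : ℝ) ≤ 2 * X / ((k : ℝ) + 1) :=
          div_le_div_of_nonneg_left (by positivity) (by positivity) hk1
        calc _ ≤ (2 * (X : ℝ) / ((k : ℝ) + 1)) * (1 / √((k : ℝ) + 1)) :=
              mul_le_mul_of_nonneg_right (h1.trans h4) (by positivity)
          _ = 2 * X * (1 / (((k : ℝ) + 1) * √((k : ℝ) + 1))) := by
              field_simp
    _ = 2 * X * ∑ k ∈ Ico k0 K1, (1 / (((k : ℝ) + 1) * √((k : ℝ) + 1))) := by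
        rw [Finset.mul_sum]
    _ ≤ 2 * X * (2 / √(k0 : ℝ)) :=
        mul_le_mul_of_nonneg_left (sum_three_half k0 K1 hk0) (by positivity)
    _ = 4 / √(k0 : ℝ) * X := by ring

open Classical in
/-- The lower half of the law of the iterated logarithm for almost all twists. -/
theorem twist_lil (a b : ℤ) (h : 4 * a ^ 3 + 27 * b ^ 2 ≠ 0) (ρ : ℝ) (hρ : 0 < ρ) (hρ1 : ρ ≤ 1)
    (hR : Rich (wtw a b) ρ) (s : ℕ) (hs : 1 ≤ s) (ε : ℝ) (hε : 0 < ε) (K0 : ℕ) (η : ℝ)
    (hη : 0 < η) :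
    ∃ K1 X0 : ℕ, ∀ (D : ℤ) (X : ℕ), X0 ≤ X →
      (((Ico D (D + X)).filter (fun d : ℤ => ¬ ∃ K : ℕ, K0 ≤ K ∧ K ≤ K1 ∧
        (√(ρ / 2) - ε) * √(Real.log (Real.log K)) ≤ √(K : ℝ) * starDisc
          (shortCurve ((d ^ 2 * a : ℤ) : ℚ) ((d ^ 3 * b : ℤ) : ℚ)) s K)).card : ℝ) ≤ η * X := by
  have hab : a ≠ 0 ∨ b ≠ 0 := by
    by_contra hcon
    push Not at hcon
    apply h
    rw [hcon.1, hcon.2]
    norm_num
  set k0 : ℕ := max (a.natAbs + b.natAbs + 2) ⌈(16 / η) ^ 2⌉₊ with hk0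
  have hk01 : 1 ≤ k0 := (by omega : 1 ≤ a.natAbs + b.natAbs + 2).trans (le_max_left _ _)
  have hk0η : 4 / √(k0 : ℝ) ≤ η / 4 := by
    have h1 : (16 / η) ^ 2 ≤ k0 := (Nat.le_ceil _).trans (by exact_mod_cast le_max_right _ _)
    have h2 : 16 / η ≤ √(k0 : ℝ) := Real.le_sqrt_of_sq_le h1
    have h3 : 0 < √(k0 : ℝ) := Real.sqrt_pos.mpr (by exact_mod_cast hk01)
    rw [div_le_iff₀ hη] at h2
    rw [div_le_iff₀ h3]
    linarith
  obtain ⟨N, hN⟩ := exists_large (2 * k0) (ε / 2) (by positivity)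
  obtain ⟨N2, hN2⟩ : ∃ N2 : ℕ, ∀ K : ℕ, N2 ≤ K → (2 / ε) ^ 2 ≤ Real.log (Real.log K) := by
    have h1 : Tendsto (fun y : ℝ => Real.log (Real.log y)) atTop atTop :=
      Real.tendsto_log_atTop.comp Real.tendsto_log_atTop
    obtain ⟨y0, hy0⟩ := eventually_atTop.mp (h1.eventually_ge_atTop ((2 / ε) ^ 2))
    exact ⟨⌈y0⌉₊, fun K hK => hy0 K ((Nat.le_ceil y0).trans (by exact_mod_cast hK))⟩
  have hs2 : √(2 * ρ) - ε < √(2 * ρ) := by linarith
  obtain ⟨K1, hK1⟩ := lil (tw_fam a b).neg ρ hρ hρ1 hR (√(2 * ρ) - ε) hs2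
    (max (max N K0) (max N2 1)) (η / 2) (by positivity)
  -- to one variable
  have hc0 : ∀ d c : ℤ, ∀ K : ℕ, SS (fun k d c => - ftw a b k d c) (Ico 2 K) d c =
      SS (fun k d c => - ftw a b k d c) (Ico 2 K) d 0 := fun d c K => rfl
  obtain ⟨X0, hX0⟩ := Dens.first (P := fun d => ∀ K : ℕ,
      max (max N K0) (max N2 1) ≤ K → K ≤ K1 →
      SS (fun k d c => - ftw a b k d c) (Ico 2 K) d 0 <
        (√(2 * ρ) - ε) * √(K * Real.log (Real.log K)))
    (hK1.mono (fun d c hd K h1 h2 => by rw [hc0 d c K]; exact hd K h1 h2) le_rfl) (η / 4)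
    (by positivity)
  refine ⟨K1, max X0 (Nat.nth Nat.Prime K1), fun D X hX => ?_⟩
  have h1 := hX0 D X ((le_max_left _ _).trans hX)
  have h2 := card_Zd k0 K1 hk01 D X ((le_max_right _ _).trans hX)
  have hsub : (Ico D (D + X)).filter (fun d : ℤ => ¬ ∃ K : ℕ, K0 ≤ K ∧ K ≤ K1 ∧
        (√(ρ / 2) - ε) * √(Real.log (Real.log K)) ≤ √(K : ℝ) * starDisc
          (shortCurve ((d ^ 2 * a : ℤ) : ℚ) ((d ^ 3 * b : ℤ) : ℚ)) s K) ⊆
      (Ico D (D + X)).filter (fun d => ∀ K : ℕ, max (max N K0) (max N2 1) ≤ K → K ≤ K1 →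
        SS (fun k d c => - ftw a b k d c) (Ico 2 K) d 0 <
          (√(2 * ρ) - ε) * √(K * Real.log (Real.log K))) ∪
      (Ico D (D + X)).filter (fun d => 1 < Zd k0 K1 d) := by
    intro d hd
    rw [Finset.mem_filter] at hd
    rw [Finset.mem_union, Finset.mem_filter, Finset.mem_filter]
    by_contra hcon
    push Not at hcon
    obtain ⟨hcon1, hcon2⟩ := hcon
    obtain ⟨K, hKlow, hKK1, hS⟩ := hcon1 hd.1
    have hZ := hcon2 hd.1
    apply hd.2
    have hKN : N ≤ K := ((le_max_left _ _).trans (le_max_left _ _)).trans hKlow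
    have hKK0 : K0 ≤ K := ((le_max_right _ _).trans (le_max_left _ _)).trans hKlow
    have hKN2 : N2 ≤ K := ((le_max_left _ _).trans (le_max_right _ _)).trans hKlow
    have hK : 1 ≤ K := ((le_max_right _ _).trans (le_max_right _ _)).trans hKlow
    refine ⟨K, hKK0, hKK1, ?_⟩
    obtain ⟨hL, hc⟩ := hN K hKN
    have hL2 := hN2 K hKN2
    have hKR : (0 : ℝ) ≤ K := Nat.cast_nonneg _
    have hnear := sum_near_tw a b hab K K1 k0 hKK1 (le_max_left _ _) d 0
    have hsq : √(K : ℝ) ≤ ε / 2 * √(K * Real.log (Real.log K)) := by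
      rw [Real.sqrt_mul hKR]
      have h3 : 2 / ε ≤ √(Real.log (Real.log K)) := Real.le_sqrt_of_sq_le hL2
      rw [div_le_iff₀ hε] at h3
      have h4 := Real.sqrt_nonneg (K : ℝ)
      nlinarith
    have hZ2 : √(K : ℝ) * Zd k0 K1 d ≤ √(K : ℝ) :=
      mul_le_of_le_one_right (Real.sqrt_nonneg _) hZ
    have h3 := low_of_sum (shortCurve ((d ^ 2 * a : ℤ) : ℚ) ((d ^ 3 * b : ℤ) : ℚ)) s K hs hK
      (Real.log (Real.log K)) (√(2 * ρ) - ε) ε (SS (ftw a b) (Ico 2 K) d 0) hL (by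
        rw [SS_neg] at hS
        exact hS) (hnear.trans (by linarith))
    refine le_trans ?_ h3
    refine mul_le_mul_of_nonneg_right ?_ (Real.sqrt_nonneg _)
    have h4 : √(ρ / 2) = √(2 * ρ) / 2 := by
      rw [show ρ / 2 = (2 * ρ) / 2 ^ 2 by ring, Real.sqrt_div (by positivity),
        Real.sqrt_sq (by norm_num)]
    rw [h4]
    linarith
  have h3 := (Finset.card_le_card hsub).trans (Finset.card_union_le _ _)
  have h4 : (((Ico D (D + X)).filter (fun d : ℤ => ¬ ∃ K : ℕ, K0 ≤ K ∧ K ≤ K1 ∧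
        (√(ρ / 2) - ε) * √(Real.log (Real.log K)) ≤ √(K : ℝ) * starDisc
          (shortCurve ((d ^ 2 * a : ℤ) : ℚ) ((d ^ 3 * b : ℤ) : ℚ)) s K)).card : ℝ) ≤
      (((Ico D (D + X)).filter (fun d => ∀ K : ℕ, max (max N K0) (max N2 1) ≤ K → K ≤ K1 →
        SS (fun k d c => - ftw a b k d c) (Ico 2 K) d 0 <
          (√(2 * ρ) - ε) * √(K * Real.log (Real.log K)))).card : ℝ) +
      (((Ico D (D + X)).filter (fun d => 1 < Zd k0 K1 d)).card : ℝ) := by
    exact_mod_cast h3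
  have hXR : (0 : ℝ) ≤ X := Nat.cast_nonneg _
  have h5 : 4 / √(k0 : ℝ) * X ≤ η / 4 * X := mul_le_mul_of_nonneg_right hk0η hXR
  have h6 : (((Ico D (D + X)).filter (fun d => ∀ K : ℕ, max (max N K0) (max N2 1) ≤ K →
      K ≤ K1 → SS (fun k d c => - ftw a b k d c) (Ico 2 K) d 0 <
        (√(2 * ρ) - ε) * √(K * Real.log (Real.log K)))).card : ℝ) ≤ (η / 2 + η / 4) * X := by
    convert h1
  linarith

end Pool.Agent.H13.LIL
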